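import Mathlib

/-! Arithmetic inequalities for the main counting argument. -/

namespace Pool.Agent.Lib.MP_ff2328_ag

/-- case `s + 1 ≥ τ ≥ σ`. -/
lemma ab1 (σ d e K T : ℤ) (h0 : 0 ≤ σ) (hd : 0 ≤ d) (he : 0 ≤ e) (hK : 0 ≤ K) (hT : 0 ≤ T)
    (ht : 1 ≤ σ + d) :
    0 < 3*K*e^2 + 12*d*e*σ + 6*d*e^2 + 6*d*σ^2 + 6*d^2*e + 6*d^2*σ + 2*d^3 + 6*e*σ^2
      + 6*e^2*σ + 6*K*T + 6*K*d + 3*K*e + 12*T*d + 12*T*σ + 12*d*e + 12*d*σ + 12*e*σ + 12*e^2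
      + 18*K - 12*T - 2*d - 24*e + 36 := by
  have h1 : 0 ≤ T * (σ + d - 1) := mul_nonneg hT (by linarith)
  have h2 : 0 ≤ (e - 1)^2 := sq_nonneg _
  have h3 : 2*d ≤ 2*d^3 := by
    have : 0 ≤ d * (d - 1) := by
      rcases eq_or_lt_of_le hd with h | h
      · rw [← h]; simp
      · exact mul_nonneg hd (by omega)
    nlinarith [mul_nonneg this (by linarith : (0:ℤ) ≤ d + 1)]
  have e1 : 0 ≤ 3*K*e^2 := by positivity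
  have e2 : 0 ≤ 12*d*e*σ := by positivity
  have e3 : 0 ≤ 6*d*e^2 := by positivity
  have e4 : 0 ≤ 6*d*σ^2 := by positivity
  have e5 : 0 ≤ 6*d^2*e := by positivity
  have e6 : 0 ≤ 6*d^2*σ := by positivity
  have e7 : 0 ≤ 6*e*σ^2 := by positivity
  have e8 : 0 ≤ 6*e^2*σ := by positivity
  have e9 : 0 ≤ 6*K*T := by positivity
  have e10 : 0 ≤ 6*K*d := by positivity
  have e11 : 0 ≤ 3*K*e := by positivity
  have e12 : 0 ≤ 12*d*e := by positivity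
  have e13 : 0 ≤ 12*d*σ := by positivity
  have e14 : 0 ≤ 12*e*σ := by positivity
  nlinarith

/-- case `σ ≤ s + 1 ≤ τ`. -/
lemma ab2 (σ h e K T : ℤ) (h0 : 0 ≤ σ) (hh : 0 ≤ h) (he : 0 ≤ e) (hK : 0 ≤ K) (hT : 0 ≤ T)
    (ht : 1 ≤ σ + h + e) :
    0 < 3*K*e^2 + 2*e^3 + 6*h*σ^2 + 6*h^2*σ + 2*h^3 + 6*K*T + 3*K*e + 6*K*h + 12*T*e + 12*T*h
      + 12*T*σ - 12*e*h + 12*h*σ + 18*K - 12*T + 22*e - 2*h + 36 := by
  have h1 : 0 ≤ T * (σ + h + e - 1) := mul_nonneg hT (by linarith)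
  have h2 : 0 < 2*e^3 + 2*h^3 - 12*e*h + 22*e - 2*h + 36 := by
    -- e^3+h^3+8 ≥ 6 e h
    have h3 : 0 ≤ (e + h + 2) * ((e-h)^2 + (e-2)^2 + (h-2)^2) := by positivity
    have h4 : (e + h + 2) * ((e-h)^2 + (e-2)^2 + (h-2)^2) = 2*(e^3+h^3+8-6*e*h) := by ring
    have h5 : 6*e*h ≤ e^3+h^3+8 := by linarith
    rcases le_or_gt h 9 with h6 | h6
    · nlinarith
    · -- h ≥ 10
      have h7 : 0 ≤ (e + h + 6) * ((e-h)^2 + (e-6)^2 + (h-6)^2) := by positivity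
      have h8 : (e + h + 6) * ((e-h)^2 + (e-6)^2 + (h-6)^2) = 2*(e^3+h^3+216-18*e*h) := by ring
      have h9 : 18*e*h ≤ e^3+h^3+216 := by linarith
      have h10 : 100 * h ≤ h^3 := by nlinarith [mul_nonneg hh (by nlinarith : (0:ℤ) ≤ h^2 - 100)]
      have h11 : 0 ≤ e * h := by positivity
      have h12 : 0 ≤ e^3 := by positivity
      nlinarith
  have e1 : 0 ≤ 3*K*e^2 := by positivity
  have e4 : 0 ≤ 6*h*σ^2 := by positivity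
  have e6 : 0 ≤ 6*h^2*σ := by positivity
  have e9 : 0 ≤ 6*K*T := by positivity
  have e10 : 0 ≤ 6*K*h := by positivity
  have e11 : 0 ≤ 3*K*e := by positivity
  have e12 : 0 ≤ 12*h*σ := by positivity
  nlinarith

/-- case `s + 1 < σ`. -/
lemma ab3 (p d z K T : ℤ) (h0 : 0 ≤ p) (hd : 0 ≤ d) (hz : 1 ≤ z) (hK : 0 ≤ K) (hT : 0 ≤ T) :
    0 < 6*K*d*z + 3*K*d^2 + 3*K*z^2 + 6*d*z^2 + 6*d^2*z + 2*d^3 + 6*p*z^2 + 6*z^3 + 6*K*T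
      + 3*K*d - 3*K*z + 12*T*d + 12*T*p + 12*T*z + 12*d*z + 6*p*z + 18*z^2 + 18*K - 12*T
      + 22*d + 24*z + 36 := by
  have h1 : 0 ≤ T * (z - 1) := mul_nonneg hT (by linarith)
  have h2 : 0 ≤ K * (z * (z - 1)) := mul_nonneg hK (mul_nonneg (by linarith) (by linarith))
  have hz0 : 0 ≤ z := by linarith
  have e1 : 0 ≤ 6*K*d*z := by positivity
  have e2 : 0 ≤ 3*K*d^2 := by positivity
  have e3 : 0 ≤ 6*d*z^2 := by positivity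
  have e4 : 0 ≤ 6*d^2*z := by positivity
  have e5 : 0 ≤ 2*d^3 := by positivity
  have e6 : 0 ≤ 6*p*z^2 := by positivity
  have e7 : 0 ≤ 6*z^3 := by positivity
  have e8 : 0 ≤ 6*K*T := by positivity
  have e9 : 0 ≤ 3*K*d := by positivity
  have e10 : 0 ≤ 12*T*d := by positivity
  have e11 : 0 ≤ 12*T*p := by positivity
  have e12 : 0 ≤ 12*d*z := by positivity
  have e13 : 0 ≤ 6*p*z := by positivity
  have e14 : 0 ≤ 18*z^2 := by positivity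
  nlinarith

/-- Main polynomial inequality. -/
lemma ab (k s t τ σ z : ℤ) (hk : τ + 1 ≤ k) (hτ : 1 ≤ τ) (hσ : 0 ≤ σ) (hστ : σ ≤ τ)
    (hs : 0 ≤ s) (htk : t ≤ k - s)
    (hz : (z = 0 ∧ σ ≤ s + 1) ∨ (1 ≤ z ∧ σ = s + 1 + z)) :
    6*(s*(k-s)*(k+2) + 2*(k-1)*t) <
      6*(k*(k+1) + (2*s*(k+1) - s*(s-1) + 2*t) + 2*σ*(τ-σ) + z*σ*(σ+3))
        + 2*((τ^3-τ)-(σ^3-σ))
        + 3*(k-1-τ)*((2*s*(k+1) - s*(s-1) + 2*t) + τ*(τ+1) - 2*σ) := by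
  rcases hz with ⟨rfl, h⟩ | ⟨h1, h⟩
  · rcases le_total τ (s+1) with h2 | h2
    · have := ab1 σ (τ-σ) (s+1-τ) (k-1-τ) (k-s-t) hσ (by linarith) (by linarith) (by linarith)
        (by linarith) (by linarith)
      linarith
    · have := ab2 σ (s+1-σ) (τ-(s+1)) (k-1-τ) (k-s-t) hσ (by linarith) (by linarith) (by linarith)
        (by linarith) (by linarith)
      linarith
  · have := ab3 (s+1) (τ-σ) z (k-1-τ) (k-s-t) (by linarith) (by linarith) h1 (by linarith)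
        (by linarith)
    subst h
    linarith

/-- Gain inequality (`a = a' + 1`, `n = m - σ`). -/
lemma gain (σ n a μ θ : ℚ) (hσ : 0 ≤ σ) (hn : 0 ≤ n) (ha : 0 ≤ a) (ha2 : a ≤ a^2)
    (hμ : μ ≤ (a+1)*(a+2)*(3*n+(a+1)+2)/6 + (a+1)*n*(n+1)/2)
    (hθ : θ ≤ a*(a+3)/2) :
    θ*σ*(σ+3) + a*μ ≤ 2*(a*((σ+n+a+3)*(σ+n+a+2)*(σ+n+a+1)/6)
      - ((σ+n+a+2)*(σ+n+a+1)*(σ+n+a)*(σ+n+a-1)/24
        - (σ+n+2)*(σ+n+1)*(σ+n)*(σ+n-1)/24)) := by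
  have h1 : a*μ ≤ a*((a+1)*(a+2)*(3*n+(a+1)+2)/6 + (a+1)*n*(n+1)/2) :=
    mul_le_mul_of_nonneg_left hμ ha
  have h2 : θ*(σ*(σ+3)) ≤ a*(a+3)/2*(σ*(σ+3)) :=
    mul_le_mul_of_nonneg_right hθ (by positivity)
  have h3 : 0 ≤ a^2*n*σ + 1/6*a^3*n + 2/3*a^3*σ + 1/12*a^4 + 3*a*n*σ + a*n^2 + 3/2*a^2*n
      + 5/6*a^3 + 7/3*a*n + 23/12*a^2 + 7/6*a := by positivity
  have h4 : 0 ≤ σ*(a^2-a) := mul_nonneg hσ (by linarith)
  have h5 : 0 ≤ σ * a^2 := by positivity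
  linarith

end Pool.Agent.Lib.MP_ff2328_ag
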