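import Pool.Agent.Lib.MP_ff2328_ag.Stair

/-! Lower bounds for the corner counts. -/

namespace Pool.Agent.Lib.MP_ff2328_ag

open Finset

/-- The corner count. -/
def kap (f : ℕ → ℕ → ℕ) (w j β γ : ℕ) : ℕ :=
  ∑ i ∈ range j, ∑ b ∈ Ico β w, (f i b - γ)

/-- The part of slice `i` of degree at least `k` and `z`-degree at least `x`. -/
def wt (f : ℕ → ℕ → ℕ) (k w i x : ℕ) : ℕ :=
  ∑ b ∈ range w, (f i b - max x (k - i - b))

lemma kap_low {f : ℕ → ℕ → ℕ} (hf : Stair f) {w j : ℕ} (hj : 0 < f j 0) (hw : j ≤ w) :
    (j+2).choose 3 ≤ kap f w j 0 (f j 0) := by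
  rw [← sum_tetra j w hw, kap]
  refine sum_le_sum fun i hi => ?_
  have hi' := mem_range.1 hi
  rw [← range_eq_Ico]
  refine sum_le_sum fun b _ => ?_
  rcases le_or_gt b (j - i) with h | h
  · have := hf.low (i := i) (j := j) (b := 0) (b' := b) (by omega) hj (by omega)
    omega
  · omega

lemma kap_high {f : ℕ → ℕ → ℕ} (hf : Stair f) {k w j σ : ℕ} (hj : 0 < f j 0) (hw : j < w)
    (hjk : f j 0 ≤ k - j) (hσ : ∀ i < σ, 0 < f i (k - i)) (hσj : σ ≤ j) (hjk' : j < k) :
    (j+2).choose 3 + ∑ i ∈ range j, wt f k w i (k - j)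
      + (∑ i ∈ range σ, (j - i + 1)) * (k - j - f j 0) ≤ kap f w j 0 (f j 0) := by
  have hfull : ∀ i < σ, ∀ b ≤ k - i, (k - i - b) + 1 ≤ f i b := by
    intro i hi b hb
    have := hf.low (i := i) (j := i) (b := k - i) (b' := b) le_rfl (hσ i hi) (by omega)
    have := hσ i hi
    omega
  have key : ∀ i < j, ∀ b, (j - i - b) + (f i b - max (k-j) (k-i-b))
      + (if i < σ ∧ b ≤ j - i then (k - j - f j 0) else 0) ≤ f i b - f j 0 := by
    intro i hi b
    rcases le_or_gt b (j - i) with h | h
    · have h1 := hf.low (i := i) (j := j) (b := 0) (b' := b) (by omega) hj (by omega)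
      by_cases hs : i < σ
      · have h2 := hfull i hs b (by omega)
        simp only [hs, h, and_self, if_true]
        omega
      · simp only [hs, false_and, if_false]
        omega
    · have h3 : ¬ (b ≤ j - i) := by omega
      simp only [h3, and_false, if_false]
      omega
  have e1 : (∑ i ∈ range σ, (j - i + 1)) * (k - j - f j 0)
      = ∑ i ∈ range j, ∑ b ∈ range w, (if i < σ ∧ b ≤ j - i then (k - j - f j 0) else 0) := by
    rw [sum_mul]
    have h1 : ∀ i ∈ range σ, (j - i + 1) * (k - j - f j 0)
        = ∑ b ∈ range w, (if i < σ ∧ b ≤ j - i then (k - j - f j 0) else 0) := by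
      intro i hi
      have hi' := mem_range.1 hi
      simp only [hi', true_and]
      rw [← sum_filter, sum_const, smul_eq_mul]
      congr 1
      have : (range w).filter (fun b => b ≤ j - i) = range (j - i + 1) := by
        ext b; simp; omega
      rw [this, card_range]
    rw [sum_congr rfl h1]
    refine sum_subset (range_subset_range.2 hσj) ?_
    intro i _ hi
    have : ¬ i < σ := fun h => hi (mem_range.2 h)
    simp [this]
  rw [e1, ← sum_tetra j w hw.le]
  simp only [wt]
  rw [← sum_add_distrib, ← sum_add_distrib, kap]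
  refine sum_le_sum fun i hi => ?_
  have hi' := mem_range.1 hi
  rw [← range_eq_Ico, ← sum_add_distrib, ← sum_add_distrib]
  exact sum_le_sum fun b _ => key i hi' b

lemma kap_mid {f : ℕ → ℕ → ℕ} (hf : Stair f) {k w j σ : ℕ} (hj : k - j < f j 0) (hkw : k < w)
    (hjk : j < k) (hj0 : f j (k - j) = 0)
    (hσ : ∀ i < σ, 0 < f i (k - i)) (hσj : σ ≤ j) :
    ∃ β γ, f j β ≤ γ ∧ (j+2).choose 3 + ((j+1).choose 2 + σ) ≤ kap f w j β γ := by
  have hex : ∃ b, f j b ≤ k - j - b := ⟨k - j, by omega⟩
  classical
  obtain ⟨β, hβ1, hβ2⟩ : ∃ β, f j β ≤ k - j - β ∧ ∀ b < β, ¬ f j b ≤ k - j - b :=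
    ⟨Nat.find hex, Nat.find_spec hex, fun b hb => Nat.find_min hex hb⟩
  have hβ0 : 1 ≤ β := by
    rcases Nat.eq_zero_or_pos β with h | h
    · subst h; omega
    · exact h
  have hβk : β ≤ k - j := by
    by_contra hcon
    exact hβ2 (k-j) (by omega) (by omega)
  have hprev : k - j - β + 2 ≤ f j (β - 1) := by
    have := hβ2 (β - 1) (by omega)
    omega
  refine ⟨β, k - j - β, hβ1, ?_⟩
  have hfull : ∀ i < σ, ∀ b ≤ k - i, (k - i - b) + 1 ≤ f i b := by
    intro i hi b hb
    have := hf.low (i := i) (j := i) (b := k - i) (b' := b) le_rfl (hσ i hi) (by omega)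
    have := hσ i hi
    omega
  have key : ∀ i < j, ∀ q, (j - i - q) + (if q < j - i then 1 else 0)
      + (if i < σ ∧ q = j - i then 1 else 0) ≤ f i (β + q) - (k - j - β) := by
    intro i hi q
    have h1 : q < j - i → k - j - β + 2 + (j - i - 1 - q) ≤ f i (β + q) := by
      intro hq
      have := hf.low (i := i) (j := j) (b := β - 1) (b' := β + q) (by omega) (by omega) (by omega)
      omega
    have h2 : i < σ → q = j - i → k - j - β + 1 ≤ f i (β + q) := by
      intro hi2 hq
      have := hfull i hi2 (β + q) (by omega)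
      omega
    rcases lt_trichotomy q (j - i) with h | h | h
    · have := h1 h
      have h3 : ¬ q = j - i := by omega
      simp only [h, if_true, h3, and_false, if_false]
      omega
    · subst h
      simp only [lt_irrefl, if_false, and_true]
      split_ifs with h4
      · have := h2 h4 rfl
        omega
      · omega
    · have h3 : ¬ q < j - i := by omega
      have h4 : ¬ q = j - i := by omega
      simp only [h3, if_false, h4, and_false]
      omega
  have hsum : (j+2).choose 3 + ((j+1).choose 2 + σ) =
      ∑ i ∈ range j, ∑ q ∈ range (w - β), ((j - i - q) + (if q < j - i then 1 else 0)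
      + (if i < σ ∧ q = j - i then 1 else 0)) := by
    simp only [sum_add_distrib]
    rw [sum_tetra j (w - β) (by omega), add_assoc]
    congr 1
    congr 1
    · rw [← sum_tri j w (by omega)]
      have : ∑ b ∈ range w, (j - b) = ∑ b ∈ range j, (j - b) := by
        symm
        refine sum_subset (range_subset_range.2 (by omega)) ?_
        intro b _ hb
        have : ¬ b < j := fun h => hb (mem_range.2 h)
        omega
      rw [this]
      refine sum_congr rfl fun i hi => ?_
      have hi' := mem_range.1 hi
      rw [← card_filter]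
      have : (range (w - β)).filter (fun q => q < j - i) = range (j - i) := by
        ext q; simp; omega
      rw [this, card_range]
    · have h1 : ∀ i ∈ range j, ∑ q ∈ range (w - β), (if i < σ ∧ q = j - i then 1 else 0)
          = if i < σ then 1 else 0 := by
        intro i hi
        have hi' := mem_range.1 hi
        by_cases hs : i < σ
        · simp only [hs, true_and, if_true]
          rw [sum_ite_eq']
          simp; omega
        · simp [hs]
      rw [sum_congr rfl h1, ← card_filter]
      have : (range j).filter (fun i => i < σ) = range σ := by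
        ext i; simp; omega
      rw [this, card_range]
  rw [hsum, kap]
  refine sum_le_sum fun i hi => ?_
  rw [sum_Ico_eq_sum_range]
  exact sum_le_sum fun q _ => key i (mem_range.1 hi) q

end Pool.Agent.Lib.MP_ff2328_ag
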