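import Pool.Agent.Lib.MP_ff2328_ag.Rows
import Pool.Agent.Lib.MP_ff2328_ag.Arith

/-! The main counting inequality. -/

namespace Pool.Agent.Lib.MP_ff2328_ag

open Finset

/-- The averaging inequality. -/
lemma wt_avg {f : ℕ → ℕ → ℕ} (hf : Stair f) {k w τ σ : ℕ} (hw : ∀ i b, w ≤ b → f i b = 0)
    (hτ : τ < k) (hτf : ∀ i < τ, k - i < f i 0)
    (hσ0 : ∀ i, σ ≤ i → f i (k - i) = 0) :
    (k - 1 - τ) * ((∑ i ∈ range τ, wt f k w i 0) + (τ+1).choose 2)
      ≤ 2 * (∑ j ∈ Ico τ (k-1), ∑ i ∈ range τ, wt f k w i (k - j)) + (k - 1 - τ) * σ := by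
  set W : ℕ → ℕ := fun q => ∑ i ∈ range τ, wt f k w i (k - (τ + q)) with hW
  have e1 : ∑ j ∈ Ico τ (k-1), ∑ i ∈ range τ, wt f k w i (k - j)
      = ∑ q ∈ range (k - 1 - τ), W q := by
    rw [sum_Ico_eq_sum_range]
  have e2 : 2 * ∑ q ∈ range (k - 1 - τ), W q
      = ∑ q ∈ range (k - 1 - τ), (W q + W (k - 1 - τ - 1 - q)) := by
    rw [sum_add_distrib, sum_range_reflect W, two_mul]
  have e3 : ∀ q ∈ range (k - 1 - τ), (∑ i ∈ range τ, wt f k w i 0) + (τ+1).choose 2
      ≤ (W q + W (k - 1 - τ - 1 - q)) + σ := by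
    intro q hq
    have hq' := mem_range.1 hq
    have h1 : ∀ i ∈ range τ, wt f k w i 0 + (τ - i) ≤ wt f k w i (k - (τ + q))
        + wt f k w i (k - (τ + (k - 1 - τ - 1 - q))) + (if 0 < f i (k - i) then 1 else 0) := by
      intro i hi
      have hi' := mem_range.1 hi
      exact wt_pair hf (hw i) hi' hτ (hτf i hi') (hτf (τ-1) (by omega)) (by omega) (by omega)
        (by omega)
    have h2 := sum_le_sum h1
    rw [sum_add_distrib, sum_add_distrib, sum_add_distrib, sum_tri τ τ le_rfl] at h2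
    have h3 : ∑ i ∈ range τ, (if 0 < f i (k - i) then 1 else 0) ≤ σ := by
      rw [← card_filter]
      have : (range τ).filter (fun i => 0 < f i (k-i)) ⊆ range σ := by
        intro i hi
        simp only [mem_filter, mem_range] at hi ⊢
        by_contra hcon
        have := hσ0 i (by omega)
        omega
      have := card_le_card this
      rwa [card_range] at this
    simp only [hW]
    omega
  have e4 := sum_le_sum e3
  rw [sum_const, card_range, smul_eq_mul] at e4
  refine e4.trans ?_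
  rw [sum_add_distrib (f := fun q => W q + W (k - 1 - τ - 1 - q)), sum_const, card_range,
    smul_eq_mul, ← e2, ← e1]

/-- Existence of the two break points. -/
lemma exists_breaks {f : ℕ → ℕ → ℕ} (hf : Stair f) {k m : ℕ} (hmk : m < k)
    (hm0 : ∀ b, f m b = 0) :
    ∃ σ τ, σ ≤ τ ∧ τ ≤ m ∧ (∀ i < σ, 0 < f i (k - i)) ∧ (∀ i, σ ≤ i → f i (k - i) = 0) ∧
      (∀ i < τ, k - i < f i 0) ∧ (∀ i, τ ≤ i → f i 0 ≤ k - i) := by
  classical
  have hex1 : ∃ i, f i (k - i) = 0 := ⟨m, hm0 _⟩
  have hex2 : ∃ i, f i 0 ≤ k - i := ⟨m, by rw [hm0]; omega⟩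
  obtain ⟨σ, hσ1, hσ2⟩ : ∃ σ, f σ (k - σ) = 0 ∧ ∀ i < σ, ¬ f i (k - i) = 0 :=
    ⟨Nat.find hex1, Nat.find_spec hex1, fun b hb => Nat.find_min hex1 hb⟩
  obtain ⟨τ, hτ1, hτ2⟩ : ∃ τ, f τ 0 ≤ k - τ ∧ ∀ i < τ, ¬ f i 0 ≤ k - i :=
    ⟨Nat.find hex2, Nat.find_spec hex2, fun b hb => Nat.find_min hex2 hb⟩
  have hσm : σ ≤ m := by
    by_contra hcon
    exact hσ2 m (by omega) (hm0 _)
  have hτm : τ ≤ m := by
    by_contra hcon
    exact hτ2 m (by omega) (by rw [hm0]; omega)
  refine ⟨σ, τ, ?_, hτm, fun i hi => Nat.pos_of_ne_zero (hσ2 i hi), ?_,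
    fun i hi => by have := hτ2 i hi; omega, ?_⟩
  · by_contra hcon
    have h1 := hσ2 τ (by omega)
    have h2 := hf.low (i := τ) (j := τ) (b := k - τ) (b' := 0) le_rfl (Nat.pos_of_ne_zero h1)
      (by omega)
    omega
  · intro i hi
    have h1 := hf.low0 (i := σ) (j := i) (b := k - i) (b' := k - σ) hi (by omega)
    omega
  · intro i hi
    by_contra hcon
    have h1 := hf.low (i := τ) (j := i) (b := 0) (b' := 0) hi (by omega) (by omega)
    omega

/-- Lower bound for the number of standard monomials of degree at least `k`. -/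
lemma count_high {f : ℕ → ℕ → ℕ} (hf : Stair f) {k w τ σ : ℕ}
    (hkw : k < w) (hτ : τ < k) (hστ : σ ≤ τ) (hσ : ∀ i < σ, 0 < f i (k - i))
    (hτf : ∀ i < τ, k - i < f i 0) :
    2*σ*(k+1) + (τ-σ)*(τ-σ+1) + σ ≤ 2 * (∑ i ∈ range τ, wt f k w i 0) + σ*σ := by
  have h1 : ∀ i ∈ range τ, (if i < σ then k - i + 1 else τ - i) ≤ wt f k w i 0 := by
    intro i hi
    have hi' := mem_range.1 hi
    rw [wt]
    split_ifs with h
    · have : k - i + 1 = ∑ b ∈ range (k - i + 1), 1 := by simp
      rw [this]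
      calc ∑ b ∈ range (k - i + 1), 1 ≤ ∑ b ∈ range (k - i + 1), (f i b - max 0 (k - i - b)) := by
            refine sum_le_sum fun b hb => ?_
            have hb' := mem_range.1 hb
            have := hf.low (i := i) (j := i) (b := k - i) (b' := b) le_rfl (hσ i h) (by omega)
            have := hσ i h
            omega
        _ ≤ _ := sum_le_sum_of_subset (range_subset_range.2 (by omega))
    · have : τ - i = ∑ b ∈ range (τ - i), 1 := by simp
      rw [this]
      calc ∑ b ∈ range (τ - i), 1 ≤ ∑ b ∈ range (τ - i), (f i b - max 0 (k - i - b)) := by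
            refine sum_le_sum fun b hb => ?_
            have hb' := mem_range.1 hb
            have h2 := hτf (τ - 1) (by omega)
            have := hf.low (i := i) (j := τ - 1) (b := 0) (b' := b) (by omega) (by omega)
              (by omega)
            omega
        _ ≤ _ := sum_le_sum_of_subset (range_subset_range.2 (by omega))
  have h2 := sum_le_sum h1
  have h3 : 2 * ∑ i ∈ range τ, (if i < σ then k - i + 1 else τ - i) + σ * σ
      = 2*σ*(k+1) + (τ-σ)*(τ-σ+1) + σ := by
    rw [← sum_range_add_sum_Ico _ hστ]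
    have e1 : ∀ i ∈ range σ, (if i < σ then k - i + 1 else τ - i) = k - i + 1 := by
      intro i hi; simp [mem_range.1 hi]
    have e2 : ∀ i ∈ Ico σ τ, (if i < σ then k - i + 1 else τ - i) = τ - i := by
      intro i hi
      have := mem_Ico.1 hi
      have h : ¬ i < σ := by omega
      simp [h]
    rw [sum_congr rfl e1, sum_congr rfl e2]
    have e3 : 2 * ∑ i ∈ range σ, (k - i + 1) + σ * σ = 2*σ*(k+1) + σ := by
      clear h1 h2 e1 e2 hσ
      induction σ with
      | zero => simp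
      | succ n ih =>
        have := ih (by omega)
        rw [sum_range_succ]
        have h4 : k - n + 1 + n = k + 1 := by omega
        nlinarith
    have e4 : 2 * ∑ i ∈ Ico σ τ, (τ - i) = (τ-σ)*(τ-σ+1) := by
      rw [sum_Ico_eq_sum_range]
      have : ∀ i ∈ range (τ - σ), (τ - (σ + i)) = (τ - σ - i) := by intro i _; omega
      rw [sum_congr rfl this, sum_tri (τ-σ) (τ-σ) le_rfl]
      have := Nat.triangle_succ (τ-σ)
      rw [Nat.choose_two_right]
      have h5 : Even ((τ-σ+1)*(τ-σ+1-1)) := by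
        rw [mul_comm]; exact Nat.even_mul_pred_self _ |> fun h => by rwa [mul_comm]
      obtain ⟨c, hc⟩ := h5
      rw [hc]
      have h6 : (τ-σ+1-1) = τ - σ := by omega
      rw [h6] at hc
      have : (c + c)/2 = c := by omega
      rw [this]
      linarith
    linarith
  linarith

end Pool.Agent.Lib.MP_ff2328_ag
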