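import Pool.Agent.Lib.MP_ff2328_ag.Count

/-! The deficit of a staircase below degree `k`. -/

namespace Pool.Agent.Lib.MP_ff2328_ag

open Finset

/-- Number of monomials of degree less than `k` which are not standard. -/
def defi (f : ℕ → ℕ → ℕ) (k w : ℕ) : ℕ :=
  ∑ i ∈ range k, ∑ b ∈ range w, ((k - i - b) - f i b)

lemma total {f : ℕ → ℕ → ℕ} (hf : Stair f) {k m w τ : ℕ}
    (hkw : k < w) (hmk : m < k) (hm0 : ∀ i, m ≤ i → ∀ b, f i b = 0) (hτm : τ ≤ m)
    (hτ' : ∀ i, τ ≤ i → f i 0 ≤ k - i) :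
    (∑ i ∈ range m, ∑ b ∈ range w, f i b) + defi f k w
      = (k+2).choose 3 + ∑ i ∈ range τ, wt f k w i 0 := by
  have e1 : ∑ i ∈ range m, ∑ b ∈ range w, f i b = ∑ i ∈ range k, ∑ b ∈ range w, f i b := by
    refine sum_subset (range_subset_range.2 hmk.le) ?_
    intro i _ hi
    refine sum_eq_zero fun b _ => hm0 i ?_ b
    by_contra h; exact hi (mem_range.2 (by omega))
  have e2 : ∑ i ∈ range τ, wt f k w i 0 = ∑ i ∈ range k, wt f k w i 0 := by
    refine sum_subset (range_subset_range.2 (by omega)) ?_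
    intro i _ hi
    have hi' : τ ≤ i := by by_contra h; exact hi (mem_range.2 (by omega))
    refine sum_eq_zero fun b _ => ?_
    have h1 := hτ' i hi'
    rcases Nat.eq_zero_or_pos (f i b) with h | h
    · omega
    · have := hf.down i 0 b (by rwa [zero_add])
      rw [zero_add] at this
      omega
  rw [e1, e2, defi, ← sum_tetra k w hkw.le, ← sum_add_distrib, ← sum_add_distrib]
  refine sum_congr rfl fun i _ => ?_
  rw [wt, ← sum_add_distrib, ← sum_add_distrib]
  refine sum_congr rfl fun b _ => ?_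
  omega

lemma defi_le {f : ℕ → ℕ → ℕ} (hf : Stair f) {k w σ : ℕ}
    (hkw : k < w) (hσk : σ ≤ k) (hσ : ∀ i < σ, 0 < f i (k - i)) :
    defi f k w ≤ ∑ D ∈ Ico σ k, (D + 1 - σ) * (k - D - f D 0) := by
  have h1 : ∀ i ∈ range σ, ∑ b ∈ range w, ((k - i - b) - f i b) = 0 := by
    intro i hi
    have hi' := mem_range.1 hi
    refine sum_eq_zero fun b _ => ?_
    rcases le_or_gt b (k - i) with h | h
    · have := hf.low (i := i) (j := i) (b := k - i) (b' := b) le_rfl (hσ i hi') (by omega)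
      omega
    · omega
  rw [defi, ← sum_range_add_sum_Ico _ hσk, sum_eq_zero h1, zero_add]
  have h2 : ∀ i ∈ Ico σ k, ∑ b ∈ range w, ((k - i - b) - f i b)
      ≤ ∑ D ∈ Ico i k, (k - D - f D 0) := by
    intro i hi
    have hi' := mem_Ico.1 hi
    rw [sum_Ico_eq_sum_range]
    have e : ∑ b ∈ range w, ((k - i - b) - f i b) = ∑ b ∈ range (k - i), ((k - i - b) - f i b) := by
      symm
      refine sum_subset (range_subset_range.2 (by omega)) ?_
      intro b _ hb
      have : ¬ b < k - i := fun h => hb (mem_range.2 h)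
      omega
    rw [e]
    refine sum_le_sum fun b _ => ?_
    have := hf.low0 (i := i) (j := i + b) (b := 0) (b' := b) (by omega) (by omega)
    omega
  refine (sum_le_sum h2).trans ?_
  rw [sum_Ico_Ico_comm]
  refine le_of_eq (sum_congr rfl fun D _ => ?_)
  rw [sum_const, Nat.card_Ico, smul_eq_mul]

lemma defi_split {f : ℕ → ℕ → ℕ} (hf : Stair f) {k m w σ τ : ℕ}
    (hkw : k < w) (hmk : m < k) (hστ : σ ≤ τ) (hτm : τ ≤ m) (hσ : ∀ i < σ, 0 < f i (k - i))
    (hτf : ∀ i < τ, k - i < f i 0) (hm : 0 < m → 0 < f (m-1) 0) :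
    defi f k w ≤ (m - σ) * (∑ j ∈ Ico τ m, (k - j - f j 0))
        + ∑ D ∈ Ico m k, (D + 1 - σ) * (k - D) ∧
    defi f k w ≤ (k - m) * (∑ D ∈ Ico σ m, (D + 1 - σ))
        + ∑ D ∈ Ico m k, (D + 1 - σ) * (k - D) := by
  have h0 := defi_le hf hkw (by omega) hσ
  have hz : ∀ D ∈ Ico σ τ, (D + 1 - σ) * (k - D - f D 0) = 0 := by
    intro D hD
    have := hτf D (mem_Ico.1 hD).2
    rw [show k - D - f D 0 = 0 by omega, mul_zero]
  have hlast : ∑ D ∈ Ico m k, (D + 1 - σ) * (k - D - f D 0)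
      ≤ ∑ D ∈ Ico m k, (D + 1 - σ) * (k - D) :=
    sum_le_sum fun D _ => Nat.mul_le_mul_left _ (Nat.sub_le _ _)
  have hsplit : ∑ D ∈ Ico σ k, (D + 1 - σ) * (k - D - f D 0)
      = (∑ D ∈ Ico σ m, (D + 1 - σ) * (k - D - f D 0))
        + ∑ D ∈ Ico m k, (D + 1 - σ) * (k - D - f D 0) :=
    (sum_Ico_consecutive _ (by omega) (by omega)).symm
  constructor
  · have h1 : ∑ D ∈ Ico σ m, (D + 1 - σ) * (k - D - f D 0)
        ≤ (m - σ) * (∑ j ∈ Ico τ m, (k - j - f j 0)) := by
      rw [← sum_Ico_consecutive _ hστ hτm, sum_eq_zero hz, zero_add, mul_sum]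
      refine sum_le_sum fun D hD => Nat.mul_le_mul_right _ ?_
      have := mem_Ico.1 hD
      omega
    omega
  · have h1 : ∑ D ∈ Ico σ m, (D + 1 - σ) * (k - D - f D 0)
        ≤ (k - m) * (∑ D ∈ Ico σ m, (D + 1 - σ)) := by
      rw [mul_sum]
      refine sum_le_sum fun D hD => ?_
      have hD' := mem_Ico.1 hD
      rw [mul_comm]
      refine Nat.mul_le_mul_right _ ?_
      have h2 := hm (by omega)
      have := hf.low (i := D) (j := m - 1) (b := 0) (b' := 0) (by omega) h2 (by omega)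
      omega
    omega

lemma sum_Va (m σ a : ℕ) (h : σ ≤ m) :
    6 * ∑ D ∈ Ico m (m + a), (D + 1 - σ) * (m + a - D) = a * (a+1) * (3 * (m - σ) + a + 2) := by
  obtain ⟨n, rfl⟩ := Nat.exists_eq_add_of_le h
  have e : σ + n - σ = n := by omega
  rw [e, sum_Ico_eq_sum_range]
  have e2 : ∀ i ∈ range (σ + n + a - (σ + n)), (σ + n + i + 1 - σ) * (σ + n + a - (σ + n + i))
      = (n + i + 1) * (a - i) := by
    intro i _
    congr 1 <;> omega
  rw [sum_congr rfl e2, show σ + n + a - (σ + n) = a by omega]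
  clear e2 e h
  -- ∑ i<a (n+i+1)(a-i)
  induction a with
  | zero => simp
  | succ a ih =>
    have h1 : ∀ i ∈ range (a+1), (n + i + 1) * (a + 1 - i) = (n+i+1) * (a - i) + (n+i+1) := by
      intro i hi
      have := mem_range.1 hi
      have : a + 1 - i = (a - i) + 1 := by omega
      rw [this]; ring
    rw [sum_congr rfl h1, sum_add_distrib, sum_range_succ (fun i => (n+i+1)*(a-i))]
    have h2 : 2 * ∑ i ∈ range (a+1), (n+i+1) = (a+1)*(2*n+a+2) := by
      clear ih h1
      induction a with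
      | zero => simp; ring
      | succ a ih =>
        rw [sum_range_succ, mul_add, ih]
        ring
    simp only [Nat.sub_self, mul_zero, add_zero]
    rw [mul_add, ih]
    nlinarith

lemma sum_Ico_tri (m σ : ℕ) (h : σ ≤ m) :
    2 * ∑ D ∈ Ico σ m, (D + 1 - σ) = (m - σ) * (m - σ + 1) := by
  obtain ⟨n, rfl⟩ := Nat.exists_eq_add_of_le h
  have e : σ + n - σ = n := by omega
  rw [e, sum_Ico_eq_sum_range, e]
  have e2 : ∀ i ∈ range n, (σ + i + 1 - σ) = i + 1 := by intro i _; omega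
  rw [sum_congr rfl e2]
  clear e2 e h
  induction n with
  | zero => simp
  | succ n ih => rw [sum_range_succ, mul_add, ih]; ring

end Pool.Agent.Lib.MP_ff2328_ag
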