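import Pool.Agent.Lib.MP_ff2328_ag.Slice

/-! Upper bound for the tangent space dimension at a monomial ideal in three variables. -/

namespace Pool.Agent.Lib.MP_ff2328_ag

open Finset Module MvPolynomial

variable {K : Type*} [Field K]

/-- Exponent vector of `x^i y^b z^c`. -/
noncomputable def ex (i b c : ℕ) : Fin 3 →₀ ℕ :=
  Finsupp.single 0 i + Finsupp.single 1 b + Finsupp.single 2 c

@[simp] lemma ex_zero (i b c : ℕ) : ex i b c 0 = i := by
  simp [ex]

@[simp] lemma ex_one (i b c : ℕ) : ex i b c 1 = b := by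
  simp [ex]

@[simp] lemma ex_two (i b c : ℕ) : ex i b c 2 = c := by
  simp [ex]

lemma ex_self (u : Fin 3 →₀ ℕ) : ex (u 0) (u 1) (u 2) = u := by
  ext s
  fin_cases s <;> simp

lemma ex_inj {i b c i' b' c' : ℕ} : ex i b c = ex i' b' c' ↔ i = i' ∧ b = b' ∧ c = c' := by
  constructor
  · intro h
    have h0 := congrArg (fun u => u 0) h
    have h1 := congrArg (fun u => u 1) h
    have h2 := congrArg (fun u => u 2) h
    simp at h0 h1 h2
    exact ⟨h0, h1, h2⟩
  · rintro ⟨rfl, rfl, rfl⟩; rfl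

lemma ex_add (i b c i' b' c' : ℕ) : ex i b c + ex i' b' c' = ex (i+i') (b+b') (c+c') := by
  ext s
  fin_cases s <;> simp

lemma ex_sub (i b c i' b' c' : ℕ) : ex i b c - ex i' b' c' = ex (i-i') (b-b') (c-c') := by
  ext s
  fin_cases s <;> simp

/-- `I` is the monomial ideal whose standard monomials are given by `f`. -/
def SI (I : Ideal (MvPolynomial (Fin 3) K)) (f : ℕ → ℕ → ℕ) : Prop :=
  ∀ p, p ∈ I ↔ ∀ i b c, c < f i b → coeff (ex i b c) p = 0

lemma SI.mono {I : Ideal (MvPolynomial (Fin 3) K)} {f : ℕ → ℕ → ℕ} (h : SI I f) (i b c : ℕ) :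
    monomial (ex i b c) (1 : K) ∈ I ↔ f i b ≤ c := by
  rw [h]
  constructor
  · intro h1
    by_contra hcon
    have := h1 i b c (by omega)
    rw [coeff_monomial, if_pos rfl] at this
    exact one_ne_zero this
  · intro h1 i' b' c' h2
    rw [coeff_monomial, if_neg]
    rw [ex_inj]
    rintro ⟨rfl, rfl, rfl⟩
    omega

lemma coeff_X0 (p : MvPolynomial (Fin 3) K) (i b c : ℕ) :
    coeff (ex i b c) (X 0 * p) = if 1 ≤ i then coeff (ex (i-1) b c) p else 0 := by
  rw [coeff_X_mul']
  have : (Finsupp.single 0 1 : Fin 3 →₀ ℕ) = ex 1 0 0 := by simp [ex]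
  rw [this, ex_sub]
  by_cases h : 1 ≤ i
  · rw [if_pos h, if_pos]
    · rfl
    · rw [Finsupp.mem_support_iff, ex_zero]; omega
  · rw [if_neg h, if_neg]
    rw [Finsupp.mem_support_iff, ex_zero]; omega

lemma coeff_X1 (p : MvPolynomial (Fin 3) K) (i b c : ℕ) :
    coeff (ex i b c) (X 1 * p) = if 1 ≤ b then coeff (ex i (b-1) c) p else 0 := by
  rw [coeff_X_mul']
  have : (Finsupp.single 1 1 : Fin 3 →₀ ℕ) = ex 0 1 0 := by simp [ex]
  rw [this, ex_sub]
  by_cases h : 1 ≤ b
  · rw [if_pos h, if_pos]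
    · rfl
    · rw [Finsupp.mem_support_iff, ex_one]; omega
  · rw [if_neg h, if_neg]
    rw [Finsupp.mem_support_iff, ex_one]; omega

lemma coeff_X2 (p : MvPolynomial (Fin 3) K) (i b c : ℕ) :
    coeff (ex i b c) (X 2 * p) = if 1 ≤ c then coeff (ex i b (c-1)) p else 0 := by
  rw [coeff_X_mul']
  have : (Finsupp.single 2 1 : Fin 3 →₀ ℕ) = ex 0 0 1 := by simp [ex]
  rw [this, ex_sub]
  by_cases h : 1 ≤ c
  · rw [if_pos h, if_pos]
    · rfl
    · rw [Finsupp.mem_support_iff, ex_two]; omega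
  · rw [if_neg h, if_neg]
    rw [Finsupp.mem_support_iff, ex_two]; omega

/-- Coefficients of `x`-degree `j`. -/
noncomputable def cj (f : ℕ → ℕ → ℕ) (j : ℕ) : MvPolynomial (Fin 3) K →ₗ[K] Pm K (f j) where
  toFun p := ⟨fun b c => if c < f j b then coeff (ex j b c) p else 0, by
    intro b c hbc
    simp only [show ¬ c < f j b by omega, if_false]⟩
  map_add' p q := by
    apply Subtype.ext; funext b c
    simp only [Submodule.coe_add, Pi.add_apply, coeff_add]
    split_ifs <;> simp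
  map_smul' r p := by
    apply Subtype.ext; funext b c
    simp only [Submodule.coe_smul, Pi.smul_apply, RingHom.id_apply, coeff_smul]
    split_ifs <;> simp

lemma cj_apply (f : ℕ → ℕ → ℕ) (j : ℕ) (p : MvPolynomial (Fin 3) K) (b c : ℕ) :
    (cj f j p).1 b c = if c < f j b then coeff (ex j b c) p else 0 := rfl

variable {I : Ideal (MvPolynomial (Fin 3) K)} {f : ℕ → ℕ → ℕ}

/-- The component of `x`-degree `j` of an element of the quotient. -/
noncomputable def comp (hI : SI I f) (j : ℕ) : (MvPolynomial (Fin 3) K ⧸ I) →ₗ[K] Pm K (f j) :=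
  ((I.restrictScalars K).liftQ (cj f j) (by
    intro p hp
    rw [LinearMap.mem_ker]
    apply Pm_ext
    intro b c hc
    rw [cj_apply, if_pos hc]
    exact (hI p).1 hp j b c hc)) ∘ₗ
  (Submodule.Quotient.restrictScalarsEquiv K I).symm.toLinearMap

lemma comp_mk (hI : SI I f) (j : ℕ) (p : MvPolynomial (Fin 3) K) :
    comp hI j (Ideal.Quotient.mk I p) = cj f j p := rfl

lemma comp_sep (hI : SI I f) {m : ℕ} (hm : ∀ i, m ≤ i → ∀ b, f i b = 0)
    (q : MvPolynomial (Fin 3) K ⧸ I) (h : ∀ j < m, comp hI j q = 0) : q = 0 := by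
  obtain ⟨p, rfl⟩ := Ideal.Quotient.mk_surjective q
  rw [Ideal.Quotient.eq_zero_iff_mem, hI]
  intro i b c hc
  have hi : i < m := by
    by_contra hcon
    rw [hm i (by omega)] at hc
    omega
  have h1 := h i hi
  rw [comp_mk] at h1
  have h2 := congrArg (fun g : Pm K (f i) => g.1 b c) h1
  simp only [cj_apply, if_pos hc] at h2
  exact h2

lemma comp_X1 (hI : SI I f) {j : ℕ} (hj : Antitone (f j)) (q : MvPolynomial (Fin 3) K ⧸ I) :
    comp hI j ((X 1 : MvPolynomial (Fin 3) K) • q) = Yop (f j) (comp hI j q) := by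
  obtain ⟨p, rfl⟩ := Ideal.Quotient.mk_surjective q
  change comp hI j (Ideal.Quotient.mk I (X 1 * p)) = _
  rw [comp_mk, comp_mk]
  apply Pm_ext
  intro b c hc
  rw [cj_apply, if_pos hc, Yop_apply, coeff_X1]
  by_cases h : 1 ≤ b
  · have h2 : f j b ≤ f j (b-1) := hj (by omega)
    rw [if_pos h, if_pos ⟨hc, h⟩, cj_apply, if_pos (by omega)]
  · rw [if_neg h, if_neg (by omega)]

lemma comp_X2 (hI : SI I f) {j : ℕ} (q : MvPolynomial (Fin 3) K ⧸ I) :
    comp hI j ((X 2 : MvPolynomial (Fin 3) K) • q) = Zop (f j) (comp hI j q) := by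
  obtain ⟨p, rfl⟩ := Ideal.Quotient.mk_surjective q
  change comp hI j (Ideal.Quotient.mk I (X 2 * p)) = _
  rw [comp_mk, comp_mk]
  apply Pm_ext
  intro b c hc
  rw [cj_apply, if_pos hc, Zop_apply, coeff_X2]
  by_cases h : 1 ≤ c
  · rw [if_pos h, if_pos ⟨hc, h⟩, cj_apply, if_pos (by omega)]
  · rw [if_neg h, if_neg (by omega)]

lemma comp_X2_pow (hI : SI I f) {j : ℕ} (n : ℕ) (q : MvPolynomial (Fin 3) K ⧸ I) :
    comp hI j ((X 2 ^ n : MvPolynomial (Fin 3) K) • q) = (Zop (f j) ^ n) (comp hI j q) := by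
  induction n with
  | zero => simp
  | succ n ih =>
    rw [pow_succ', mul_smul, comp_X2, ih, pow_succ']
    rfl

lemma comp_X0 (hI : SI I f) {j : ℕ} (hf : ∀ i b, f (i+1) b ≤ f i b)
    (q : MvPolynomial (Fin 3) K ⧸ I) (h : ∀ j' < j, comp hI j' q = 0) :
    comp hI j ((X 0 : MvPolynomial (Fin 3) K) • q) = 0 := by
  obtain ⟨p, rfl⟩ := Ideal.Quotient.mk_surjective q
  change comp hI j (Ideal.Quotient.mk I (X 0 * p)) = _
  rw [comp_mk]
  apply Pm_ext
  intro b c hc
  rw [cj_apply, if_pos hc, coeff_X0]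
  by_cases h1 : 1 ≤ j
  · rw [if_pos h1]
    have h2 := h (j-1) (by omega)
    rw [comp_mk] at h2
    have h3 := congrArg (fun g : Pm K (f (j-1)) => g.1 b c) h2
    have h4 := hf (j-1) b
    have h5 : j - 1 + 1 = j := by omega
    rw [h5] at h4
    simp only [cj_apply] at h3
    rw [if_pos (by omega)] at h3
    exact h3
  · rw [if_neg h1]; rfl

/-- The generator of column `(i, b)`. -/
noncomputable def gen (hI : SI I f) (i b : ℕ) : I :=
  ⟨monomial (ex i b (f i b)) (1 : K), (hI.mono i b _).2 le_rfl⟩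

lemma X_pow_monomial (n i b c : ℕ) :
    (X 2 ^ n * monomial (ex i b c) (1 : K) : MvPolynomial (Fin 3) K)
      = monomial (ex i b (c + n)) 1 := by
  rw [X_pow_eq_monomial, monomial_mul, one_mul]
  have : (Finsupp.single 2 n : Fin 3 →₀ ℕ) = ex 0 0 n := by simp [ex]
  rw [this, ex_add]
  simp [add_comm]

lemma X1_monomial (i b c : ℕ) :
    (X 1 * monomial (ex i b c) (1 : K) : MvPolynomial (Fin 3) K)
      = monomial (ex i (b+1) c) 1 := by
  rw [X, monomial_mul, one_mul]
  have : (Finsupp.single 1 1 : Fin 3 →₀ ℕ) = ex 0 1 0 := by simp [ex]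
  rw [this, ex_add]
  simp [add_comm]

lemma X0_monomial (i b c : ℕ) :
    (X 0 * monomial (ex i b c) (1 : K) : MvPolynomial (Fin 3) K)
      = monomial (ex (i+1) b c) 1 := by
  rw [X, monomial_mul, one_mul]
  have : (Finsupp.single 0 1 : Fin 3 →₀ ℕ) = ex 1 0 0 := by simp [ex]
  rw [this, ex_add]
  simp [add_comm]

lemma gen_y (hI : SI I f) (hf : ∀ i, Antitone (f i)) (i b : ℕ) :
    (X 1 : MvPolynomial (Fin 3) K) • gen hI i b
      = (X 2 ^ (f i b - f i (b+1)) : MvPolynomial (Fin 3) K) • gen hI i (b+1) := by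
  apply Subtype.ext
  change X 1 * monomial (ex i b (f i b)) (1 : K)
    = X 2 ^ (f i b - f i (b+1)) * monomial (ex i (b+1) (f i (b+1))) (1 : K)
  rw [X_pow_monomial, X1_monomial]
  have : f i (b+1) ≤ f i b := hf i (by omega)
  rw [show f i (b+1) + (f i b - f i (b+1)) = f i b by omega]

lemma gen_x (hI : SI I f) (hf : ∀ i b, f (i+1) b ≤ f i b) (i b : ℕ) :
    (X 2 ^ (f i b - f (i+1) b) : MvPolynomial (Fin 3) K) • gen hI (i+1) b
      = (X 0 : MvPolynomial (Fin 3) K) • gen hI i b := by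
  apply Subtype.ext
  change X 2 ^ (f i b - f (i+1) b) * monomial (ex (i+1) b (f (i+1) b)) (1 : K)
    = X 0 * monomial (ex i b (f i b)) (1 : K)
  rw [X_pow_monomial, X0_monomial]
  have := hf i b
  rw [show f (i+1) b + (f i b - f (i+1) b) = f i b by omega]

/-- The Hom space. -/
abbrev HomI (I : Ideal (MvPolynomial (Fin 3) K)) : Type _ :=
  I →ₗ[MvPolynomial (Fin 3) K] (MvPolynomial (Fin 3) K ⧸ I)

/-- The filtration of the Hom space. -/
def Fil (hI : SI I f) (j : ℕ) : Submodule K (HomI I) where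
  carrier := {φ | ∀ j' < j, ∀ x, comp hI j' (φ x) = 0}
  add_mem' := by
    intro φ ψ h1 h2 j' hj' x
    rw [LinearMap.add_apply, map_add, h1 j' hj' x, h2 j' hj' x, add_zero]
  zero_mem' := by intro j' _ x; simp
  smul_mem' := by
    intro r φ h1 j' hj' x
    rw [LinearMap.smul_apply, map_smul, h1 j' hj' x, smul_zero]

/-- Values on the generators of slice `i`, component `j`. -/
noncomputable def nn (hI : SI I f) (i j : ℕ) : HomI I →ₗ[K] (ℕ → Pm K (f j)) where
  toFun φ := fun b => comp hI j (φ (gen hI i b))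
  map_add' φ ψ := by funext b; simp
  map_smul' r φ := by funext b; simp

lemma nn_apply (hI : SI I f) (i j : ℕ) (φ : HomI I) (b : ℕ) :
    nn hI i j φ b = comp hI j (φ (gen hI i b)) := rfl

lemma nn_VS (hI : SI I f) (hf : ∀ i, Antitone (f i)) (i j : ℕ) (φ : HomI I) :
    nn hI i j φ ∈ VS (f i) (Yop (f j)) (Zop (f j)) := by
  intro b
  rw [nn_apply, nn_apply, ← comp_X1 hI (hf j), ← comp_X2_pow, ← map_smul φ, ← map_smul φ,
    gen_y hI hf]

lemma nn_VR (hI : SI I f) (hf : ∀ i, Antitone (f i)) (hf' : ∀ i b, f (i+1) b ≤ f i b)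
    (i j : ℕ) (φ : HomI I) (hφ : φ ∈ Fil hI j) :
    nn hI (i+1) j φ ∈ VR (f i) (f (i+1)) (Yop (f j)) (Zop (f j)) := by
  refine ⟨nn_VS hI hf (i+1) j φ, fun b => ?_⟩
  rw [nn_apply, ← comp_X2_pow, ← map_smul φ, gen_x hI hf', map_smul φ]
  exact comp_X0 hI hf' _ fun j' hj' => hφ j' hj' _

/-- Target space for slice `i`, component `j`. -/
def WW (K : Type*) [Field K] (f : ℕ → ℕ → ℕ) (i j : ℕ) : Submodule K (ℕ → Pm K (f j)) :=
  match i with
  | 0 => VS (f 0) (Yop (f j)) (Zop (f j))
  | i+1 => VR (f i) (f (i+1)) (Yop (f j)) (Zop (f j))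

lemma nn_WW (hI : SI I f) (hf : ∀ i, Antitone (f i)) (hf' : ∀ i b, f (i+1) b ≤ f i b)
    (i j : ℕ) (φ : HomI I) (hφ : φ ∈ Fil hI j) :
    nn hI i j φ ∈ WW K f i j := by
  cases i with
  | zero => exact nn_VS hI hf 0 j φ
  | succ i => exact nn_VR hI hf hf' i j φ hφ

lemma WW_finite (f : ℕ → ℕ → ℕ) {w : ℕ} (hw : ∀ i b, w ≤ b → f i b = 0) (i j : ℕ) :
    FiniteDimensional K (WW K f i j) := by
  have := (Pm_finite (K := K) (hw j)).1
  cases i with
  | zero => exact VS_finite (hw 0)
  | succ i => exact VR_finite (hw (i+1))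

/-- A homomorphism in the filtration whose leading components vanish on the generators. -/
lemma Fil_succ (hI : SI I f) (hf' : ∀ i b, f (i+1) b ≤ f i b) {m : ℕ}
    (hm : ∀ i, m ≤ i → ∀ b, f i b = 0) (j : ℕ) (φ : HomI I) (hφ : φ ∈ Fil hI j)
    (h : ∀ i ≤ m, nn hI i j φ = 0) : φ ∈ Fil hI (j+1) := by
  have hmono : ∀ i b c (hc : f i b ≤ c),
      comp hI j (φ ⟨monomial (ex i b c) (1:K), (hI.mono i b c).2 hc⟩) = 0 := by
    intro i
    induction i with
    | zero =>
      intro b c hc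
      have h1 := congrFun (h 0 (Nat.zero_le m)) b
      rw [nn_apply] at h1
      have e : (⟨monomial (ex 0 b c) (1:K), (hI.mono 0 b c).2 hc⟩ : I)
          = (X 2 ^ (c - f 0 b) : MvPolynomial (Fin 3) K) • gen hI 0 b := by
        apply Subtype.ext
        change _ = X 2 ^ (c - f 0 b) * monomial (ex 0 b (f 0 b)) (1 : K)
        rw [X_pow_monomial, show f 0 b + (c - f 0 b) = c by omega]
      rw [e, map_smul φ, comp_X2_pow, h1]
      simp
    | succ i ih =>
      intro b c hc
      rcases le_or_gt (i+1) m with him | him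
      · have h1 := congrFun (h (i+1) him) b
        rw [nn_apply] at h1
        have e : (⟨monomial (ex (i+1) b c) (1:K), (hI.mono (i+1) b c).2 hc⟩ : I)
            = (X 2 ^ (c - f (i+1) b) : MvPolynomial (Fin 3) K) • gen hI (i+1) b := by
          apply Subtype.ext
          change _ = X 2 ^ (c - f (i+1) b) * monomial (ex (i+1) b (f (i+1) b)) (1 : K)
          rw [X_pow_monomial, show f (i+1) b + (c - f (i+1) b) = c by omega]
        rw [e, map_smul φ, comp_X2_pow, h1]
        simp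
      · have hz : f i b ≤ c := by rw [hm i (by omega)]; omega
        have e : (⟨monomial (ex (i+1) b c) (1:K), (hI.mono (i+1) b c).2 hc⟩ : I)
            = (X 0 : MvPolynomial (Fin 3) K) •
              ⟨monomial (ex i b c) (1:K), (hI.mono i b c).2 hz⟩ := by
          apply Subtype.ext
          change _ = X 0 * monomial (ex i b c) (1 : K)
          rw [X0_monomial]
        rw [e, map_smul φ]
        exact comp_X0 hI hf' _ fun j' hj' => hφ j' hj' _
  intro j' hj' x
  rcases Nat.lt_or_ge j' j with h1 | h1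
  · exact hφ j' h1 x
  · have : j' = j := by omega
    subst this
    -- x is a combination of monomials
    obtain ⟨p, hp⟩ := x
    have hsum : (⟨p, hp⟩ : I) = ∑ u ∈ p.support.attach, (C (coeff u.1 p) : MvPolynomial (Fin 3) K) •
        (⟨monomial u.1 (1:K), by
          rw [← ex_self u.1, hI.mono]
          by_contra hcon
          have h2 := (hI p).1 hp (u.1 0) (u.1 1) (u.1 2) (by omega)
          rw [ex_self] at h2
          exact (mem_support_iff.1 u.2) h2⟩ : I) := by
      apply Subtype.ext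
      rw [Submodule.coe_sum]
      change p = ∑ u ∈ p.support.attach, C (coeff u.1 p) * monomial u.1 (1:K)
      rw [Finset.sum_attach p.support (fun u => C (coeff u p) * monomial u (1:K))]
      conv_lhs => rw [p.as_sum]
      refine Finset.sum_congr rfl fun u _ => ?_
      rw [C_mul_monomial, mul_one]
    rw [hsum, map_sum, map_sum]
    refine Finset.sum_eq_zero fun u _ => ?_
    have hu := (hI p).1 hp
    have hle : f (u.1 0) (u.1 1) ≤ u.1 2 := by
      by_contra hcon
      have h2 := hu (u.1 0) (u.1 1) (u.1 2) (by omega)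
      rw [ex_self] at h2
      exact (mem_support_iff.1 u.2) h2
    rw [map_smul φ]
    have e1 : ∀ q : MvPolynomial (Fin 3) K ⧸ I,
        (C (coeff u.1 p) : MvPolynomial (Fin 3) K) • q = (coeff u.1 p) • q := by
      intro q
      obtain ⟨r, rfl⟩ := Ideal.Quotient.mk_surjective q
      change Ideal.Quotient.mk I (C (coeff u.1 p) * r) = Ideal.Quotient.mk I ((coeff u.1 p) • r)
      rw [C_mul']
    rw [e1, map_smul]
    have h3 := hmono (u.1 0) (u.1 1) (u.1 2) hle
    simp only [ex_self] at h3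
    rw [h3, smul_zero]

lemma finrank_chain {H W : Type*} [AddCommGroup H] [Module K H] [AddCommGroup W] [Module K W]
    (hW : FiniteDimensional K W) (F F' : Submodule K H) (hF' : FiniteDimensional K F')
    (G : F →ₗ[K] W) (hG : ∀ φ : F, G φ = 0 → φ.1 ∈ F') :
    FiniteDimensional K F ∧ finrank K F ≤ finrank K F' + finrank K W := by
  let g : LinearMap.ker G →ₗ[K] F' :=
    { toFun := fun φ => ⟨φ.1.1, hG φ.1 φ.2⟩
      map_add' := fun φ ψ => rfl
      map_smul' := fun r φ => rfl }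
  have hg : Function.Injective g := by
    intro φ ψ h
    apply Subtype.ext
    apply Subtype.ext
    have h' := congrArg Subtype.val h
    exact h'
  have hkerfin : FiniteDimensional K (LinearMap.ker G) := FiniteDimensional.of_injective g hg
  have hfin2 : FiniteDimensional K F := by
    have : FiniteDimensional K (F ⧸ LinearMap.ker G) :=
      Module.Finite.equiv (LinearMap.quotKerEquivRange G).symm
    exact Module.Finite.of_submodule_quotient (LinearMap.ker G)
  refine ⟨hfin2, ?_⟩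
  have h1 := LinearMap.finrank_range_add_finrank_ker G
  have h2 : finrank K (LinearMap.ker G) ≤ finrank K F' :=
    LinearMap.finrank_le_finrank_of_injective hg
  have h3 : finrank K (LinearMap.range G) ≤ finrank K W := Submodule.finrank_le _
  omega

lemma finrank_chain_pi {H V : Type*} [AddCommGroup H] [Module K H] [AddCommGroup V] [Module K V]
    (n : ℕ) (W : ℕ → Submodule K V) (hW : ∀ i, FiniteDimensional K (W i))
    (F F' : Submodule K H) (hF' : FiniteDimensional K F') (ν : ℕ → H →ₗ[K] V)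
    (h1 : ∀ i, ∀ φ ∈ F, ν i φ ∈ W i) (h2 : ∀ φ ∈ F, (∀ i < n, ν i φ = 0) → φ ∈ F') :
    FiniteDimensional K F ∧
      finrank K F ≤ finrank K F' + ∑ i ∈ Finset.range n, finrank K (W i) := by
  let G : F →ₗ[K] ((i : Fin n) → W i) :=
    { toFun := fun φ i => ⟨ν i φ.1, h1 i φ.1 φ.2⟩
      map_add' := fun φ ψ => by
        funext i; apply Subtype.ext; exact map_add (ν i) φ.1 ψ.1
      map_smul' := fun r φ => by
        funext i; apply Subtype.ext; exact map_smul (ν i) r φ.1 }
  have h3 := finrank_chain inferInstance F F' hF' G (fun φ hφ => h2 φ.1 φ.2 fun i hi =>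
    congrArg Subtype.val (congrFun hφ ⟨i, hi⟩))
  rwa [Module.finrank_pi_fintype,
    Fin.sum_univ_eq_sum_range (fun i => finrank K (W i))] at h3

lemma Fil_step (hI : SI I f) (hf : ∀ i, Antitone (f i)) (hf' : ∀ i b, f (i+1) b ≤ f i b) {m w : ℕ}
    (hm : ∀ i, m ≤ i → ∀ b, f i b = 0) (hw : ∀ i b, w ≤ b → f i b = 0) (j : ℕ)
    (hfin : FiniteDimensional K (Fil hI (j+1))) :
    FiniteDimensional K (Fil hI j) ∧
    finrank K (Fil hI j) ≤ finrank K (Fil hI (j+1))
      + ∑ i ∈ range (m+1), finrank K (WW K f i j) :=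
  finrank_chain_pi (H := HomI I) (V := ℕ → Pm K (f j)) (m+1) (fun i => WW K f i j)
    (fun i => WW_finite f hw i j) (Fil hI j) (Fil hI (j+1)) hfin (fun i => nn hI i j)
    (fun i φ hφ => nn_WW hI hf hf' i j φ hφ)
    (fun φ hφ h => Fil_succ hI hf' hm j φ hφ fun i hi => h i (by omega))

lemma Fil_all (hI : SI I f) (hf : ∀ i, Antitone (f i)) (hf' : ∀ i b, f (i+1) b ≤ f i b) {m w : ℕ}
    (hm : ∀ i, m ≤ i → ∀ b, f i b = 0) (hw : ∀ i b, w ≤ b → f i b = 0) (n : ℕ) (hn : n ≤ m) :
    FiniteDimensional K (Fil hI (m - n)) ∧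
    finrank K (Fil hI (m - n)) ≤ ∑ j ∈ Ico (m-n) m, ∑ i ∈ range (m+1), finrank K (WW K f i j) := by
  induction n with
  | zero =>
    have hbot : ∀ φ ∈ Fil hI m, φ = 0 := by
      intro φ hφ
      apply LinearMap.ext
      intro x
      exact comp_sep hI hm _ fun j hj => hφ j hj x
    have : Subsingleton (Fil hI m) := by
      constructor
      intro a b
      apply Subtype.ext
      rw [hbot a.1 a.2, hbot b.1 b.2]
    rw [Nat.sub_zero]
    exact ⟨inferInstance, by rw [Module.finrank_zero_of_subsingleton]; exact Nat.zero_le _⟩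
  | succ n ih =>
    have h1 := ih (by omega)
    have e : m - n = m - (n+1) + 1 := by omega
    rw [e] at h1
    have h2 := Fil_step hI hf hf' hm hw (m - (n+1)) h1.1
    refine ⟨h2.1, ?_⟩
    rw [sum_eq_sum_Ico_succ_bot (by omega)]
    omega

/-- Upper bound in terms of the slices. -/
theorem T_le (hI : SI I f) (hf : ∀ i, Antitone (f i)) (hf' : ∀ i b, f (i+1) b ≤ f i b) {m w : ℕ}
    (hm : ∀ i, m ≤ i → ∀ b, f i b = 0) (hw : ∀ i b, w ≤ b → f i b = 0) :
    finrank K (HomI I) ≤ ∑ j ∈ range m, ∑ i ∈ range (m+1), finrank K (WW K f i j) := by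
  have h1 := Fil_all (K := K) hI hf hf' hm hw m le_rfl
  rw [Nat.sub_self] at h1
  have htop : Fil hI 0 = ⊤ := by
    rw [Submodule.eq_top_iff']
    intro φ j' hj'
    omega
  rw [htop, finrank_top] at h1
  rw [range_eq_Ico]
  exact h1.2

end Pool.Agent.Lib.MP_ff2328_ag
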