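import Pool.Agent.Lib.MP_ff2328_ag.Mono

/-! Construction of homomorphisms from monomial ideals. -/

namespace Pool.Agent.Lib.MP_ff2328_ag

open Finset Module MvPolynomial

variable {K : Type*} [Field K]

/-- The linear extension of a function on monomials. -/
noncomputable def lext (J : Ideal (MvPolynomial (Fin 3) K))
    (μ : (Fin 3 →₀ ℕ) → MvPolynomial (Fin 3) K ⧸ J) :
    MvPolynomial (Fin 3) K →ₗ[K] MvPolynomial (Fin 3) K ⧸ J :=
  (basisMonomials (Fin 3) K).constr K μ

lemma lext_monomial (J : Ideal (MvPolynomial (Fin 3) K))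
    (μ : (Fin 3 →₀ ℕ) → MvPolynomial (Fin 3) K ⧸ J) (u : Fin 3 →₀ ℕ) (a : K) :
    lext J μ (monomial u a) = a • μ u := by
  have h1 : lext J μ (monomial u 1) = μ u := by
    have := (basisMonomials (Fin 3) K).constr_basis K μ u
    rwa [coe_basisMonomials] at this
  have h2 : monomial u a = a • monomial u (1:K) := by
    rw [smul_monomial, smul_eq_mul, mul_one]
  rw [h2, map_smul, h1]

lemma smul_quot (J : Ideal (MvPolynomial (Fin 3) K)) (a : K) (p : MvPolynomial (Fin 3) K)
    (q : MvPolynomial (Fin 3) K ⧸ J) : p • (a • q) = a • (p • q) := by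
  obtain ⟨r, rfl⟩ := Ideal.Quotient.mk_surjective q
  change Ideal.Quotient.mk J (p * (a • r)) = Ideal.Quotient.mk J (a • (p * r))
  rw [mul_smul_comm]

lemma C_smul_quot (J : Ideal (MvPolynomial (Fin 3) K)) (a : K)
    (q : MvPolynomial (Fin 3) K ⧸ J) : (C a : MvPolynomial (Fin 3) K) • q = a • q := by
  obtain ⟨r, rfl⟩ := Ideal.Quotient.mk_surjective q
  change Ideal.Quotient.mk J (C a * r) = Ideal.Quotient.mk J (a • r)
  rw [C_mul']

lemma lext_mul {J : Ideal (MvPolynomial (Fin 3) K)}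
    (hJ : ∀ p ∈ J, ∀ u ∈ p.support, MI J u)
    (μ : (Fin 3 →₀ ℕ) → MvPolynomial (Fin 3) K ⧸ J)
    (hμ : ∀ u v, MI J v → μ (u + v) = (monomial u (1:K)) • μ v)
    (p q : MvPolynomial (Fin 3) K) (hq : q ∈ J) :
    lext J μ (p * q) = p • lext J μ q := by
  have h1 : ∀ u (a : K), lext J μ (monomial u a * q) = (monomial u a) • lext J μ q := by
    intro u a
    conv_lhs => rw [q.as_sum]
    conv_rhs => rw [q.as_sum]
    rw [mul_sum, map_sum, map_sum, smul_sum]
    refine sum_congr rfl fun v hv => ?_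
    rw [monomial_mul, lext_monomial, lext_monomial, hμ u v (hJ q hq v hv), smul_quot]
    have : (monomial u a : MvPolynomial (Fin 3) K) = C a * monomial u 1 := by
      rw [C_mul_monomial, mul_one]
    rw [this, mul_smul (C a : MvPolynomial (Fin 3) K), C_smul_quot, mul_comm a, mul_smul]
  induction p using MvPolynomial.induction_on' with
  | monomial u a => exact h1 u a
  | add p₁ p₂ ih₁ ih₂ => rw [add_mul, map_add, ih₁, ih₂, add_smul]

/-- A homomorphism from its values on monomials. -/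
noncomputable def mkHom {J : Ideal (MvPolynomial (Fin 3) K)}
    (hJ : ∀ p ∈ J, ∀ u ∈ p.support, MI J u)
    (μ : (Fin 3 →₀ ℕ) → MvPolynomial (Fin 3) K ⧸ J)
    (hμ : ∀ u v, MI J v → μ (u + v) = (monomial u (1:K)) • μ v) : HomI J where
  toFun x := lext J μ x.1
  map_add' x y := by
    rw [Submodule.coe_add, map_add]
  map_smul' r x := by
    rw [RingHom.id_apply]
    exact lext_mul hJ μ hμ r x.1 x.2

lemma mkHom_apply {J : Ideal (MvPolynomial (Fin 3) K)}
    (hJ : ∀ p ∈ J, ∀ u ∈ p.support, MI J u)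
    (μ : (Fin 3 →₀ ℕ) → MvPolynomial (Fin 3) K ⧸ J)
    (hμ : ∀ u v, MI J v → μ (u + v) = (monomial u (1:K)) • μ v) (v : Fin 3 →₀ ℕ) (hv : MI J v) :
    mkHom hJ μ hμ ⟨monomial v 1, hv⟩ = μ v := by
  change lext J μ (monomial v 1) = _
  rw [lext_monomial, one_smul]

/-- class of a monomial -/
noncomputable def cl (J : Ideal (MvPolynomial (Fin 3) K)) (u : Fin 3 →₀ ℕ) :
    MvPolynomial (Fin 3) K ⧸ J := Ideal.Quotient.mk J (monomial u 1)

lemma cl_smul (J : Ideal (MvPolynomial (Fin 3) K)) (u v : Fin 3 →₀ ℕ) :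
    (monomial u (1:K)) • cl J v = cl J (u + v) := by
  change Ideal.Quotient.mk J (monomial u 1 * monomial v 1) = _
  rw [monomial_mul, one_mul]
  rfl

lemma cl_zero {J : Ideal (MvPolynomial (Fin 3) K)} {u : Fin 3 →₀ ℕ} (h : MI J u) :
    cl J u = 0 := Ideal.Quotient.eq_zero_iff_mem.2 h

/-- The coefficient functional on the Hom space: coefficient of `x^i y^b z^c` in the value at
the monomial `g`. -/
noncomputable def lam {J : Ideal (MvPolynomial (Fin 3) K)} {f : ℕ → ℕ → ℕ} (hJ : SI J f)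
    (g p : Fin 3 →₀ ℕ) (hg : MI J g) : HomI J →ₗ[K] K where
  toFun φ := (comp hJ (p 0) (φ ⟨monomial g 1, hg⟩)).1 (p 1) (p 2)
  map_add' φ ψ := by simp
  map_smul' r φ := by simp

lemma lam_apply {J : Ideal (MvPolynomial (Fin 3) K)} {f : ℕ → ℕ → ℕ} (hJ : SI J f)
    (g p : Fin 3 →₀ ℕ) (hg : MI J g) (φ : HomI J) :
    lam hJ g p hg φ = (comp hJ (p 0) (φ ⟨monomial g 1, hg⟩)).1 (p 1) (p 2) := rfl

lemma comp_cl {J : Ideal (MvPolynomial (Fin 3) K)} {f : ℕ → ℕ → ℕ} (hJ : SI J f)
    (p u : Fin 3 →₀ ℕ) (hp : ¬ MI J p) :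
    (comp hJ (p 0) (cl J u)).1 (p 1) (p 2) = if u = p then 1 else 0 := by
  have h1 : p 2 < f (p 0) (p 1) := by
    by_contra hcon
    apply hp
    rw [← ex_self p]
    exact (hJ.mono _ _ _).2 (by omega)
  rw [cl, comp_mk, cj_apply, if_pos h1, ex_self, coeff_monomial]

/-- Two-block independence. -/
lemma two_blocks {V : Type*} [AddCommGroup V] [Module K V] [FiniteDimensional K V]
    {A D : Type*} [Fintype A] [Fintype D] [DecidableEq A] [DecidableEq D]
    (φA : A → V) (φD : D → V) (lA : A → (V →ₗ[K] K)) (lD : D → (V →ₗ[K] K))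
    (h1 : ∀ a a', lA a (φA a') = if a' = a then 1 else 0)
    (h2 : ∀ d d', lD d (φD d') = if d' = d then 1 else 0)
    (h3 : ∀ d a, lD d (φA a) = 0) :
    Fintype.card A + Fintype.card D ≤ finrank K V := by
  have hli : LinearIndependent K (Sum.elim φA φD) := by
    rw [Fintype.linearIndependent_iff]
    intro g hg
    rw [Fintype.sum_sum_type] at hg
    simp only [Sum.elim_inl, Sum.elim_inr] at hg
    have hd : ∀ d, g (Sum.inr d) = 0 := by
      intro d
      have h4 := congrArg (lD d) hg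
      rw [map_add, map_sum, map_sum, map_zero] at h4
      simp only [map_smul, h3, h2, sum_const_zero, zero_add, smul_eq_mul, mul_ite,
        mul_one, mul_zero] at h4
      simpa using h4
    have ha : ∀ a, g (Sum.inl a) = 0 := by
      intro a
      simp only [hd, zero_smul, sum_const_zero, add_zero] at hg
      have h4 := congrArg (lA a) hg
      rw [map_sum, map_zero] at h4
      simp only [map_smul, h1, smul_eq_mul, mul_ite, mul_one, mul_zero] at h4
      simpa using h4
    rintro (a | d)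
    · exact ha a
    · exact hd d
  have := hli.fintype_card_le_finrank
  rwa [Fintype.card_sum] at this

end Pool.Agent.Lib.MP_ff2328_ag
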