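import Mathlib

/-! Homomorphisms from monomial ideals in two variables: linear algebra bounds. -/

namespace Pool.Agent.Lib.MP_ff2328_ag

open Finset Module

variable {K : Type*} [Field K] {P : Type*} [AddCommGroup P] [Module K P]

/-- Sequences `n` with `Y n_b = Z^(f b - f (b+1)) n_(b+1)`: homomorphisms from the monomial ideal
with staircase `f` to `P`. -/
def VS (f : ℕ → ℕ) (Y Z : Module.End K P) : Submodule K (ℕ → P) where
  carrier := {n | ∀ b, Y (n b) = (Z ^ (f b - f (b+1))) (n (b+1))}
  add_mem' := by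
    intro a b ha hb c
    simp only [Pi.add_apply, map_add]
    rw [ha c, hb c]
  zero_mem' := by intro c; simp
  smul_mem' := by
    intro r a ha c
    simp only [Pi.smul_apply, map_smul]
    rw [ha c]

lemma mem_VS {f : ℕ → ℕ} {Y Z : Module.End K P} {n : ℕ → P} :
    n ∈ VS f Y Z ↔ ∀ b, Y (n b) = (Z ^ (f b - f (b+1))) (n (b+1)) := Iff.rfl

/-- Sequences for `f'` which vanish on the ideal of `f`. -/
def VR (f f' : ℕ → ℕ) (Y Z : Module.End K P) : Submodule K (ℕ → P) where
  carrier := {n | n ∈ VS f' Y Z ∧ ∀ b, (Z ^ (f b - f' b)) (n b) = 0}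
  add_mem' := by
    rintro a b ⟨ha1, ha2⟩ ⟨hb1, hb2⟩
    refine ⟨Submodule.add_mem _ ha1 hb1, fun c => ?_⟩
    simp only [Pi.add_apply, map_add]
    rw [ha2 c, hb2 c, add_zero]
  zero_mem' := ⟨Submodule.zero_mem _, fun c => by simp⟩
  smul_mem' := by
    rintro r a ⟨ha1, ha2⟩
    refine ⟨Submodule.smul_mem _ _ ha1, fun c => ?_⟩
    simp only [Pi.smul_apply, map_smul]
    rw [ha2 c, smul_zero]

lemma mem_VR {f f' : ℕ → ℕ} {Y Z : Module.End K P} {n : ℕ → P} :
    n ∈ VR f f' Y Z ↔ n ∈ VS f' Y Z ∧ ∀ b, (Z ^ (f b - f' b)) (n b) = 0 := Iff.rfl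

variable [FiniteDimensional K P]

lemma VS_finite {f : ℕ → ℕ} {Y Z : Module.End K P} {w : ℕ} (hw : ∀ b, w ≤ b → f b = 0) :
    FiniteDimensional K (VS f Y Z) := by
  let g : VS f Y Z →ₗ[K] (Fin (w+1) → P) :=
    { toFun := fun n b => n.1 b
      map_add' := fun a b => rfl
      map_smul' := fun r a => rfl }
  refine FiniteDimensional.of_injective g ?_
  rw [← LinearMap.ker_eq_bot, LinearMap.ker_eq_bot']
  intro n hn
  have h1 : ∀ b, b ≤ w → n.1 b = 0 := by
    intro b hb
    exact congrFun hn ⟨b, by omega⟩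
  have h2 : ∀ b, n.1 b = 0 := by
    intro b
    induction b with
    | zero => exact h1 0 (by omega)
    | succ b ih =>
      rcases le_or_gt (b+1) w with h | h
      · exact h1 _ h
      · have h3 := n.2 b
        rw [ih, map_zero, hw b (by omega), hw (b+1) (by omega)] at h3
        simpa using h3.symm
  exact Subtype.ext (funext h2)

omit [FiniteDimensional K P] in
lemma VR_le {f f' : ℕ → ℕ} {Y Z : Module.End K P} : VR f f' Y Z ≤ VS f' Y Z := fun _ h => h.1

lemma VR_finite {f f' : ℕ → ℕ} {Y Z : Module.End K P} {w : ℕ} (hw : ∀ b, w ≤ b → f' b = 0) :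
    FiniteDimensional K (VR f f' Y Z) := by
  have := VS_finite (Y := Y) (Z := Z) hw
  exact Submodule.finiteDimensional_of_le VR_le

omit [FiniteDimensional K P] in
lemma pow_add_apply (Z : Module.End K P) (a b : ℕ) (x : P) :
    (Z ^ (a + b)) x = (Z ^ a) ((Z ^ b) x) := by
  rw [pow_add]; rfl

/-- The rank inequality for one more column. -/
lemma step (Y Z : Module.End K P) (hYZ : Commute Y Z) (e : P) (β γ h : ℕ)
    (hβγ : (Y ^ β) ((Z ^ γ) e) = 0)
    (hker : finrank K (LinearMap.ker Y) ≤ h)
    (hind : LinearIndependent K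
      (fun q : Fin h => (LinearMap.range Y).mkQ ((Z ^ (q : ℕ)) e)))
    (f : ℕ → ℕ) (hf : Antitone f) {w : ℕ} (hw : ∀ b, w ≤ b → f b = 0) :
    finrank K (VS f Y Z) + (f β - γ) ≤ finrank K (VS (fun b => f (b+1)) Y Z) + f 0 := by
  have hw' : ∀ b, w ≤ b → f (b+1) = 0 := fun b hb => hw _ (by omega)
  have := VS_finite (Y := Y) (Z := Z) hw
  have := VS_finite (Y := Y) (Z := Z) hw'
  have hcomm : ∀ a b (x : P), (Y ^ a) ((Z ^ b) x) = (Z ^ b) ((Y ^ a) x) := by
    intro a b x
    have := (hYZ.pow_pow a b).eq
    exact congrArg (fun g : Module.End K P => g x) this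
  have hYcomm : ∀ b (x : P), Y ((Z ^ b) x) = (Z ^ b) (Y x) := by
    intro b x
    have := hcomm 1 b x
    simpa using this
  -- the shift map
  let sh : VS f Y Z →ₗ[K] VS (fun b => f (b+1)) Y Z :=
    { toFun := fun n => ⟨fun b => n.1 (b+1), fun b => n.2 (b+1)⟩
      map_add' := fun a b => rfl
      map_smul' := fun r a => rfl }
  -- evaluation
  let ev : VS (fun b => f (b+1)) Y Z →ₗ[K] P ⧸ (LinearMap.range Y) :=
    { toFun := fun n => (LinearMap.range Y).mkQ ((Z ^ (f 0 - f 1)) (n.1 0))
      map_add' := fun a b => by simp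
      map_smul' := fun r a => by simp }
  have h1 : finrank K (LinearMap.range sh) + finrank K (LinearMap.ker sh) = finrank K (VS f Y Z) :=
    LinearMap.finrank_range_add_finrank_ker sh
  have h2 : finrank K (LinearMap.range ev) + finrank K (LinearMap.ker ev)
      = finrank K (VS (fun b => f (b+1)) Y Z) :=
    LinearMap.finrank_range_add_finrank_ker ev
  have h3 : finrank K (LinearMap.range sh) ≤ finrank K (LinearMap.ker ev) := by
    apply Submodule.finrank_mono
    rintro _ ⟨n, rfl⟩
    rw [LinearMap.mem_ker]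
    change (LinearMap.range Y).mkQ ((Z ^ (f 0 - f 1)) (n.1 1)) = 0
    rw [← n.2 0, Submodule.mkQ_apply, Submodule.Quotient.mk_eq_zero]
    exact ⟨n.1 0, rfl⟩
  have h4 : finrank K (LinearMap.ker sh) ≤ h := by
    refine le_trans ?_ hker
    have hz : ∀ n ∈ LinearMap.ker sh, ∀ b, n.1 (b+1) = 0 := by
      intro n hn b
      rw [LinearMap.mem_ker] at hn
      exact congrFun (congrArg Subtype.val hn) b
    let g : LinearMap.ker sh →ₗ[K] LinearMap.ker Y :=
      { toFun := fun n => ⟨n.1.1 0, by
          rw [LinearMap.mem_ker, n.1.2 0, hz n.1 n.2 0, map_zero]⟩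
        map_add' := fun a b => rfl
        map_smul' := fun r a => rfl }
    refine LinearMap.finrank_le_finrank_of_injective (f := g) ?_
    intro a b hab
    have h5 : a.1.1 0 = b.1.1 0 := congrArg Subtype.val hab
    apply Subtype.ext
    apply Subtype.ext
    funext c
    cases c with
    | zero => exact h5
    | succ c => rw [hz a.1 a.2 c, hz b.1 b.2 c]
  -- rank of ev
  have h5 : h ≤ finrank K (LinearMap.range ev) + (f 0 - (f β - γ)) := by
    set q0 := f 0 - (f β - γ) with hq0
    have hmem : ∀ q, q0 ≤ q → (LinearMap.range Y).mkQ ((Z ^ q) e) ∈ LinearMap.range ev := by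
      intro q hq
      rcases le_or_gt (f 0) q with hqf | hqf
      · -- multiplication map
        refine ⟨⟨fun b => (Z ^ (f (b+1) + (q - f 0))) ((Y ^ b) e), fun b => ?_⟩, ?_⟩
        · change Y ((Z ^ (f (b+1) + (q - f 0))) ((Y ^ b) e))
            = (Z ^ (f (b+1) - f (b+1+1))) ((Z ^ (f (b+1+1) + (q - f 0))) ((Y ^ (b+1)) e))
          have h6 : f (b+1+1) ≤ f (b+1) := hf (by omega)
          rw [hYcomm, ← pow_add_apply, pow_succ' Y b]
          rw [show f (b+1) - f (b+1+1) + (f (b+1+1) + (q - f 0)) = f (b+1) + (q - f 0) by omega]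
          rfl
        · change (LinearMap.range Y).mkQ ((Z ^ (f 0 - f 1)) ((Z ^ (f (0+1) + (q - f 0)))
            ((Y ^ 0) e))) = _
          have h6 : f 1 ≤ f 0 := hf (by omega)
          rw [← pow_add_apply, pow_zero, zero_add]
          rw [show f 0 - f 1 + (f 1 + (q - f 0)) = q by omega]
          rfl
      · -- truncated map
        rcases Nat.eq_zero_or_pos β with hβ | hβ
        · subst hβ
          have h6 : (Z ^ q) e = 0 := by
            have : q = (q - γ) + γ := by omega
            rw [this, pow_add_apply]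
            rw [pow_zero] at hβγ
            have h7 : (Z ^ γ) e = 0 := hβγ
            rw [h7, map_zero]
          rw [h6, map_zero]
          exact Submodule.zero_mem _
        · have hβ0 : f β ≤ f 0 := hf (by omega)
          refine ⟨⟨fun b => if b < β then (Z ^ (f (b+1) - (f 0 - q))) ((Y ^ b) e) else 0,
            fun b => ?_⟩, ?_⟩
          · change Y (if b < β then (Z ^ (f (b+1) - (f 0 - q))) ((Y ^ b) e) else 0)
              = (Z ^ (f (b+1) - f (b+1+1))) (if b + 1 < β then
                (Z ^ (f (b+1+1) - (f 0 - q))) ((Y ^ (b+1)) e) else 0)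
            rcases lt_trichotomy (b+1) β with hb | hb | hb
            · have hb' : b < β := by omega
              simp only [hb, hb', if_true]
              have h6 : f (b+1+1) ≤ f (b+1) := hf (by omega)
              have h7 : f β ≤ f (b+1+1) := hf (by omega)
              rw [hYcomm, ← pow_add_apply, pow_succ' Y b]
              rw [show f (b+1) - f (b+1+1) + (f (b+1+1) - (f 0 - q)) = f (b+1) - (f 0 - q)
                by omega]
              rfl
            · have hb' : b < β := by omega
              have hb2 : ¬ (b + 1 < β) := by omega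
              simp only [hb', hb2, if_true, if_false, map_zero]
              rw [hYcomm]
              have h6 : Y ((Y ^ b) e) = (Y ^ β) e := by
                rw [← hb, pow_succ' Y b]; rfl
              rw [h6, hb]
              have h7 : f β - (f 0 - q) = (f β - (f 0 - q) - γ) + γ := by omega
              rw [h7, pow_add_apply, ← hcomm, hβγ, map_zero]
            · have hb' : ¬ (b < β) := by omega
              have hb2 : ¬ (b + 1 < β) := by omega
              simp only [hb', hb2, if_false, map_zero]
          · change (LinearMap.range Y).mkQ ((Z ^ (f 0 - f 1)) (if 0 < β then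
              (Z ^ (f (0+1) - (f 0 - q))) ((Y ^ 0) e) else 0)) = _
            have h6 : f 1 ≤ f 0 := hf (by omega)
            have h7 : f β ≤ f 1 := hf (by omega)
            simp only [hβ, if_true]
            rw [← pow_add_apply, pow_zero, zero_add]
            rw [show f 0 - f 1 + (f 1 - (f 0 - q)) = q by omega]
            rfl
    rcases le_or_gt h q0 with hh | hh
    · omega
    · let fam : Fin (h - q0) → LinearMap.range ev := fun i =>
        ⟨(LinearMap.range Y).mkQ ((Z ^ (q0 + i.1)) e), hmem _ (by omega)⟩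
      have hfam : LinearIndependent K fam := by
        apply LinearIndependent.of_comp (LinearMap.range ev).subtype
        have : ((LinearMap.range ev).subtype ∘ fam)
            = (fun q : Fin h => (LinearMap.range Y).mkQ ((Z ^ (q : ℕ)) e)) ∘
              (fun i : Fin (h - q0) => (⟨q0 + i.1, by omega⟩ : Fin h)) := by
          funext i; rfl
        rw [this]
        refine hind.comp _ ?_
        intro i j hij
        have : q0 + i.1 = q0 + j.1 := congrArg Fin.val hij
        exact Fin.ext (by omega)
      have := hfam.fintype_card_le_finrank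
      rw [Fintype.card_fin] at this
      omega
  have hβ0 : f β ≤ f 0 := hf (by omega)
  omega

theorem L1 (Y Z : Module.End K P) (hYZ : Commute Y Z) (e : P) (β γ h : ℕ)
    (hβγ : (Y ^ β) ((Z ^ γ) e) = 0)
    (hker : finrank K (LinearMap.ker Y) ≤ h)
    (hind : LinearIndependent K
      (fun q : Fin h => (LinearMap.range Y).mkQ ((Z ^ (q : ℕ)) e)))
    (w : ℕ) (f : ℕ → ℕ) (hf : Antitone f) (hw : ∀ b, w ≤ b → f b = 0) :
    finrank K (VS f Y Z) + ∑ b ∈ Ico β w, (f b - γ) ≤ finrank K P + ∑ b ∈ range w, f b := by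
  induction w generalizing f with
  | zero =>
    simp only [range_zero, sum_empty, add_zero]
    have : Ico β 0 = ∅ := by ext; simp
    rw [this, sum_empty, add_zero]
    have := VS_finite (Y := Y) (Z := Z) hw
    let g : VS f Y Z →ₗ[K] P :=
      { toFun := fun n => n.1 0
        map_add' := fun a b => rfl
        map_smul' := fun r a => rfl }
    refine LinearMap.finrank_le_finrank_of_injective (f := g) ?_
    rw [← LinearMap.ker_eq_bot, LinearMap.ker_eq_bot']
    intro n hn
    have h2 : ∀ b, n.1 b = 0 := by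
      intro b
      induction b with
      | zero => exact hn
      | succ b ih =>
        have h3 := n.2 b
        rw [ih, map_zero, hw b (by omega), hw (b+1) (by omega)] at h3
        simpa using h3.symm
    exact Subtype.ext (funext h2)
  | succ w ih =>
    have h1 := step Y Z hYZ e β γ h hβγ hker hind f hf hw
    have h2 := ih (fun b => f (b+1)) (fun a b hab => hf (by omega)) (fun b hb => hw _ (by omega))
    have h3 : ∑ b ∈ Ico β (w+1), (f b - γ) = (f β - γ) + ∑ b ∈ Ico β w, (f (b+1) - γ) := by
      rcases le_or_gt β w with hβ | hβ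
      · rw [sum_eq_sum_Ico_succ_bot (by omega)]
        rw [← sum_Ico_add' (fun b => f b - γ) β w 1]
      · have e1 : Ico β (w+1) = ∅ := by ext; simp; omega
        have e2 : Ico β w = ∅ := by ext; simp; omega
        rw [e1, e2, hw β (by omega)]
        simp
    rw [h3, sum_range_succ']
    omega

theorem L2 (Y Z : Module.End K P) (hYZ : Commute Y Z) (f f' : ℕ → ℕ) (hf' : Antitone f')
    (hle : ∀ b, f' b ≤ f b) {w : ℕ} (hw : ∀ b, w ≤ b → f' b = 0) (β γ : ℕ) (hg : f β ≤ γ) :
    finrank K (VR f f' Y Z) + finrank K (LinearMap.range (Z ^ γ * Y ^ β))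
      ≤ finrank K (VS f' Y Z) := by
  have := VS_finite (Y := Y) (Z := Z) hw
  let ρ : VS f' Y Z →ₗ[K] P :=
    { toFun := fun n => (Z ^ (γ - f' β)) (n.1 β)
      map_add' := fun a b => by simp
      map_smul' := fun r a => by simp }
  have h1 := LinearMap.finrank_range_add_finrank_ker ρ
  have hβ := hle β
  have h2 : finrank K (VR f f' Y Z) ≤ finrank K (LinearMap.ker ρ) := by
    let g : VR f f' Y Z →ₗ[K] LinearMap.ker ρ :=
      { toFun := fun n => ⟨⟨n.1, n.2.1⟩, by
          rw [LinearMap.mem_ker]
          change (Z ^ (γ - f' β)) (n.1 β) = 0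
          rw [show γ - f' β = (γ - f β) + (f β - f' β) by omega, pow_add_apply, n.2.2 β, map_zero]⟩
        map_add' := fun a b => rfl
        map_smul' := fun r a => rfl }
    refine LinearMap.finrank_le_finrank_of_injective (f := g) ?_
    intro a b hab
    apply Subtype.ext
    exact congrArg (fun x => x.1.1) hab
  have h3 : finrank K (LinearMap.range (Z ^ γ * Y ^ β)) ≤ finrank K (LinearMap.range ρ) := by
    apply Submodule.finrank_mono
    rintro _ ⟨x, rfl⟩
    refine ⟨⟨fun b => (Z ^ (f' b)) ((Y ^ b) x), fun b => ?_⟩, ?_⟩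
    · change Y ((Z ^ (f' b)) ((Y ^ b) x)) = (Z ^ (f' b - f' (b+1))) ((Z ^ (f' (b+1)))
        ((Y ^ (b+1)) x))
      have h6 : f' (b+1) ≤ f' b := hf' (by omega)
      rw [← pow_add_apply, show f' b - f' (b+1) + f' (b+1) = f' b by omega]
      have := (hYZ.pow_right (f' b)).eq
      have h7 : Y ((Z ^ (f' b)) ((Y ^ b) x)) = (Z ^ (f' b)) (Y ((Y ^ b) x)) :=
        congrArg (fun g : Module.End K P => g ((Y ^ b) x)) this
      rw [h7, pow_succ' Y b]
      rfl
    · change (Z ^ (γ - f' β)) ((Z ^ (f' β)) ((Y ^ β) x)) = _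
      rw [← pow_add_apply, show γ - f' β + f' β = γ by omega]
      rfl
  omega

end Pool.Agent.Lib.MP_ff2328_ag
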