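import Pool.Agent.Lib.MP_ff2328_ag.HomMk

/-! The explicit ideals with large tangent space. -/

namespace Pool.Agent.Lib.MP_ff2328_ag

open Finset Module MvPolynomial

variable {K : Type*} [Field K]

/-- The slice exponents. -/
def bs (k s t i : ℕ) : ℕ :=
  if i < s then k + 1 - i else if i < k then k - i else if i < k + t then 1 else 0

/-- The slice exponents without tail. -/
def bk (k s i : ℕ) : ℕ := if i < s then k + 1 - i else k - i

lemma bs_anti {k s t : ℕ} (hs : s ≤ k) {i j : ℕ} (h : i ≤ j) : bs k s t j ≤ bs k s t i := by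
  unfold bs
  split_ifs <;> omega

/-- The ideal. -/
noncomputable def JJ (K : Type*) [Field K] (k s t : ℕ) : Ideal (MvPolynomial (Fin 3) K) :=
  Ideal.span ((fun u => monomial u (1:K)) '' {u : Fin 3 →₀ ℕ | bs k s t (u 0) ≤ u 1 + u 2})

lemma mem_JJ {k s t : ℕ} (hs : s ≤ k) (p : MvPolynomial (Fin 3) K) :
    p ∈ JJ K k s t ↔ ∀ u ∈ p.support, bs k s t (u 0) ≤ u 1 + u 2 := by
  rw [JJ, mem_ideal_span_monomial_image]
  constructor
  · intro h u hu
    obtain ⟨v, hv, hvu⟩ := h u hu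
    have h0 := hvu 0
    have h1 := hvu 1
    have h2 := hvu 2
    have h3 := bs_anti (t := t) hs h0
    have hv' : bs k s t (v 0) ≤ v 1 + v 2 := hv
    omega
  · intro h u hu
    exact ⟨u, h u hu, le_rfl⟩

lemma MI_JJ {k s t : ℕ} (hs : s ≤ k) (u : Fin 3 →₀ ℕ) :
    MI (JJ K k s t) u ↔ bs k s t (u 0) ≤ u 1 + u 2 := by
  unfold MI
  rw [mem_JJ hs]
  simp

lemma SI_JJ {k s t : ℕ} (hs : s ≤ k) : SI (JJ K k s t) (fun i b => bs k s t i - b) := by
  intro p
  rw [mem_JJ hs]
  constructor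
  · intro h i b c hc
    by_contra hne
    have hc' : c < bs k s t i - b := hc
    have h1 := h _ (MvPolynomial.mem_support_iff.2 hne)
    simp only [ex_zero, ex_one, ex_two] at h1
    omega
  · intro h u hu
    by_contra hcon
    have h2 : u 2 < bs k s t (u 0) - u 1 := by omega
    have h1 := h (u 0) (u 1) (u 2) h2
    rw [ex_self] at h1
    exact (MvPolynomial.mem_support_iff.1 hu) h1

lemma JJ_supp {k s t : ℕ} (hs : s ≤ k) :
    ∀ p ∈ JJ K k s t, ∀ u ∈ p.support, MI (JJ K k s t) u := by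
  intro p hp u hu
  rw [MI_JJ hs]
  exact (mem_JJ hs p).1 hp u hu

/-- generators to socle -/
noncomputable def muA (K : Type*) [Field K] (k s t : ℕ) (g w v : Fin 3 →₀ ℕ) :
    MvPolynomial (Fin 3) K ⧸ JJ K k s t := if v = g then cl _ w else 0

lemma muA_hom {k s t : ℕ} (g w : Fin 3 →₀ ℕ)
    (hg : ∀ v, v ≤ g → MI (JJ K k s t) v → v = g)
    (hw : ∀ u, u ≠ 0 → MI (JJ K k s t) (u + w)) :
    ∀ u v, MI (JJ K k s t) v → muA K k s t g w (u + v) = (monomial u (1:K)) • muA K k s t g w v := by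
  intro u v hv
  unfold muA
  by_cases hu : u = 0
  · subst hu
    rw [zero_add]
    split_ifs with h
    · rw [cl_smul, zero_add]
    · rw [smul_zero]
  · have h1 : ¬ (u + v = g) := by
      intro h
      have h2 := hg v (by rw [← h]; exact le_add_self) hv
      rw [h2] at h
      exact hu (by simpa using h)
    rw [if_neg h1]
    split_ifs with h
    · rw [cl_smul, cl_zero (hw u hu)]
    · rw [smul_zero]

/-- shifts -/
noncomputable def muB (K : Type*) [Field K] (k s t j a : ℕ) (v : Fin 3 →₀ ℕ) :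
    MvPolynomial (Fin 3) K ⧸ JJ K k s t :=
  if s ≤ v 0 then cl _ (ex (j + v 0 - s) (a + v 1) (s - j - 1 - a + v 2)) else 0

lemma muB_hom {k s t j a : ℕ} (hs : s ≤ k) (hj : j < s) :
    ∀ u v, MI (JJ K k s t) v → muB K k s t j a (u + v)
      = (monomial u (1:K)) • muB K k s t j a v := by
  intro u v hv
  rw [MI_JJ hs] at hv
  unfold muB
  simp only [Finsupp.add_apply]
  by_cases h1 : s ≤ v 0
  · rw [if_pos (by omega), if_pos h1, cl_smul]
    congr 1
    rw [← ex_self u, ex_add]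
    simp only [ex_zero, ex_one, ex_two]
    rw [ex_inj]
    omega
  · rw [if_neg h1, smul_zero]
    split_ifs with h2
    · apply cl_zero
      rw [MI_JJ hs]
      simp only [ex_zero, ex_one, ex_two]
      revert hv
      unfold bs
      split_ifs <;> omega
    · rfl

/-- tail maps -/
noncomputable def muC (K : Type*) [Field K] (k s t e1 e2 n c : ℕ) (v : Fin 3 →₀ ℕ) :
    MvPolynomial (Fin 3) K ⧸ JJ K k s t :=
  if v 1 = e1 ∧ v 2 = e2 ∧ n ≤ v 0 then cl _ (ex (c + v 0 - n) 0 0) else 0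

lemma muC_hom {k s t e1 e2 n c : ℕ} (hs : s < k)
    (he : (e1 = 0 ∧ e2 = 0 ∧ n = k + t) ∨ (e1 = 1 ∧ e2 = 0 ∧ n = k - 1) ∨
      (e1 = 0 ∧ e2 = 1 ∧ n = k - 1))
    (hc : k - 1 ≤ c) :
    ∀ u v, MI (JJ K k s t) v → muC K k s t e1 e2 n c (u + v)
      = (monomial u (1:K)) • muC K k s t e1 e2 n c v := by
  intro u v hv
  rw [MI_JJ hs.le] at hv
  unfold muC
  simp only [Finsupp.add_apply]
  by_cases h1 : v 1 = e1 ∧ v 2 = e2 ∧ n ≤ v 0
  · rw [if_pos h1, cl_smul]
    by_cases h2 : u 1 = 0 ∧ u 2 = 0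
    · rw [if_pos (by omega)]
      congr 1
      rw [← ex_self u, ex_add]
      simp only [ex_zero, ex_one, ex_two]
      rw [ex_inj]
      omega
    · rw [if_neg (by omega)]
      symm
      apply cl_zero
      rw [MI_JJ hs.le]
      simp only [Finsupp.add_apply, ex_zero, ex_one, ex_two]
      unfold bs
      split_ifs <;> omega
  · rw [if_neg h1, smul_zero]
    split_ifs with h2
    · apply cl_zero
      rw [MI_JJ hs.le]
      simp only [ex_zero, ex_one, ex_two]
      revert hv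
      unfold bs
      split_ifs <;> omega
    · rfl

/-- generator exponents -/
noncomputable def gv (k s t i b : ℕ) : Fin 3 →₀ ℕ :=
  ex (if i < k then i else i + t) b (bk k s i - b)

/-- socle exponents -/
noncomputable def wv (k s t i b : ℕ) : Fin 3 →₀ ℕ :=
  ex (if i + 1 < k then i else i + t) b (bk k s i - 1 - b)

lemma gv_MI {k s t i b : ℕ} (hst : s + t ≤ k) (hi : i ≤ k) (hb : b ≤ bk k s i) :
    MI (JJ K k s t) (gv k s t i b) := by
  rw [MI_JJ (by omega)]
  simp only [gv, ex_zero, ex_one, ex_two]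
  revert hb
  unfold bs bk
  split_ifs <;> omega

lemma gv_min {k s t i b : ℕ} (hst : s + t ≤ k) (hi : i ≤ k) (hb : b ≤ bk k s i) :
    ∀ v, v ≤ gv k s t i b → MI (JJ K k s t) v → v = gv k s t i b := by
  intro v hv hvI
  rw [MI_JJ (by omega)] at hvI
  rw [← ex_self v] at hv ⊢
  simp only [gv] at hv ⊢
  rw [ex_le] at hv
  rw [ex_inj]
  obtain ⟨h0, h1, h2⟩ := hv
  revert hb hvI h0 h1 h2
  unfold bs bk
  split_ifs <;> intros <;> omega

lemma wv_not {k s t i b : ℕ} (hst : s + t ≤ k) (hi : i < k) (hb : b < bk k s i) :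
    ¬ MI (JJ K k s t) (wv k s t i b) := by
  rw [MI_JJ (by omega)]
  simp only [wv, ex_zero, ex_one, ex_two]
  revert hb
  unfold bs bk
  split_ifs <;> omega

lemma wv_soc {k s t i b : ℕ} (hst : s + t ≤ k) (hi : i < k) (hb : b < bk k s i) :
    ∀ u, u ≠ 0 → MI (JJ K k s t) (u + wv k s t i b) := by
  intro u hu
  rw [MI_JJ (by omega)]
  simp only [wv, Finsupp.add_apply, ex_zero, ex_one, ex_two]
  have hu' : ¬ (u 0 = 0 ∧ u 1 = 0 ∧ u 2 = 0) := by
    rintro ⟨h0, h1, h2⟩
    apply hu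
    ext s
    fin_cases s <;> simpa
  revert hb
  unfold bs bk
  split_ifs <;> omega

/-- Index types. -/
abbrev GI (k s : ℕ) : Type := Σ i : Fin (k+1), Fin (bk k s i + 1)

abbrev WI (k s : ℕ) : Type := Σ i : Fin k, Fin (bk k s i)

abbrev BI (s : ℕ) : Type := Σ j : Fin s, Fin (s - j)

lemma sum_bk (k s : ℕ) (hs : s ≤ k) : ∑ i ∈ range k, bk k s i = (k+1).choose 2 + s := by
  have h1 : ∀ i ∈ range k, bk k s i = (k - i) + (if i < s then 1 else 0) := by
    intro i hi
    have := mem_range.1 hi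
    unfold bk
    split_ifs <;> omega
  rw [sum_congr rfl h1, sum_add_distrib, sum_tri k k le_rfl, ← card_filter]
  have : (range k).filter (fun i => i < s) = range s := by ext i; simp; omega
  rw [this, card_range]

lemma card_GI (k s : ℕ) (hs : s ≤ k) : Fintype.card (GI k s) = (k+1).choose 2 + s + k + 1 := by
  rw [Fintype.card_sigma]
  simp only [Fintype.card_fin]
  rw [Fin.sum_univ_eq_sum_range (fun i => bk k s i + 1) (k+1), sum_range_succ, sum_add_distrib,
    sum_bk k s hs]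
  have : bk k s k = 0 := by unfold bk; split_ifs <;> omega
  rw [this]
  simp

lemma card_WI (k s : ℕ) (hs : s ≤ k) : Fintype.card (WI k s) = (k+1).choose 2 + s := by
  rw [Fintype.card_sigma]
  simp only [Fintype.card_fin]
  rw [Fin.sum_univ_eq_sum_range (fun i => bk k s i) k, sum_bk k s hs]

lemma card_BI (s : ℕ) : Fintype.card (BI s) = (s+1).choose 2 := by
  rw [Fintype.card_sigma]
  simp only [Fintype.card_fin]
  rw [Fin.sum_univ_eq_sum_range (fun i => s - i) s, sum_tri s s le_rfl]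

lemma gv_inj {k s t i b i' b' : ℕ} (hi : i ≤ k) (hi' : i' ≤ k)
    (h : gv k s t i b = gv k s t i' b') : i = i' ∧ b = b' := by
  unfold gv at h
  rw [ex_inj] at h
  obtain ⟨h1, h2, _⟩ := h
  refine ⟨?_, h2⟩
  split_ifs at h1 <;> omega

lemma wv_inj {k s t i b i' b' : ℕ} (hi : i < k) (hi' : i' < k)
    (h : wv k s t i b = wv k s t i' b') : i = i' ∧ b = b' := by
  unfold wv at h
  rw [ex_inj] at h
  obtain ⟨h1, h2, _⟩ := h
  refine ⟨?_, h2⟩
  split_ifs at h1 <;> omega

/-- parameters of the tail maps -/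
def e1 (e : Fin 3) : ℕ := if e = 1 then 1 else 0
def e2 (e : Fin 3) : ℕ := if e = 2 then 1 else 0
def en (k t : ℕ) (e : Fin 3) : ℕ := if e = 0 then k + t else k - 1

lemma e_cases (k t : ℕ) (e : Fin 3) :
    (e = 0 ∧ e1 e = 0 ∧ e2 e = 0 ∧ en k t e = k + t) ∨
    (e = 1 ∧ e1 e = 1 ∧ e2 e = 0 ∧ en k t e = k - 1) ∨
    (e = 2 ∧ e1 e = 0 ∧ e2 e = 1 ∧ en k t e = k - 1) := by
  fin_cases e <;> simp [e1, e2, en]

/-- the generator for the tail maps -/
noncomputable def ge (k t : ℕ) (e : Fin 3) : Fin 3 →₀ ℕ := ex (en k t e) (e1 e) (e2 e)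

lemma ge_MI {k s t : ℕ} (hs : s < k) (e : Fin 3) : MI (JJ K k s t) (ge k t e) := by
  rw [MI_JJ hs.le]
  simp only [ge, ex_zero, ex_one, ex_two]
  rcases e_cases k t e with ⟨_, h1, h2, h3⟩ | ⟨_, h1, h2, h3⟩ | ⟨_, h1, h2, h3⟩ <;>
  · rw [h1, h2, h3]
    unfold bs
    split_ifs <;> omega

lemma gs_MI {k s t : ℕ} (hst : s + t ≤ k) : MI (JJ K k s t) (ex s 0 (k - s)) := by
  rw [MI_JJ (by omega)]
  simp only [ex_zero, ex_one, ex_two]
  unfold bs
  split_ifs <;> omega

lemma pB_not {k s t j a : ℕ} (hst : s + t ≤ k) (hj : j < s) (ha : a < s - j) :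
    ¬ MI (JJ K k s t) (ex j a (k - j - 1 - a)) := by
  rw [MI_JJ (by omega)]
  simp only [ex_zero, ex_one, ex_two]
  unfold bs
  split_ifs <;> omega

lemma pC_not {k s t c : ℕ} (hs : s < k) (hc : c < t) :
    ¬ MI (JJ K k s t) (ex (k - 1 + c) 0 0) := by
  rw [MI_JJ hs.le]
  simp only [ex_zero, ex_one, ex_two]
  unfold bs
  split_ifs <;> omega

/-- Socle elements are different from the special standard monomials. -/
lemma wv_ne_pB {k s t i b j a : ℕ} (hst : s + t ≤ k) (hi : i < k) (hb : b < bk k s i)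
    (hj : j < s) (ha : a < s - j) : wv k s t i b ≠ ex j a (k - j - 1 - a) := by
  unfold wv
  rw [Ne, ex_inj]
  rintro ⟨h1, h2, h3⟩
  revert hb h1 h3
  unfold bk
  split_ifs <;> intros <;> omega

lemma wv_ne_pC {k s t i b c : ℕ} (hs : s < k) (hi : i < k) (hb : b < bk k s i)
    (hc : c < t) : wv k s t i b ≠ ex (k - 1 + c) 0 0 := by
  unfold wv
  rw [Ne, ex_inj]
  rintro ⟨h1, h2, h3⟩
  revert hb h1 h3
  unfold bk
  split_ifs <;> intros <;> omega

end Pool.Agent.Lib.MP_ff2328_ag
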