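import Pool.Agent.Lib.MP_ff2328_ag.Deficit

/-! Final assembly of the counting inequality. -/

namespace Pool.Agent.Lib.MP_ff2328_ag

open Finset

lemma final_alg (k m s t σ τ L mu P eta S W1 z θ : ℚ)
    (hLs : L = (k+2)*(k+1)*k/6 + s*(k+1) + t - s*(s-1)/2)
    (hP : P = L + mu - (k+2)*(k+1)*k/6)
    (hS : (m+2)*(m+1)*m*(m-1)/24 + ((τ^3-τ)-(σ^3-σ))/6 + σ*(τ-σ) + W1 + eta*(σ*(σ+3))/2 ≤ S)
    (hW : (k-1-τ)*(P + τ*(τ+1)/2) ≤ 2*(W1 + (k-1-m)*P) + (k-1-τ)*σ)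
    (hτm : 0 ≤ m - τ) (hmu : 0 ≤ mu) (hσ : 0 ≤ σ) (hz : z ≤ θ + eta)
    (hab : 6*(s*(k-s)*(k+2) + 2*(k-1)*t) <
      6*(k*(k+1) + (2*s*(k+1) - s*(s-1) + 2*t) + 2*σ*(τ-σ) + z*σ*(σ+3))
        + 2*((τ^3-τ)-(σ^3-σ))
        + 3*(k-1-τ)*((2*s*(k+1) - s*(s-1) + 2*t) + τ*(τ+1) - 2*σ))
    (hgain : θ*σ*(σ+3) + (k-1-m)*mu ≤ 2*((k-1-m)*((k+2)*(k+1)*k/6)
      - ((k+1)*k*(k-1)*(k-2)/24 - (m+2)*(m+1)*m*(m-1)/24))) :
    (2*m+1)*L < (k*(k+1)/2 + s) * (k*(k+1)/2 + s + k + 1) + s*(s+1)/2 + 3*t + 2*S := by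
  have h1 : 0 ≤ (m - τ) * mu := mul_nonneg hτm hmu
  have h2 : z*(σ*(σ+3)) ≤ (θ+eta)*(σ*(σ+3)) := mul_le_mul_of_nonneg_right hz (by positivity)
  subst hP
  subst hLs
  linarith

lemma sum_choose3 (m : ℕ) : ∑ j ∈ range m, (j+2).choose 3 = (m+2).choose 4 := by
  induction m with
  | zero => rfl
  | succ m ih =>
    rw [sum_range_succ, ih, Nat.choose_succ_succ' (m+2) 3]
    ring

lemma cast_choose2 (n : ℕ) : (((n+1).choose 2 : ℕ) : ℚ) = n*(n+1)/2 := by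
  rw [Nat.cast_choose_two]; push_cast; ring

lemma cast_choose3 (n : ℕ) : (((n+2).choose 3 : ℕ) : ℚ) = (n+2)*(n+1)*n/6 := by
  induction n with
  | zero => simp [Nat.choose]
  | succ n ih =>
    rw [show n + 1 + 2 = (n+2) + 1 by ring, Nat.choose_succ_succ' (n+2) 2]
    push_cast
    rw [ih, show n + 2 = (n+1)+1 by ring, cast_choose2]
    push_cast; ring

lemma cast_choose4 (n : ℕ) : (((n+2).choose 4 : ℕ) : ℚ) = (n+2)*(n+1)*n*(n-1)/24 := by
  induction n with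
  | zero => simp [Nat.choose]
  | succ n ih =>
    rw [show n + 1 + 2 = (n+2) + 1 by ring, Nat.choose_succ_succ' (n+2) 3]
    push_cast
    rw [ih, cast_choose3]
    ring

lemma sum_mid (σ τ : ℕ) (h : σ ≤ τ) :
    ((∑ j ∈ Ico σ τ, ((j+1).choose 2 + σ) : ℕ) : ℚ)
      = (((τ:ℚ)^3-τ)-((σ:ℚ)^3-σ))/6 + σ*(τ-σ) := by
  induction τ, h using Nat.le_induction with
  | base => simp
  | succ n hn ih =>
    rw [sum_Ico_succ_top hn, Nat.cast_add, ih, Nat.cast_add, cast_choose2]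
    push_cast; ring

lemma sum_sigma (σ j : ℕ) (h : σ ≤ j) : σ * (σ + 3) ≤ 2 * ∑ i ∈ range σ, (j - i + 1) := by
  have h1 : ∑ i ∈ range σ, ((σ - i) + 1) ≤ ∑ i ∈ range σ, (j - i + 1) :=
    sum_le_sum fun i _ => by omega
  have h2 : ∑ i ∈ range σ, ((σ - i) + 1) = (σ+1).choose 2 + σ := by
    rw [sum_add_distrib, sum_tri σ σ le_rfl]; simp
  have h3 : 2 * (σ+1).choose 2 = σ * (σ + 1) := by
    have := cast_choose2 σ
    have h4 : ((2 * (σ+1).choose 2 : ℕ) : ℚ) = ((σ * (σ+1) : ℕ) : ℚ) := by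
      push_cast; rw [this]; ring
    exact_mod_cast h4
  nlinarith

lemma theta_alg (m a s t τ L mu Pn eta V z c : ℚ) (h0 : 0 ≤ m - (s+1+z)) (h1 : s + 1 + z ≤ τ)
    (ha : 1 ≤ a) (ht : s + t ≤ m + a) (hc : a * (a+1) = c + c)
    (hz : eta + c ≤ z) (heta : 0 ≤ eta) (hc0 : 0 ≤ c) (hz0 : 0 ≤ z)
    (c1 : L + mu = (m+a+2)*(m+a+1)*(m+a)/6 + Pn)
    (c2 : L + s*(s-1)/2 = (m+a+2)*(m+a+1)*(m+a)/6 + s*(m+a+1) + t)
    (c5 : 2*(s+1+z)*(m+a+1) + (τ-(s+1+z))*(τ-(s+1+z)+1) + (s+1+z)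
      ≤ 2*Pn + (s+1+z)*(s+1+z))
    (c6 : mu ≤ (m-(s+1+z))*eta + V)
    (cV : 6*V = a*(a+1)*(3*(m-(s+1+z))+a+2)) : False := by
  have hprod : 0 ≤ (z - eta - c) * ((m - (s+1+z)) + a) :=
    mul_nonneg (by linarith) (by linarith)
  have hca : 0 ≤ c * (a - 1) := mul_nonneg hc0 (by linarith)
  have hea : 0 ≤ eta * a := mul_nonneg heta (by linarith)
  have hzz : 0 ≤ z * z := mul_nonneg hz0 hz0
  have hd2 : 0 ≤ (τ - (s+1+z))*(τ - (s+1+z) + 1) := by
    have : 0 ≤ τ - (s+1+z) := by linarith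
    positivity
  rw [hc] at cV
  linarith

lemma aux_sq (a : ℕ) (ha1 : 1 ≤ a) : ((a:ℚ)-1) ≤ ((a:ℚ)-1)^2 := by
  rcases Nat.lt_or_ge 1 a with h | h
  · have : (2:ℚ) ≤ a := by exact_mod_cast h
    nlinarith
  · have : a = 1 := by omega
    rw [this]; norm_num

lemma final_nat (m a s t σ τ L mu Pn eta W1 S V T Mid : ℕ) (hστ : σ ≤ τ) (hτm : τ ≤ m)
    (ha1 : 1 ≤ a) (hτpos : 1 ≤ τ) (ht : s + t ≤ m + a)
    (hMid : (Mid : ℚ) = (((τ:ℚ)^3-τ)-((σ:ℚ)^3-σ))/6 + σ*(τ-σ))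
    (hl : L + s.choose 2 = (m+a+2).choose 3 + s*(m+a+1) + t)
    (htot : L + mu = (m+a+2).choose 3 + Pn)
    (hS1 : 2 * (m+2).choose 4 + 2 * Mid + 2 * W1 + eta * (σ * (σ+3)) ≤ 2 * S)
    (hW : (m + a - 1 - τ) * (Pn + (τ+1).choose 2) ≤ 2 * (W1 + (m + a - 1 - m) * Pn)
      + (m + a - 1 - τ) * σ)
    (hcnt : 2*σ*(m+a+1) + (τ-σ)*(τ-σ+1) + σ ≤ 2 * Pn + σ*σ)
    (hd1 : mu ≤ (m - σ) * eta + V) (hd2 : mu ≤ (m + a - m) * T + V)
    (hV : 6 * V = a * (a+1) * (3 * (m - σ) + a + 2))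
    (hT : 2 * T = (m - σ) * (m - σ + 1)) :
    (2*m+1) * L < ((m+a+1).choose 2 + s) * ((m+a+1).choose 2 + s + (m+a) + 1)
      + (s+1).choose 2 + 3*t + 2 * S := by
  -- casts
  have e1 : ((m + a - 1 - τ : ℕ) : ℚ) = m + a - 1 - τ := by
    rw [Nat.sub_sub, Nat.cast_sub (by omega)]; push_cast; ring
  have e2 : ((m + a - 1 - m : ℕ) : ℚ) = a - 1 := by
    rw [Nat.sub_sub, Nat.cast_sub (by omega)]; push_cast; ring
  have e3 : ((τ - σ : ℕ) : ℚ) = τ - σ := Nat.cast_sub hστ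
  have e4 : ((m - σ : ℕ) : ℚ) = m - σ := Nat.cast_sub (by omega)
  have e5 : ((m + a - m : ℕ) : ℚ) = a := by
    rw [Nat.add_sub_cancel_left]
  have c1 : (L : ℚ) + mu = (m+a+2)*(m+a+1)*(m+a)/6 + Pn := by
    have := congrArg (Nat.cast (R := ℚ)) htot
    push_cast [cast_choose3] at this
    linarith
  have c2 : (L : ℚ) + s*(s-1)/2 = (m+a+2)*(m+a+1)*(m+a)/6 + s*(m+a+1) + t := by
    have := congrArg (Nat.cast (R := ℚ)) hl
    rw [Nat.cast_add, Nat.cast_choose_two] at this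
    push_cast [cast_choose3] at this
    linarith
  have c3 : ((m:ℚ)+2)*(m+1)*m*(m-1)/24 + (((τ:ℚ)^3-τ)-((σ:ℚ)^3-σ))/6 + σ*(τ-σ) + W1
      + eta*(σ*(σ+3))/2 ≤ S := by
    have := (Nat.cast_le (α := ℚ)).2 hS1
    push_cast [cast_choose4, hMid] at this
    linarith
  have c4 : ((m:ℚ)+a-1-τ)*(Pn + τ*(τ+1)/2) ≤ 2*(W1 + (m+a-1-m)*Pn) + (m+a-1-τ)*σ := by
    have := (Nat.cast_le (α := ℚ)).2 hW
    push_cast [e1, e2, cast_choose2] at this
    linarith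
  have c5 : 2*(σ:ℚ)*(m+a+1) + (τ-σ)*(τ-σ+1) + σ ≤ 2*Pn + σ*σ := by
    have := (Nat.cast_le (α := ℚ)).2 hcnt
    push_cast [e3] at this
    linarith
  have cV : 6*(V:ℚ) = a*(a+1)*(3*(m-σ)+a+2) := by
    have := congrArg (Nat.cast (R := ℚ)) hV
    push_cast [e4] at this
    linarith
  have cT : 2*(T:ℚ) = (m-σ)*(m-σ+1) := by
    have := congrArg (Nat.cast (R := ℚ)) hT
    push_cast [e4] at this
    linarith
  have c6 : (mu:ℚ) ≤ (m-σ)*eta + V := by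
    have := (Nat.cast_le (α := ℚ)).2 hd1
    push_cast [e4] at this
    linarith
  have c7 : (mu:ℚ) ≤ a*T + V := by
    have := (Nat.cast_le (α := ℚ)).2 hd2
    push_cast [e5] at this
    linarith
  have hστq : (σ:ℚ) ≤ τ := by exact_mod_cast hστ
  have hτmq : (τ:ℚ) ≤ m := by exact_mod_cast hτm
  have haq : (1:ℚ) ≤ a := by exact_mod_cast ha1
  have htq : (s:ℚ) + t ≤ m + a := by exact_mod_cast ht
  have hsq : (0:ℚ) ≤ s := Nat.cast_nonneg _
  have htq0 : (0:ℚ) ≤ t := Nat.cast_nonneg _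
  have hmuq : (0:ℚ) ≤ mu := Nat.cast_nonneg _
  have hetaq : (0:ℚ) ≤ eta := Nat.cast_nonneg _
  have hσq : (0:ℚ) ≤ σ := Nat.cast_nonneg _
  have ha2 : ((a:ℚ)-1) ≤ ((a:ℚ)-1)^2 := aux_sq a ha1
  -- choice of z and θ
  obtain ⟨z, θ, hz0, hzθ, hθ⟩ : ∃ (z : ℤ) (θ : ℚ), ((z = 0 ∧ (σ:ℤ) ≤ s + 1) ∨
      (1 ≤ z ∧ (σ:ℤ) = s + 1 + z)) ∧ (z:ℚ) ≤ θ + eta ∧ θ ≤ ((a:ℚ)-1)*((a-1)+3)/2 := by
    have h0 : (0:ℚ) ≤ ((a:ℚ)-1)*((a-1)+3)/2 := by
      have : 0 ≤ ((a:ℚ)-1) := by linarith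
      positivity
    rcases le_or_gt σ (s+1) with h | h
    · exact ⟨0, 0, Or.inl ⟨rfl, by exact_mod_cast h⟩, by simp, h0⟩
    · obtain ⟨z, rfl⟩ : ∃ z, σ = s + 1 + z := ⟨σ - (s+1), by omega⟩
      rcases le_or_gt z eta with h1 | h1
      · refine ⟨z, 0, Or.inr ⟨by omega, by push_cast; ring⟩, ?_, h0⟩
        have : (z:ℚ) ≤ eta := by exact_mod_cast h1
        simpa using this
      · refine ⟨z, (z:ℚ) - eta, Or.inr ⟨by omega, by push_cast; ring⟩, ?_, ?_⟩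
        · push_cast; linarith
        · obtain ⟨c, hc⟩ := Nat.even_mul_succ_self a
          have hcq : (a:ℚ)*(a+1) = c + c := by exact_mod_cast hc
          have hlt : z < eta + c := by
            by_contra hcon
            have hcon' : (eta:ℚ) + c ≤ z := by
              have : eta + c ≤ z := by omega
              exact_mod_cast this
            push_cast at hστq c5 c6 cV
            exact theta_alg m a s t τ L mu Pn eta V z c (by linarith) hστq haq htq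
              hcq hcon' hetaq (Nat.cast_nonneg _) (Nat.cast_nonneg _) c1 c2 c5 c6 cV
          have : (z:ℚ) + 1 ≤ eta + c := by exact_mod_cast hlt
          linarith
  have c8 : (mu:ℚ) ≤ a*((m-σ)*(m-σ+1)/2) + V := by
    have : (T:ℚ) = (m-σ)*(m-σ+1)/2 := by linarith
    rwa [this] at c7
  have hgain := gain (σ:ℚ) ((m:ℚ) - σ) ((a:ℚ)-1) mu θ hσq (by linarith) (by linarith) ha2
    (by linarith) hθ
  have hab := ab ((m:ℤ) + a) s t τ σ z (by omega) (by omega) (by omega) (by omega) (by omega)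
    (by omega) hz0
  have habq := (Int.cast_lt (R := ℚ)).2 hab
  push_cast at habq
  have hfin := final_alg ((m:ℚ)+a) m s t σ τ L mu Pn eta S W1 z θ (by linarith) (by linarith)
    (by linarith) (by linarith) (by linarith) hmuq hσq hzθ (by linarith)
    (by
      have e : (m:ℚ) + a - 1 - m = a - 1 := by ring
      rw [e]
      refine hgain.trans (le_of_eq ?_)
      ring)
  have hgoal : (((2*m+1) * L : ℕ) : ℚ) < (((m+a+1).choose 2 + s) * ((m+a+1).choose 2 + s + (m+a) + 1)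
      + (s+1).choose 2 + 3*t + 2 * S : ℕ) := by
    push_cast [cast_choose2]
    linarith
  exact_mod_cast hgoal


theorem partC (k m s t w : ℕ) (f : ℕ → ℕ → ℕ) (hf : Stair f)
    (hm1 : 0 < m) (hmk : m < k) (hm0 : ∀ i, m ≤ i → ∀ b, f i b = 0) (hm : 0 < f (m-1) 0)
    (hw : ∀ i b, w ≤ b → f i b = 0) (hkw : k < w)
    (ht : s + t ≤ k)
    (hl : (∑ i ∈ range m, ∑ b ∈ range w, f i b) + s.choose 2 = (k+2).choose 3 + s*(k+1) + t) :
    ∃ β γ : ℕ → ℕ, (∀ j < m, f j (β j) ≤ γ j) ∧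
      (2*m+1) * (∑ i ∈ range m, ∑ b ∈ range w, f i b) <
        ((k+1).choose 2 + s) * ((k+1).choose 2 + s + k + 1) + (s+1).choose 2 + 3*t
         + 2 * ∑ j ∈ range m, kap f w j (β j) (γ j) := by
  classical
  obtain ⟨σ, τ, hστ, hτm, hσ1, hσ2, hτ1, hτ2⟩ := exists_breaks hf hmk (hm0 m le_rfl)
  have hpos : ∀ j < m, 0 < f j 0 := by
    intro j hj
    have := hf.low0 (i := j) (j := m - 1) (b := 0) (b' := 0) (by omega) (by omega)
    omega
  -- choose the corners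
  have hch : ∀ j, ∃ p : ℕ × ℕ, (j < m → f j p.1 ≤ p.2) ∧
      (j < m → (j+2).choose 3 + (if σ ≤ j ∧ j < τ then (j+1).choose 2 + σ else 0)
        + (if τ ≤ j then ∑ i ∈ range j, wt f k w i (k - j)
            + (∑ i ∈ range σ, (j - i + 1)) * (k - j - f j 0) else 0)
        ≤ kap f w j p.1 p.2) := by
    intro j
    by_cases hjm : j < m
    · rcases lt_or_ge j σ with h1 | h1
      · refine ⟨(0, f j 0), fun _ => le_rfl, fun _ => ?_⟩
        have h2 : ¬ (σ ≤ j ∧ j < τ) := by omega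
        have h3 : ¬ τ ≤ j := by omega
        simp only [h2, h3, if_false, add_zero]
        exact kap_low hf (hpos j hjm) (by omega)
      · rcases lt_or_ge j τ with h2 | h2
        · obtain ⟨β, γ, h3, h4⟩ := kap_mid hf (hτ1 j h2) hkw (by omega) (hσ2 j h1) hσ1 h1
          refine ⟨(β, γ), fun _ => h3, fun _ => ?_⟩
          have h5 : ¬ τ ≤ j := by omega
          simp only [h1, h2, h5, and_self, if_true, if_false, add_zero]
          exact h4
        · refine ⟨(0, f j 0), fun _ => le_rfl, fun _ => ?_⟩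
          have h3 : ¬ (σ ≤ j ∧ j < τ) := by omega
          simp only [h3, h2, if_false, if_true, add_zero]
          have := kap_high hf (hpos j hjm) (w := w) (by omega) (hτ2 j h2) hσ1 (by omega) (by omega)
          omega
    · exact ⟨(0,0), fun h => absurd h hjm, fun h => absurd h hjm⟩
  choose p hp1 hp2 using hch
  refine ⟨fun j => (p j).1, fun j => (p j).2, fun j hj => hp1 j hj, ?_⟩
  set S := ∑ j ∈ range m, kap f w j (p j).1 (p j).2 with hS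
  set L := ∑ i ∈ range m, ∑ b ∈ range w, f i b with hL
  set Pn := ∑ i ∈ range τ, wt f k w i 0 with hPn
  set mu := defi f k w with hmu
  set eta := ∑ j ∈ Ico τ m, (k - j - f j 0) with heta
  set W1 := ∑ j ∈ Ico τ m, ∑ i ∈ range τ, wt f k w i (k - j) with hW1
  have hτk : τ < k := by omega
  have htot : L + mu = (k+2).choose 3 + Pn := total hf hkw hmk hm0 hτm hτ2
  -- lower bound for S
  have hS1 : 2 * (m+2).choose 4 + 2 * ∑ j ∈ Ico σ τ, ((j+1).choose 2 + σ) + 2 * W1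
      + eta * (σ * (σ+3)) ≤ 2 * S := by
    have h1 : ∑ j ∈ range m, ((j+2).choose 3
        + (if σ ≤ j ∧ j < τ then (j+1).choose 2 + σ else 0)
        + (if τ ≤ j then ∑ i ∈ range j, wt f k w i (k - j)
            + (∑ i ∈ range σ, (j - i + 1)) * (k - j - f j 0) else 0)) ≤ S :=
      sum_le_sum fun j hj => hp2 j (mem_range.1 hj)
    rw [sum_add_distrib, sum_add_distrib, sum_choose3] at h1
    have h2 : ∑ j ∈ range m, (if σ ≤ j ∧ j < τ then (j+1).choose 2 + σ else 0)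
        = ∑ j ∈ Ico σ τ, ((j+1).choose 2 + σ) := by
      rw [← sum_filter]
      congr 1
      ext j; simp; omega
    have h3 : ∑ j ∈ range m, (if τ ≤ j then ∑ i ∈ range j, wt f k w i (k - j)
            + (∑ i ∈ range σ, (j - i + 1)) * (k - j - f j 0) else 0)
        = ∑ j ∈ Ico τ m, (∑ i ∈ range j, wt f k w i (k - j)
            + (∑ i ∈ range σ, (j - i + 1)) * (k - j - f j 0)) := by
      rw [← sum_filter]
      congr 1
      ext j; simp; omega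
    rw [h2, h3, sum_add_distrib (s := Ico τ m)] at h1
    have h4 : W1 ≤ ∑ j ∈ Ico τ m, ∑ i ∈ range j, wt f k w i (k - j) := by
      refine sum_le_sum fun j hj => ?_
      exact sum_le_sum_of_subset (range_subset_range.2 (mem_Ico.1 hj).1)
    have h5 : eta * (σ * (σ+3))
        ≤ 2 * ∑ j ∈ Ico τ m, (∑ i ∈ range σ, (j - i + 1)) * (k - j - f j 0) := by
      rw [heta, sum_mul, mul_sum]
      refine sum_le_sum fun j hj => ?_
      have := sum_sigma σ j (by have := (mem_Ico.1 hj).1; omega)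
      calc (k - j - f j 0) * (σ * (σ+3))
          ≤ (k - j - f j 0) * (2 * ∑ i ∈ range σ, (j - i + 1)) := Nat.mul_le_mul_left _ this
        _ = _ := by ring
    omega
  -- averaging
  have hW : (k - 1 - τ) * (Pn + (τ+1).choose 2) ≤ 2 * (W1 + (k - 1 - m) * Pn)
      + (k - 1 - τ) * σ := by
    have h1 := wt_avg hf hw hτk hτ1 hσ2
    have h2 : ∑ j ∈ Ico τ (k-1), ∑ i ∈ range τ, wt f k w i (k - j) ≤ W1 + (k-1-m) * Pn := by
      rw [← sum_Ico_consecutive _ hτm (by omega : m ≤ k - 1)]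
      refine Nat.add_le_add_left ?_ _
      calc ∑ j ∈ Ico m (k-1), ∑ i ∈ range τ, wt f k w i (k - j)
          ≤ ∑ j ∈ Ico m (k-1), Pn := by
            refine sum_le_sum fun j _ => sum_le_sum fun i _ => sum_le_sum fun b _ => ?_
            omega
        _ = (k-1-m) * Pn := by rw [sum_const, Nat.card_Ico, smul_eq_mul]
    calc _ ≤ _ := h1
      _ ≤ _ := by omega
  have hcnt := count_high hf hkw hτk hστ hσ1 hτ1
  obtain ⟨hd1, hd2⟩ := defi_split hf hkw hmk hστ hτm hσ1 hτ1 (fun _ => hm)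
  obtain ⟨a, rfl⟩ : ∃ a, k = m + a := ⟨k - m, by omega⟩
  have ha1 : 1 ≤ a := by omega
  have hV := sum_Va m σ a (by omega)
  have hT := sum_Ico_tri m σ (by omega)
  set V := ∑ D ∈ Ico m (m+a), (D + 1 - σ) * (m + a - D) with hVdef
  set T := ∑ D ∈ Ico σ m, (D + 1 - σ) with hTdef
  have hmupos : 1 ≤ mu := by
    have h1 : (∑ b ∈ range w, ((m + a - m - b) - f m b)) ≤ mu :=
      single_le_sum (f := fun i => ∑ b ∈ range w, ((m + a - i - b) - f i b))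
        (fun _ _ => Nat.zero_le _) (mem_range.2 (by omega))
    have h2 : (m + a - m - 0) - f m 0 ≤ ∑ b ∈ range w, ((m + a - m - b) - f m b) :=
      single_le_sum (f := fun b => ((m + a - m - b) - f m b))
        (fun _ _ => Nat.zero_le _) (mem_range.2 (by omega))
    rw [hm0 m le_rfl 0] at h2
    omega
  have hs2 : s.choose 2 ≤ s * (m + a + 1) := by
    rw [Nat.choose_two_right]
    calc s * (s-1) / 2 ≤ s * (s-1) := Nat.div_le_self _ _
      _ ≤ s * (m+a+1) := Nat.mul_le_mul_left _ (by omega)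
  have hτpos : 1 ≤ τ := by
    by_contra hcon
    have h0 : τ = 0 := by omega
    have : Pn = 0 := by rw [hPn, h0]; simp
    omega
  rw [← hPn] at hcnt
  rw [← hmu] at hd1 hd2
  rw [← heta] at hd1
  clear_value S L Pn mu eta W1 V T
  exact final_nat m a s t σ τ L mu Pn eta W1 S V T _ hστ hτm ha1 hτpos ht
    (sum_mid σ τ hστ) hl htot hS1 hW hcnt hd1 hd2 hV hT

end Pool.Agent.Lib.MP_ff2328_ag
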