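import Pool.Agent.Lib.MP_ff2328_ag.PartB
import Pool.Agent.Lib.MP_ff2328_ag.PartC

/-! The smallest pure exponent at maximally singular points. -/

namespace Pool.Agent.Lib.MP_ff2328_ag

open Finset Module MvPolynomial

variable {K : Type*} [Field K]

lemma colength_JJ (k s t : ℕ) (hst : s + t ≤ k) :
    Module.Finite K (MvPolynomial (Fin 3) K ⧸ JJ K k s t) ∧
      finrank K (MvPolynomial (Fin 3) K ⧸ JJ K k s t) + s.choose 2
        = (k+2).choose 3 + s*(k+1) + t := by
  have hs : s ≤ k := by omega
  have h1 := finrank_SI (K := K) (m := k + t) (w := k + 1) (SI_JJ (t := t) hs) (by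
      intro i hi b
      unfold bs
      split_ifs <;> omega) (by
      intro i b hb
      unfold bs
      split_ifs <;> omega)
  refine ⟨h1.1, ?_⟩
  rw [h1.2, ← sum_range_add_sum_Ico _ (by omega : k ≤ k + t)]
  have h2 : ∑ i ∈ Ico k (k+t), ∑ b ∈ range (k+1), (bs k s t i - b) = t := by
    have h3 : ∀ i ∈ Ico k (k+t), ∑ b ∈ range (k+1), (bs k s t i - b) = 1 := by
      intro i hi
      have hi' := mem_Ico.1 hi
      have h4 : bs k s t i = 1 := by
        unfold bs
        split_ifs <;> omega
      rw [h4, sum_tri 1 (k+1) (by omega)]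
      rfl
    rw [sum_congr rfl h3, sum_const, Nat.card_Ico, smul_eq_mul]
    omega
  have h3 : ∑ i ∈ range k, ∑ b ∈ range (k+1), (bs k s t i - b)
      = (k+2).choose 3 + ∑ i ∈ range s, (k - i + 1) := by
    rw [← sum_tetra k (k+1) (by omega)]
    have h4 : ∑ i ∈ range s, (k - i + 1)
        = ∑ i ∈ range k, ∑ b ∈ range (k+1), (if i < s ∧ b ≤ k - i then 1 else 0) := by
      have h5 : ∀ i ∈ range s, (k - i + 1)
          = ∑ b ∈ range (k+1), (if i < s ∧ b ≤ k - i then 1 else 0) := by
        intro i hi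
        have hi' := mem_range.1 hi
        simp only [hi', true_and]
        rw [← card_filter]
        have : (range (k+1)).filter (fun b => b ≤ k - i) = range (k - i + 1) := by
          ext b; simp; omega
        rw [this, card_range]
      rw [sum_congr rfl h5]
      refine sum_subset (range_subset_range.2 hs) ?_
      intro i _ hi
      have : ¬ i < s := fun h => hi (mem_range.2 h)
      simp [this]
    rw [h4, ← sum_add_distrib]
    refine sum_congr rfl fun i hi => ?_
    rw [← sum_add_distrib]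
    refine sum_congr rfl fun b _ => ?_
    have hi' := mem_range.1 hi
    unfold bs
    split_ifs <;> omega
  have h4 : ∀ n, n ≤ k → ∑ i ∈ range n, (k - i + 1) + n.choose 2 = n * (k+1) := by
    intro n
    induction n with
    | zero => simp
    | succ n ih =>
      intro hn
      have hc : (n+1).choose 2 = n + n.choose 2 := by
        rw [Nat.choose_succ_succ' n 1, Nat.choose_one_right]
      rw [sum_range_succ, hc]
      have := ih (by omega)
      have e : (n + 1) * (k + 1) = n * (k+1) + (k + 1) := by ring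
      omega
  have := h4 s hs
  rw [h2, h3]
  omega

lemma exists_st (k Δ : ℕ) (h : Δ < (k+2).choose 2) :
    ∃ s t, s + t ≤ k ∧ Δ + s.choose 2 = s * (k+1) + t := by
  classical
  have hk2 : (k+2).choose 2 = (k+1).choose 2 + (k+1) := by
    rw [Nat.choose_succ_succ' (k+1) 1, Nat.choose_one_right]; ring
  have hk1 : 2 * (k+1).choose 2 = k * (k+1) := by
    have h4 : ((2 * (k+1).choose 2 : ℕ) : ℚ) = ((k * (k+1) : ℕ) : ℚ) := by
      push_cast; rw [cast_choose2 k]; ring
    exact_mod_cast h4
  have hex : ∃ s, ¬ (s * (k+1) ≤ Δ + s.choose 2) := by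
    refine ⟨k+1, ?_⟩
    intro hcon
    have : (k+1)*(k+1) = k*(k+1) + (k+1) := by ring
    omega
  have hspec := Nat.find_spec hex
  have hmin := fun n => Nat.find_min hex (m := n)
  have hle : Nat.find hex ≤ k + 1 := Nat.find_min' hex (by
    intro hcon
    have : (k+1)*(k+1) = k*(k+1) + (k+1) := by ring
    omega)
  set n := Nat.find hex with hn
  have hn0 : n ≠ 0 := by
    intro h0
    rw [h0] at hspec
    simp at hspec
  obtain ⟨s, hs⟩ : ∃ s, n = s + 1 := ⟨n - 1, by omega⟩
  have h1 := hmin s (by omega)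
  rw [hs] at hspec
  push Not at h1 hspec
  have h2 : (s+1).choose 2 = s + s.choose 2 := by
    rw [Nat.choose_succ_succ' s 1, Nat.choose_one_right]
  have h3 : (s + 1) * (k + 1) = s * (k+1) + (k + 1) := by ring
  exact ⟨s, Δ + s.choose 2 - s * (k+1), by omega, by omega⟩

theorem main (k l : ℕ) (h1 : (k+2).choose 3 ≤ l) (h2 : l < (k+3).choose 3)
    (I : Ideal (MvPolynomial (Fin 3) K))
    (hmon : ∃ S : Set (Fin 3 →₀ ℕ), I = Ideal.span ((fun u => monomial u (1:K)) '' S))
    (hb : ∀ u, MI I u → (∀ v, v ≤ u → MI I v → v = u) →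
      (u 2 ≠ 0 → MI I (u - Finsupp.single 2 1 + Finsupp.single 0 1) ∧
        MI I (u - Finsupp.single 2 1 + Finsupp.single 1 1)) ∧
      (u 1 ≠ 0 → MI I (u - Finsupp.single 1 1 + Finsupp.single 0 1)))
    (hfin : Module.Finite K (MvPolynomial (Fin 3) K ⧸ I))
    (hcol : finrank K (MvPolynomial (Fin 3) K ⧸ I) = l)
    (hmax : ∀ J : Ideal (MvPolynomial (Fin 3) K), Module.Finite K (MvPolynomial (Fin 3) K ⧸ J) →
      finrank K (MvPolynomial (Fin 3) K ⧸ J) = l → finrank K (HomI J) ≤ finrank K (HomI I)) :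
    IsLeast {n : ℕ | (X 0 : MvPolynomial (Fin 3) K) ^ n ∈ I} k := by
  classical
  obtain ⟨f, hI, hf⟩ := exists_stair hmon hfin hb
  have hX : ∀ n : ℕ, (X 0 : MvPolynomial (Fin 3) K) ^ n ∈ I ↔ f n 0 = 0 := by
    intro n
    have e : (X 0 : MvPolynomial (Fin 3) K) ^ n = monomial (ex n 0 0) 1 := by
      rw [X_pow_eq_monomial]
      congr 1
      simp [ex]
    rw [e, hI.mono]
    omega
  -- vanishing
  have hz : ∀ i b, f 0 0 ≤ i + b → f i b = 0 := by
    intro i b hib
    by_contra hne
    have h3 := hf.low (i := 0) (j := i) (b := b) (b' := 0) (by omega) (by omega) (by omega)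
    omega
  have hex : ∃ n, f n 0 = 0 := ⟨f 0 0, hz _ _ (by omega)⟩
  set m := Nat.find hex with hm
  have hm0 : f m 0 = 0 := Nat.find_spec hex
  have hmin : ∀ n < m, f n 0 ≠ 0 := fun n hn => Nat.find_min hex hn
  have hmz : ∀ i, m ≤ i → ∀ b, f i b = 0 := by
    intro i hi b
    have h3 := hf.anti' i (Nat.zero_le b)
    have h4 := hf.low0 (i := m) (j := i) (b := 0) (b' := 0) hi (by omega)
    omega
  have hleast : IsLeast {n : ℕ | (X 0 : MvPolynomial (Fin 3) K) ^ n ∈ I} m := by
    refine ⟨(hX m).2 hm0, fun n hn => ?_⟩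
    by_contra hcon
    exact hmin n (by omega) ((hX n).1 hn)
  suffices hmk : m = k by rwa [hmk] at hleast
  set w := k + 1 + f 0 0 with hw
  have hwz : ∀ i b, w ≤ b → f i b = 0 := fun i b hb' => hz i b (by omega)
  have hL := (finrank_SI hI hmz hwz).2
  rw [hcol] at hL
  -- m ≤ k
  have hle : m ≤ k := by
    by_contra hcon
    have hk0 : f k 0 ≠ 0 := hmin k (by omega)
    have h3 : (k+3).choose 3 ≤ l := by
      rw [hL]
      calc (k+3).choose 3 = ∑ i ∈ range (k+1), ∑ b ∈ range w, (k + 1 - i - b) :=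
            (sum_tetra (k+1) w (by omega)).symm
        _ ≤ ∑ i ∈ range (k+1), ∑ b ∈ range w, f i b := by
            refine sum_le_sum fun i hi => sum_le_sum fun b _ => ?_
            have hi' := mem_range.1 hi
            rcases le_or_gt b (k - i) with hbk | hbk
            · have := hf.low (i := i) (j := k) (b := 0) (b' := b) (by omega) (by omega) (by omega)
              omega
            · omega
        _ ≤ ∑ i ∈ range m, ∑ b ∈ range w, f i b :=
            sum_le_sum_of_subset (range_subset_range.2 (by omega))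
    omega
  by_contra hne
  have hlt : m < k := by omega
  have hmpos : 0 < m := by
    rcases Nat.eq_zero_or_pos m with h0 | h0
    · exfalso
      rw [h0] at hL
      simp only [range_zero, sum_empty] at hL
      have : 0 < (k+2).choose 3 := Nat.choose_pos (by omega)
      omega
    · exact h0
  obtain ⟨s, t, hst, hΔ⟩ := exists_st k (l - (k+2).choose 3) (by
    have : (k+3).choose 3 = (k+2).choose 2 + (k+2).choose 3 := Nat.choose_succ_succ' (k+2) 2
    omega)
  have hl' : (∑ i ∈ range m, ∑ b ∈ range w, f i b) + s.choose 2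
      = (k+2).choose 3 + s*(k+1) + t := by
    rw [← hL]; omega
  obtain ⟨β, γ, hβγ, hC⟩ := partC k m s t w f hf hmpos hlt hmz
    (Nat.pos_of_ne_zero (hmin (m-1) (by omega))) hwz (by omega) hst hl'
  have hA := partA (K := K) hI hf.anti' (fun i b => (hf.hx i b).trans (hf.anti i b)) hmz hwz
    β γ hβγ
  have hB := lower (K := K) k s t hst
  obtain ⟨hJ1, hJ2⟩ := colength_JJ (K := K) k s t hst
  have hM := hmax (JJ K k s t) hJ1 (by omega)
  omega

end Pool.Agent.Lib.MP_ff2328_ag
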