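import Pool.Agent.Lib.MP_ff2328_ag.PartA

/-! From Borel-fixed monomial ideals of finite colength to staircases. -/

namespace Pool.Agent.Lib.MP_ff2328_ag

open Finset Module MvPolynomial

variable {K : Type*} [Field K]

/-- membership of a monomial -/
def MI (I : Ideal (MvPolynomial (Fin 3) K)) (u : Fin 3 →₀ ℕ) : Prop := monomial u (1 : K) ∈ I

lemma MI_mono {I : Ideal (MvPolynomial (Fin 3) K)} {u v : Fin 3 →₀ ℕ} (h : MI I u) (huv : u ≤ v) :
    MI I v := by
  have : monomial v (1 : K) = monomial (v - u) 1 * monomial u 1 := by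
    rw [monomial_mul, one_mul, tsub_add_cancel_of_le huv]
  unfold MI
  rw [this]
  exact I.mul_mem_left _ h

lemma mem_iff_support {I : Ideal (MvPolynomial (Fin 3) K)}
    (hmon : ∃ S : Set (Fin 3 →₀ ℕ), I = Ideal.span ((fun u => monomial u (1:K)) '' S))
    (p : MvPolynomial (Fin 3) K) : p ∈ I ↔ ∀ u ∈ p.support, MI I u := by
  obtain ⟨S, hS⟩ := hmon
  have hmem : ∀ u, MI I u ↔ ∃ s ∈ S, s ≤ u := by
    intro u
    unfold MI
    rw [hS, mem_ideal_span_monomial_image]
    simp
  have hp : p ∈ I ↔ ∀ xi ∈ p.support, ∃ si ∈ S, si ≤ xi := by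
    rw [hS]; exact mem_ideal_span_monomial_image
  rw [hp]
  constructor
  · intro h u hu
    exact (hmem u).2 (h u hu)
  · intro h u hu
    exact (hmem u).1 (h u hu)

lemma exists_min {I : Ideal (MvPolynomial (Fin 3) K)} {u : Fin 3 →₀ ℕ} (h : MI I u) :
    ∃ g, g ≤ u ∧ MI I g ∧ ∀ v, v ≤ g → MI I v → v = g := by
  have hne : {v | v ≤ u ∧ MI I v}.Nonempty := ⟨u, le_rfl, h⟩
  obtain ⟨g, hg, hmin⟩ := (wellFounded_lt (α := Fin 3 →₀ ℕ)).has_min _ hne
  refine ⟨g, hg.1, hg.2, fun v hv hvI => ?_⟩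
  by_contra hne'
  exact hmin v ⟨hv.trans hg.1, hvI⟩ (lt_of_le_of_ne hv hne')

lemma ex_le {i b c i' b' c' : ℕ} : ex i b c ≤ ex i' b' c' ↔ i ≤ i' ∧ b ≤ b' ∧ c ≤ c' := by
  constructor
  · intro h
    have h0 := h 0
    have h1 := h 1
    have h2 := h 2
    simp at h0 h1 h2
    exact ⟨h0, h1, h2⟩
  · rintro ⟨h0, h1, h2⟩ s
    fin_cases s <;> simpa

/-- The Borel moves for all monomials of the ideal. -/
lemma borel_all {I : Ideal (MvPolynomial (Fin 3) K)}
    (hb : ∀ u, MI I u → (∀ v, v ≤ u → MI I v → v = u) →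
      (u 2 ≠ 0 → MI I (u - Finsupp.single 2 1 + Finsupp.single 0 1) ∧
        MI I (u - Finsupp.single 2 1 + Finsupp.single 1 1)) ∧
      (u 1 ≠ 0 → MI I (u - Finsupp.single 1 1 + Finsupp.single 0 1))) (i b c : ℕ) :
    (MI I (ex i b (c+1)) → MI I (ex i (b+1) c)) ∧ (MI I (ex i (b+1) c) → MI I (ex (i+1) b c)) := by
  have e0 : (Finsupp.single 0 1 : Fin 3 →₀ ℕ) = ex 1 0 0 := by simp [ex]
  have e1 : (Finsupp.single 1 1 : Fin 3 →₀ ℕ) = ex 0 1 0 := by simp [ex]
  have e2 : (Finsupp.single 2 1 : Fin 3 →₀ ℕ) = ex 0 0 1 := by simp [ex]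
  constructor
  · intro h
    obtain ⟨g, hgu, hgI, hmin⟩ := exists_min h
    rw [← ex_self g, ex_le] at hgu
    rcases Nat.lt_or_ge (g 2) (c+1) with h2 | h2
    · apply MI_mono hgI
      rw [← ex_self g, ex_le]
      omega
    · have h3 := ((hb g hgI hmin).1 (by omega)).2
      apply MI_mono h3
      rw [← ex_self g, e1, e2, ex_sub, ex_add, ex_le]
      omega
  · intro h
    obtain ⟨g, hgu, hgI, hmin⟩ := exists_min h
    rw [← ex_self g, ex_le] at hgu
    rcases Nat.lt_or_ge (g 1) (b+1) with h2 | h2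
    · apply MI_mono hgI
      rw [← ex_self g, ex_le]
      omega
    · have h3 := (hb g hgI hmin).2 (by omega)
      apply MI_mono h3
      rw [← ex_self g, e1, e0, ex_sub, ex_add, ex_le]
      omega

/-- In a monomial ideal of finite colength some power of `z` occurs. -/
lemma exists_z_pow {I : Ideal (MvPolynomial (Fin 3) K)}
    (hmon : ∃ S : Set (Fin 3 →₀ ℕ), I = Ideal.span ((fun u => monomial u (1:K)) '' S))
    (hfin : Module.Finite K (MvPolynomial (Fin 3) K ⧸ I)) : ∃ n, MI I (ex 0 0 n) := by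
  by_contra hcon
  push Not at hcon
  have hli : LinearIndependent K (fun n : ℕ => Ideal.Quotient.mk I (monomial (ex 0 0 n) (1:K))) := by
    rw [linearIndependent_iff']
    intro s g hg n hn
    have h1 : Ideal.Quotient.mk I (∑ i ∈ s, monomial (ex 0 0 i) (g i)) = 0 := by
      rw [map_sum, ← hg]
      refine sum_congr rfl fun i _ => ?_
      change _ = Ideal.Quotient.mk I (g i • monomial (ex 0 0 i) (1:K))
      rw [smul_monomial, smul_eq_mul, mul_one]
    rw [Ideal.Quotient.eq_zero_iff_mem, mem_iff_support hmon] at h1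
    by_contra hgn
    apply hcon n
    apply h1
    rw [MvPolynomial.mem_support_iff, coeff_sum]
    have h2 : ∀ i ∈ s, coeff (ex 0 0 n) (monomial (ex 0 0 i) (g i)) = if i = n then g i else 0 := by
      intro i _
      rw [coeff_monomial]
      by_cases hin : i = n
      · rw [if_pos hin, if_pos (by rw [hin])]
      · rw [if_neg hin, if_neg]
        rw [ex_inj]; omega
    rw [sum_congr rfl h2, sum_ite_eq' s n g, if_pos hn]
    exact hgn
  have := hli.finite
  exact not_finite ℕ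

/-- The staircase of a Borel-fixed ideal of finite colength. -/
lemma exists_stair {I : Ideal (MvPolynomial (Fin 3) K)}
    (hmon : ∃ S : Set (Fin 3 →₀ ℕ), I = Ideal.span ((fun u => monomial u (1:K)) '' S))
    (hfin : Module.Finite K (MvPolynomial (Fin 3) K ⧸ I))
    (hb : ∀ u, MI I u → (∀ v, v ≤ u → MI I v → v = u) →
      (u 2 ≠ 0 → MI I (u - Finsupp.single 2 1 + Finsupp.single 0 1) ∧
        MI I (u - Finsupp.single 2 1 + Finsupp.single 1 1)) ∧
      (u 1 ≠ 0 → MI I (u - Finsupp.single 1 1 + Finsupp.single 0 1))) :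
    ∃ f : ℕ → ℕ → ℕ, SI I f ∧ Stair f := by
  classical
  obtain ⟨n, hn⟩ := exists_z_pow hmon hfin
  have hex : ∀ i b, ∃ c, MI I (ex i b c) := by
    intro i b
    exact ⟨n, MI_mono hn (by rw [ex_le]; omega)⟩
  refine ⟨fun i b => Nat.find (hex i b), ?_, ?_⟩
  · intro p
    rw [mem_iff_support hmon]
    constructor
    · intro h i b c hc
      by_contra hne
      have h1 := h _ (MvPolynomial.mem_support_iff.2 hne)
      exact Nat.find_min (hex i b) hc h1
    · intro h u hu
      by_contra hne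
      rw [MvPolynomial.mem_support_iff] at hu
      apply hu
      rw [← ex_self u]
      apply h
      by_contra hcon
      have h2 := Nat.find_spec (hex (u 0) (u 1))
      have h3 : Nat.find (hex (u 0) (u 1)) ≤ u 2 := not_lt.1 hcon
      apply hne
      rw [← ex_self u]
      exact MI_mono h2 (by rw [ex_le]; omega)
  · constructor
    · intro i b hpos
      by_contra hcon
      have h1 := Nat.find_spec (hex i b)
      have h2 : MI I (ex i b (Nat.find (hex i (b+1)) - 1 + 1)) :=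
        MI_mono h1 (by rw [ex_le]; omega)
      have h3 := (borel_all hb i b _).1 h2
      exact Nat.find_min (hex i (b+1)) (by omega) h3
    · intro i b
      exact Nat.find_min' _ ((borel_all hb i b _).2 (Nat.find_spec (hex i (b+1))))

/-- Colength in terms of the staircase. -/
lemma finrank_SI {I : Ideal (MvPolynomial (Fin 3) K)} {f : ℕ → ℕ → ℕ} (hI : SI I f) {m w : ℕ}
    (hm : ∀ i, m ≤ i → ∀ b, f i b = 0) (hw : ∀ i b, w ≤ b → f i b = 0) :
    Module.Finite K (MvPolynomial (Fin 3) K ⧸ I) ∧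
      finrank K (MvPolynomial (Fin 3) K ⧸ I) = ∑ i ∈ range m, ∑ b ∈ range w, f i b := by
  let D : Finset (Σ _ : ℕ, Σ _ : ℕ, ℕ) :=
    (range m).sigma (fun i => (range w).sigma (fun b => range (f i b)))
  have hD : ∀ i b c, (⟨i, b, c⟩ : Σ _ : ℕ, Σ _ : ℕ, ℕ) ∈ D ↔ c < f i b := by
    intro i b c
    simp only [D, mem_sigma, mem_range]
    constructor
    · exact fun h => h.2.2
    · intro h
      refine ⟨?_, ?_, h⟩
      · by_contra hcon
        rw [hm i (by omega)] at h; omega
      · by_contra hcon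
        rw [hw i b (by omega)] at h; omega
  let Ψ0 : (D → K) →ₗ[K] MvPolynomial (Fin 3) K :=
    { toFun := fun q => ∑ u : D, monomial (ex u.1.1 u.1.2.1 u.1.2.2) (q u)
      map_add' := fun p q => by
        simp only [Pi.add_apply, map_add, sum_add_distrib]
      map_smul' := fun r q => by
        simp only [Pi.smul_apply, map_smul, RingHom.id_apply, smul_sum] }
  have hcoef : ∀ (q : D → K) (i b c : ℕ) (h : (⟨i, b, c⟩ : Σ _ : ℕ, Σ _ : ℕ, ℕ) ∈ D),
      coeff (ex i b c) (Ψ0 q) = q ⟨⟨i,b,c⟩, h⟩ := by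
    intro q i b c h
    change coeff (ex i b c) (∑ u : D, monomial (ex u.1.1 u.1.2.1 u.1.2.2) (q u)) = _
    rw [coeff_sum, Finset.sum_eq_single (⟨⟨i,b,c⟩, h⟩ : D)]
    · rw [coeff_monomial, if_pos rfl]
    · intro u _ hu
      rw [coeff_monomial, if_neg]
      rw [ex_inj]
      rintro ⟨h1, h2, h3⟩
      apply hu
      apply Subtype.ext
      obtain ⟨⟨i', b', c'⟩, hu'⟩ := u
      simp only at h1 h2 h3
      subst h1 h2 h3
      rfl
    · intro h; exact absurd (Finset.mem_univ _) h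
  let Ψ : (D → K) →ₗ[K] (MvPolynomial (Fin 3) K ⧸ I) :=
    (Ideal.Quotient.mkₐ K I).toLinearMap ∘ₗ Ψ0
  have hinj : Function.Injective Ψ := by
    rw [← LinearMap.ker_eq_bot, LinearMap.ker_eq_bot']
    intro q hq
    have h1 : Ψ0 q ∈ I := by
      rw [← Ideal.Quotient.eq_zero_iff_mem]
      exact hq
    funext u
    obtain ⟨⟨i, b, c⟩, hu⟩ := u
    rw [← hcoef q i b c hu]
    exact (hI _).1 h1 i b c ((hD i b c).1 hu)
  have hsurj : Function.Surjective Ψ := by
    intro r
    obtain ⟨p, rfl⟩ := Ideal.Quotient.mk_surjective r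
    refine ⟨fun u => coeff (ex u.1.1 u.1.2.1 u.1.2.2) p, ?_⟩
    change Ideal.Quotient.mk I (Ψ0 _) = Ideal.Quotient.mk I p
    rw [Ideal.Quotient.eq, hI]
    intro i b c hc
    rw [coeff_sub, hcoef _ i b c ((hD i b c).2 hc), sub_self]
  let E : (D → K) ≃ₗ[K] (MvPolynomial (Fin 3) K ⧸ I) := LinearEquiv.ofBijective Ψ ⟨hinj, hsurj⟩
  refine ⟨Module.Finite.equiv E, ?_⟩
  rw [← E.finrank_eq, Module.finrank_fintype_fun_eq_card, Fintype.card_coe, card_sigma]
  refine sum_congr rfl fun i _ => ?_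
  rw [card_sigma]
  simp

end Pool.Agent.Lib.MP_ff2328_ag
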