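import Pool.Agent.Lib.MP_ff2328_ag.Filt
import Pool.Agent.Lib.MP_ff2328_ag.Corner

/-! Upper bound for the tangent space dimension in terms of corner counts. -/

namespace Pool.Agent.Lib.MP_ff2328_ag

open Finset Module MvPolynomial

variable {K : Type*} [Field K]

lemma WW_zero (f : ℕ → ℕ → ℕ) (j : ℕ) :
    WW K f 0 j = VS (f 0) (Yop (K := K) (f j)) (Zop (K := K) (f j)) := rfl

lemma WW_succ (f : ℕ → ℕ → ℕ) (i j : ℕ) :
    WW K f (i+1) j = VR (f i) (f (i+1)) (Yop (K := K) (f j)) (Zop (K := K) (f j)) := rfl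

lemma WW_le {f : ℕ → ℕ → ℕ} {w : ℕ} (hw : ∀ i b, w ≤ b → f i b = 0) (i j : ℕ) :
    finrank K (WW K f i j) ≤ finrank K (VS (f i) (Yop (K := K) (f j)) (Zop (K := K) (f j))) := by
  cases i with
  | zero => rw [WW_zero]
  | succ i =>
    rw [WW_succ]
    have := (Pm_finite (K := K) (hw j)).1
    have := VS_finite (Y := Yop (K := K) (f j)) (Z := Zop (K := K) (f j)) (hw (i+1))
    exact Submodule.finrank_mono VR_le

lemma WW_bound {f : ℕ → ℕ → ℕ} (hf : ∀ i, Antitone (f i)) (hf' : ∀ i b, f (i+1) b ≤ f i b)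
    {m w : ℕ} (hw : ∀ i b, w ≤ b → f i b = 0)
    {β γ : ℕ → ℕ} (hg : ∀ j < m, f j (β j) ≤ γ j) {i j : ℕ} (hi : i ≤ m) (hj : j < m) :
    finrank K (WW K f i j)
      + ((if i < j then ∑ b ∈ Ico (β j) w, (f i b - γ j) else 0)
        + (if j < i then ∑ b ∈ Ico (β (i-1)) w, (f j b - γ (i-1)) else 0))
      ≤ ∑ b ∈ range w, f j b + ∑ b ∈ range w, f i b := by
  have h3 := VS_bound (K := K) (hf i) (hf j) (hw i) (hw j) (hg j hj)
  have h4 := WW_le (K := K) hw i j
  rcases lt_trichotomy i j with h | h | h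
  · have h2 : ¬ j < i := by omega
    rw [if_pos h, if_neg h2, add_zero]
    omega
  · have h2 : ¬ j < i := by omega
    have h5 : ¬ i < j := by omega
    rw [if_neg h2, if_neg h5, add_zero, add_zero]
    omega
  · have h2 : ¬ i < j := by omega
    rw [if_pos h, if_neg h2, zero_add]
    cases i with
    | zero => omega
    | succ i =>
      rw [Nat.add_sub_cancel, WW_succ]
      exact VR_bound (hf (i+1)) (hf' i) (hf j) (hw (i+1)) (hw j) (hg i (by omega))

theorem partA {I : Ideal (MvPolynomial (Fin 3) K)} {f : ℕ → ℕ → ℕ} (hI : SI I f)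
    (hf : ∀ i, Antitone (f i)) (hf' : ∀ i b, f (i+1) b ≤ f i b) {m w : ℕ}
    (hm : ∀ i, m ≤ i → ∀ b, f i b = 0) (hw : ∀ i b, w ≤ b → f i b = 0)
    (β γ : ℕ → ℕ) (hg : ∀ j < m, f j (β j) ≤ γ j) :
    finrank K (HomI I) + 2 * ∑ j ∈ range m, kap f w j (β j) (γ j)
      ≤ (2*m+1) * ∑ i ∈ range m, ∑ b ∈ range w, f i b := by
  have h1 := T_le (K := K) hI hf hf' hm hw
  set L := ∑ i ∈ range m, ∑ b ∈ range w, f i b with hL
  set c : ℕ → ℕ → ℕ := fun j i => ∑ b ∈ Ico (β j) w, (f i b - γ j) with hc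
  have h2 : ∑ j ∈ range m, ∑ i ∈ range (m+1), (finrank K (WW K f i j)
      + ((if i < j then c j i else 0) + (if j < i then c (i-1) j else 0)))
      ≤ ∑ j ∈ range m, ∑ i ∈ range (m+1), (∑ b ∈ range w, f j b + ∑ b ∈ range w, f i b) := by
    refine sum_le_sum fun j hj => sum_le_sum fun i hi => ?_
    exact WW_bound hf hf' hw hg (by have := mem_range.1 hi; omega) (mem_range.1 hj)
  have h3 : ∑ j ∈ range m, ∑ i ∈ range (m+1), (∑ b ∈ range w, f j b + ∑ b ∈ range w, f i b)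
      = (2*m+1) * L := by
    simp only [sum_add_distrib, sum_const, card_range, smul_eq_mul]
    rw [← mul_sum, sum_range_succ]
    have : ∑ b ∈ range w, f m b = 0 := sum_eq_zero fun b _ => hm m le_rfl b
    rw [this, ← hL]
    ring
  have h4 : ∀ j ∈ range m, ∑ i ∈ range (m+1), (if i < j then c j i else 0)
      = ∑ i ∈ range j, c j i := by
    intro j hj
    have := mem_range.1 hj
    rw [← sum_filter]
    congr 1
    ext i; simp; omega
  have h5 : ∀ j ∈ range m, ∑ i ∈ Ico (j+1) m, c i j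
      ≤ ∑ i ∈ range (m+1), (if j < i then c (i-1) j else 0) := by
    intro j hj
    have := mem_range.1 hj
    rw [← sum_filter]
    have e : (range (m+1)).filter (fun i => j < i) = Ico (j+1) (m+1) := by
      ext i; simp; omega
    rw [e, ← sum_Ico_add' (fun i => c (i-1) j) j m 1]
    simp only [Nat.add_sub_cancel]
    rw [sum_eq_sum_Ico_succ_bot this]
    omega
  have h6 : ∑ j ∈ range m, ∑ i ∈ Ico (j+1) m, c i j = ∑ j ∈ range m, ∑ i ∈ range j, c j i := by
    simp only [range_eq_Ico]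
    exact sum_Ico_Ico_comm' 0 m (fun i j => c j i)
  have h7 : ∑ j ∈ range m, kap f w j (β j) (γ j) = ∑ j ∈ range m, ∑ i ∈ range j, c j i := rfl
  rw [h3] at h2
  simp only [sum_add_distrib] at h2
  rw [sum_congr rfl h4] at h2
  have h8 := sum_le_sum h5
  rw [h6] at h8
  rw [h7]
  omega

end Pool.Agent.Lib.MP_ff2328_ag
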