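import Pool.Agent.Lib.MP_ff2328_ag.Lower

/-! Lower bound for the tangent space dimension at the explicit ideals. -/

namespace Pool.Agent.Lib.MP_ff2328_ag

open Finset Module MvPolynomial

variable {K : Type*} [Field K]

lemma fin_of_top {H : Type*} [AddCommGroup H] [Module K H] (F : Submodule K H) (hF : F = ⊤)
    (h : FiniteDimensional K F) : FiniteDimensional K H :=
  Module.Finite.equiv (LinearEquiv.ofTop F hF)

lemma HomI_finite {I : Ideal (MvPolynomial (Fin 3) K)} {f : ℕ → ℕ → ℕ}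
    (hI : SI I f) (hf : ∀ i, Antitone (f i)) (hf' : ∀ i b, f (i+1) b ≤ f i b) {m w : ℕ}
    (hm : ∀ i, m ≤ i → ∀ b, f i b = 0) (hw : ∀ i b, w ≤ b → f i b = 0) :
    FiniteDimensional K (HomI I) := by
  have h1 := (Fil_all (K := K) hI hf hf' hm hw m le_rfl).1
  rw [Nat.sub_self] at h1
  refine fin_of_top (Fil hI 0) ?_ h1
  rw [Submodule.eq_top_iff']
  intro φ j' hj'
  omega

lemma lam_mkHom {k s t : ℕ} (hs : s ≤ k) (g p : Fin 3 →₀ ℕ) (hg : MI (JJ K k s t) g)
    (μ : (Fin 3 →₀ ℕ) → MvPolynomial (Fin 3) K ⧸ JJ K k s t)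
    (hμ : ∀ u v, MI (JJ K k s t) v → μ (u + v) = (monomial u (1:K)) • μ v)
    (hp : ¬ MI (JJ K k s t) p) (c : Prop) [Decidable c] (w : Fin 3 →₀ ℕ)
    (h : μ g = if c then cl _ w else 0) :
    lam (SI_JJ hs) g p hg (mkHom (JJ_supp hs) μ hμ) = if c ∧ w = p then 1 else 0 := by
  rw [lam_apply, mkHom_apply, h]
  by_cases hc : c
  · rw [if_pos hc, comp_cl _ _ _ hp]
    simp [hc]
  · rw [if_neg hc]
    simp [hc]

theorem lower (k s t : ℕ) (hst : s + t ≤ k) :
    ((k+1).choose 2 + s) * ((k+1).choose 2 + s + k + 1) + (s+1).choose 2 + 3*t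
      ≤ finrank K (HomI (JJ K k s t)) := by
  classical
  have hs : s ≤ k := by omega
  have hfin : FiniteDimensional K (HomI (JJ K k s t)) := by
    refine HomI_finite (m := k + t) (w := k + 1) (SI_JJ hs) ?_ ?_ ?_ ?_
    · intro i a b hab
      change bs k s t i - b ≤ bs k s t i - a
      omega
    · intro i b
      have := bs_anti (t := t) hs (by omega : i ≤ i + 1)
      omega
    · intro i hi b
      unfold bs
      split_ifs <;> omega
    · intro i b hb
      unfold bs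
      split_ifs <;> omega
  have hG : ∀ a : GI k s × WI k s, (a.1.1 : ℕ) ≤ k ∧ (a.1.2 : ℕ) ≤ bk k s a.1.1 := by
    intro a
    exact ⟨by have := a.1.1.2; omega, by have := a.1.2.2; omega⟩
  let φA : GI k s × WI k s → HomI (JJ K k s t) := fun a =>
    mkHom (JJ_supp hs) (muA K k s t (gv k s t a.1.1 a.1.2) (wv k s t a.2.1 a.2.2))
      (muA_hom _ _ (gv_min hst (hG a).1 (hG a).2) (wv_soc hst a.2.1.2 a.2.2.2))
  have hCs : ∀ c : Fin 3 × Fin t, s < k := fun c => by have := c.2.2; omega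
  let φD : BI s ⊕ (Fin 3 × Fin t) → HomI (JJ K k s t) := fun d =>
    match d with
    | Sum.inl b => mkHom (JJ_supp hs) (muB K k s t b.1 b.2) (muB_hom hs b.1.2)
    | Sum.inr c => mkHom (JJ_supp hs)
        (muC K k s t (e1 c.1) (e2 c.1) (en k t c.1) (k - 1 + c.2))
        (muC_hom (hCs c) (by
          rcases e_cases k t c.1 with ⟨_, h1, h2, h3⟩ | ⟨_, h1, h2, h3⟩ | ⟨_, h1, h2, h3⟩
          · exact Or.inl ⟨h1, h2, h3⟩
          · exact Or.inr (Or.inl ⟨h1, h2, h3⟩)
          · exact Or.inr (Or.inr ⟨h1, h2, h3⟩)) (by omega))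
  let lA : GI k s × WI k s → (HomI (JJ K k s t) →ₗ[K] K) := fun a =>
    lam (SI_JJ hs) (gv k s t a.1.1 a.1.2) (wv k s t a.2.1 a.2.2) (gv_MI hst (hG a).1 (hG a).2)
  let lD : BI s ⊕ (Fin 3 × Fin t) → (HomI (JJ K k s t) →ₗ[K] K) := fun d =>
    match d with
    | Sum.inl b => lam (SI_JJ hs) (ex s 0 (k - s)) (ex b.1 b.2 (k - b.1 - 1 - b.2)) (gs_MI hst)
    | Sum.inr c => lam (SI_JJ hs) (ge k t c.1) (ex (k - 1 + c.2) 0 0) (ge_MI (hCs c) c.1)
  have h1 : ∀ a a', lA a (φA a') = if a' = a then 1 else 0 := by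
    intro a a'
    have h2 := lam_mkHom hs (gv k s t a.1.1 a.1.2) (wv k s t a.2.1 a.2.2)
      (gv_MI hst (hG a).1 (hG a).2) (muA K k s t (gv k s t a'.1.1 a'.1.2) (wv k s t a'.2.1 a'.2.2))
      (muA_hom _ _ (gv_min hst (hG a').1 (hG a').2) (wv_soc hst a'.2.1.2 a'.2.2.2))
      (wv_not hst a.2.1.2 a.2.2.2) _ _ rfl
    refine h2.trans ?_
    by_cases haa : a' = a
    · subst haa; simp
    · rw [if_neg haa, if_neg]
      rintro ⟨h3, h4⟩
      apply haa
      obtain ⟨h5, h6⟩ := gv_inj (hG a).1 (hG a').1 h3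
      obtain ⟨h7, h8⟩ := wv_inj a'.2.1.2 a.2.1.2 h4
      obtain ⟨⟨i, b⟩, ⟨i2, b2⟩⟩ := a
      obtain ⟨⟨i', b'⟩, ⟨i2', b2'⟩⟩ := a'
      simp only at h5 h6 h7 h8
      have e5 : i = i' := Fin.ext h5
      have e7 : i2' = i2 := Fin.ext h7
      subst e5 e7
      have e6 : b = b' := Fin.ext h6
      have e8 : b2' = b2 := Fin.ext h8
      subst e6 e8
      rfl
  have h2 : ∀ d d', lD d (φD d') = if d' = d then 1 else 0 := by
    rintro (b | c) (b' | c')
    · have h3 := lam_mkHom (K := K) hs (ex s 0 (k - s)) (ex b.1 b.2 (k - b.1 - 1 - b.2)) (gs_MI hst)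
        (muB K k s t b'.1 b'.2) (muB_hom hs b'.1.2) (pB_not hst b.1.2 b.2.2) _ _ rfl
      refine h3.trans ?_
      simp only [ex_zero, ex_one, ex_two, le_refl, true_and, ex_inj, Sum.inl.injEq]
      obtain ⟨j, a⟩ := b
      obtain ⟨j', a'⟩ := b'
      simp only
      by_cases hjj : j' = j
      · subst hjj
        by_cases haa : a' = a
        · subst haa
          have := j'.2
          have := a'.2
          rw [if_pos (by omega), if_pos rfl]
        · have haa' : (a' : ℕ) ≠ a := fun h => haa (Fin.ext h)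
          rw [if_neg (by omega), if_neg]
          intro h
          apply haa
          simpa using h
      · have hjj' : (j' : ℕ) ≠ j := fun h => hjj (Fin.ext h)
        rw [if_neg (by omega), if_neg]
        intro h
        apply hjj
        exact congrArg Sigma.fst h
    · have hs' := hCs c'
      have h3 := lam_mkHom (K := K) hs (ex s 0 (k - s)) (ex b.1 b.2 (k - b.1 - 1 - b.2)) (gs_MI hst)
        (muC K k s t (e1 c'.1) (e2 c'.1) (en k t c'.1) (k - 1 + c'.2)) (muC_hom (hCs c') (by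
          rcases e_cases k t c'.1 with ⟨_, h1, h2, h3⟩ | ⟨_, h1, h2, h3⟩ | ⟨_, h1, h2, h3⟩
          · exact Or.inl ⟨h1, h2, h3⟩
          · exact Or.inr (Or.inl ⟨h1, h2, h3⟩)
          · exact Or.inr (Or.inr ⟨h1, h2, h3⟩)) (by omega)) (pB_not hst b.1.2 b.2.2) _ _ rfl
      refine h3.trans ?_
      rw [if_neg, if_neg]
      · simp
      · rw [ex_inj]
        have := b.1.2
        have := b.2.2
        omega
    · have hs' := hCs c
      have h3 := lam_mkHom (K := K) hs (ge k t c.1) (ex (k - 1 + c.2) 0 0) (ge_MI (hCs c) c.1)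
        (muB K k s t b'.1 b'.2) (muB_hom hs b'.1.2) (pC_not (hCs c) c.2.2) _ _ rfl
      refine h3.trans ?_
      rw [if_neg, if_neg]
      · simp
      · rw [ex_inj]
        simp only [ge, ex_zero, ex_one, ex_two]
        have := b'.1.2
        have := b'.2.2
        have := c.2.2
        rcases e_cases k t c.1 with ⟨_, h1, h2, h3⟩ | ⟨_, h1, h2, h3⟩ | ⟨_, h1, h2, h3⟩ <;>
          rw [h1, h2, h3] <;> omega
    · have hs' := hCs c
      have h3 := lam_mkHom (K := K) hs (ge k t c.1) (ex (k - 1 + c.2) 0 0) (ge_MI (hCs c) c.1)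
        (muC K k s t (e1 c'.1) (e2 c'.1) (en k t c'.1) (k - 1 + c'.2)) (muC_hom (hCs c') (by
          rcases e_cases k t c'.1 with ⟨_, h1, h2, h3⟩ | ⟨_, h1, h2, h3⟩ | ⟨_, h1, h2, h3⟩
          · exact Or.inl ⟨h1, h2, h3⟩
          · exact Or.inr (Or.inl ⟨h1, h2, h3⟩)
          · exact Or.inr (Or.inr ⟨h1, h2, h3⟩)) (by omega)) (pC_not (hCs c) c.2.2) _ _ rfl
      refine h3.trans ?_
      simp only [ge, ex_zero, ex_one, ex_two, ex_inj, Sum.inr.injEq]
      obtain ⟨e, c⟩ := c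
      obtain ⟨e', c'⟩ := c'
      simp only [Prod.mk.injEq]
      by_cases hee : e' = e
      · subst hee
        by_cases hcc : c' = c
        · subst hcc
          rw [if_pos (by simp), if_pos (by simp)]
        · have hcc' : (c' : ℕ) ≠ c := fun h => hcc (Fin.ext h)
          rw [if_neg (by omega), if_neg (by simp [hcc])]
      · rw [if_neg, if_neg (by simp [hee])]
        rintro ⟨⟨h4, h5, _⟩, _⟩
        apply hee
        rcases e_cases k t e with ⟨h0, h1, h2, h3⟩ | ⟨h0, h1, h2, h3⟩ | ⟨h0, h1, h2, h3⟩ <;>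
        rcases e_cases k t e' with ⟨h0', h1', h2', h3'⟩ | ⟨h0', h1', h2', h3'⟩ | ⟨h0', h1', h2', h3'⟩
          <;> omega
  have h3 : ∀ d a, lD d (φA a) = 0 := by
    rintro (b | c) a
    · have h4 := lam_mkHom (K := K) hs (ex s 0 (k - s)) (ex b.1 b.2 (k - b.1 - 1 - b.2)) (gs_MI hst)
        (muA K k s t (gv k s t a.1.1 a.1.2) (wv k s t a.2.1 a.2.2))
        (muA_hom _ _ (gv_min hst (hG a).1 (hG a).2) (wv_soc hst a.2.1.2 a.2.2.2))
        (pB_not hst b.1.2 b.2.2) _ _ rfl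
      refine h4.trans ?_
      rw [if_neg]
      rintro ⟨_, h5⟩
      exact wv_ne_pB hst a.2.1.2 a.2.2.2 b.1.2 b.2.2 h5
    · have h4 := lam_mkHom (K := K) hs (ge k t c.1) (ex (k - 1 + c.2) 0 0) (ge_MI (hCs c) c.1)
        (muA K k s t (gv k s t a.1.1 a.1.2) (wv k s t a.2.1 a.2.2))
        (muA_hom _ _ (gv_min hst (hG a).1 (hG a).2) (wv_soc hst a.2.1.2 a.2.2.2))
        (pC_not (hCs c) c.2.2) _ _ rfl
      refine h4.trans ?_
      rw [if_neg]
      rintro ⟨_, h5⟩
      exact wv_ne_pC (hCs c) a.2.1.2 a.2.2.2 c.2.2 h5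
  have h4 := two_blocks φA φD lA lD h1 h2 h3
  rw [Fintype.card_prod, Fintype.card_sum, Fintype.card_prod, Fintype.card_fin, Fintype.card_fin,
    card_GI k s hs, card_WI k s hs, card_BI] at h4
  calc _ = ((k+1).choose 2 + s + k + 1) * ((k+1).choose 2 + s) + ((s+1).choose 2 + 3 * t) := by ring
    _ ≤ _ := h4

end Pool.Agent.Lib.MP_ff2328_ag
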