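import Pool.Agent.Lib.MP_ff2328_ag.Corner

/-! Row decomposition of a slice and the averaging inequality. -/

namespace Pool.Agent.Lib.MP_ff2328_ag

open Finset

lemma rows (g : ℕ → ℕ) (hg : ∀ b d, 0 < g (b+d) → g (b+d) + d ≤ g b) (K w : ℕ)
    (hw : ∀ b, w ≤ b → g b = 0) :
    ∃ (H : ℕ) (N : ℕ → ℕ), 0 < H ∧
      (∀ x, ∑ b ∈ range w, (g b - max x (K - b)) = ∑ r ∈ range H, min (N r) (K + r + 1 - x)) ∧
      (∀ r b, b < N r ↔ (b ≤ K + r ∧ K + r - b < g b)) := by
  have hanti : ∀ b, g b ≤ g 0 := by
    intro b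
    rcases Nat.eq_zero_or_pos (g b) with h | h
    · omega
    · have := hg 0 b (by rwa [zero_add]); rw [zero_add] at this; omega
  let S : ℕ → Finset ℕ := fun r => (range w).filter (fun b => b ≤ K + r ∧ K + r - b < g b)
  have hS : ∀ r, S r = range (S r).card := by
    intro r
    -- S r is a lower set in ℕ
    have hlow : ∀ b b', b' ≤ b → b ∈ S r → b' ∈ S r := by
      intro b b' hb hmem
      simp only [S, mem_filter, mem_range] at hmem ⊢
      have h1 := hg b' (b - b')
      have e : b' + (b - b') = b := by omega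
      rw [e] at h1
      have := h1 (by omega)
      omega
    apply eq_of_subset_of_card_le
    · intro b hb
      rw [mem_range]
      by_contra hcon
      have hsub : range (b+1) ⊆ S r := by
        intro b' hb'
        exact hlow b b' (by have := mem_range.1 hb'; omega) hb
      have := card_le_card hsub
      rw [card_range] at this
      omega
    · rw [card_range]
  refine ⟨w + g 0 + 1, fun r => (S r).card, by omega, ?_, ?_⟩
  · intro x
    have h1 : ∀ b ∈ range w, (g b - max x (K - b))
        = ∑ r ∈ range (w + g 0 + 1), if (b ≤ K + r ∧ K + r - b < g b) ∧ b + x ≤ K + r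
          then 1 else 0 := by
      intro b hb
      have hb' := mem_range.1 hb
      have := hanti b
      rw [← card_filter]
      have e : (range (w + g 0 + 1)).filter
          (fun r => (b ≤ K + r ∧ K + r - b < g b) ∧ b + x ≤ K + r)
          = Ico (b + x - K) (b + g b - K) := by
        ext r
        simp only [mem_filter, mem_range, mem_Ico]
        omega
      rw [e, Nat.card_Ico]
      omega
    rw [sum_congr rfl h1, sum_comm]
    refine sum_congr rfl fun r _ => ?_
    rw [← card_filter]
    have e : (range w).filter (fun b => (b ≤ K + r ∧ K + r - b < g b) ∧ b + x ≤ K + r)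
        = range (min (S r).card (K + r + 1 - x)) := by
      ext b
      have hb : b ∈ S r ↔ b ∈ range (S r).card := by rw [← hS r]
      simp only [S, mem_filter, mem_range] at hb ⊢
      rw [lt_min_iff, ← hb]
      constructor
      · rintro ⟨h1, h2, h3⟩; exact ⟨⟨h1, h2⟩, by omega⟩
      · rintro ⟨⟨h1, h2⟩, h3⟩; exact ⟨h1, h2, by omega⟩
    rw [e, card_range]
  · intro r b
    have hb : b ∈ S r ↔ b ∈ range (S r).card := by rw [← hS r]
    simp only [S, mem_filter, mem_range] at hb
    rw [← hb]
    constructor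
    · rintro ⟨_, h⟩; exact h
    · intro h
      refine ⟨?_, h⟩
      by_contra hcon
      have := hw b (by omega)
      omega

/-- Pairing inequality for one slice. -/
lemma wt_pair {f : ℕ → ℕ → ℕ} (hf : Stair f) {k w i τ x x' : ℕ} (hw : ∀ b, w ≤ b → f i b = 0)
    (hi : i < τ) (hτ : τ < k) (hfi : k - i < f i 0) (hτf : k - (τ - 1) < f (τ - 1) 0)
    (hx : 2 ≤ x) (hx' : 2 ≤ x') (hxx : x + x' = k - τ + 2) :
    wt f k w i 0 + (τ - i) ≤ wt f k w i x + wt f k w i x' + (if 0 < f i (k - i) then 1 else 0) := by
  obtain ⟨H, N, hH, hsum, hN⟩ := rows (f i) (fun b d => hf.down i b d) (k - i) w hw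
  simp only [wt]
  rw [hsum 0, hsum x, hsum x', ← sum_add_distrib]
  obtain ⟨H, rfl⟩ : ∃ H', H = H' + 1 := ⟨H - 1, by omega⟩
  rw [sum_range_succ', sum_range_succ' (fun r => min (N r) (k - i + r + 1 - x)
    + min (N r) (k - i + r + 1 - x'))]
  have hNle : ∀ r, N r ≤ k - i + r + 1 := by
    intro r
    by_contra hcon
    have := (hN r (k - i + r + 1)).1 (by omega)
    omega
  have h1 : ∑ r ∈ range H, min (N (r+1)) (k - i + (r+1) + 1 - 0)
      ≤ ∑ r ∈ range H, (min (N (r+1)) (k - i + (r+1) + 1 - x)
        + min (N (r+1)) (k - i + (r+1) + 1 - x')) := by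
    refine sum_le_sum fun r _ => ?_
    have := hNle (r+1)
    omega
  have hN0 : τ - i ≤ N 0 := by
    have hb : τ - i - 1 < N 0 := by
      rw [hN 0]
      have := hf.low (i := i) (j := τ - 1) (b := 0) (b' := τ - i - 1) (by omega) (by omega)
        (by omega)
      omega
    omega
  have hN0' : N 0 ≤ k - i + (if 0 < f i (k - i) then 1 else 0) := by
    split_ifs with h
    · exact hNle 0
    · by_contra hcon
      have := (hN 0 (k - i)).1 (by omega)
      omega
  have h2 : min (N 0) (k - i + 0 + 1 - 0) + (τ - i) ≤ min (N 0) (k - i + 0 + 1 - x)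
      + min (N 0) (k - i + 0 + 1 - x') + (if 0 < f i (k - i) then 1 else 0) := by
    have := hNle 0
    split_ifs at hN0' ⊢ <;> omega
  omega

end Pool.Agent.Lib.MP_ff2328_ag
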