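import Pool.Agent.Lib.MP_ff2328_ag.HomTwo

/-! The quotient of `K[y,z]` by a monomial ideal as a space of functions. -/

namespace Pool.Agent.Lib.MP_ff2328_ag

open Finset Module

variable (K : Type*) [Field K]

/-- Functions supported below the staircase `h`. -/
def Pm (h : ℕ → ℕ) : Submodule K (ℕ → ℕ → K) where
  carrier := {p | ∀ b c, h b ≤ c → p b c = 0}
  add_mem' := by
    intro p q hp hq b c hbc
    simp only [Pi.add_apply]
    rw [hp b c hbc, hq b c hbc, add_zero]
  zero_mem' := by intro b c _; rfl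
  smul_mem' := by
    intro r p hp b c hbc
    simp only [Pi.smul_apply]
    rw [hp b c hbc, smul_zero]

variable {K}

lemma Pm_ext {h : ℕ → ℕ} {p q : Pm K h} (H : ∀ b c, c < h b → p.1 b c = q.1 b c) : p = q := by
  apply Subtype.ext
  funext b c
  rcases lt_or_ge c (h b) with hc | hc
  · exact H b c hc
  · rw [p.2 b c hc, q.2 b c hc]

/-- Multiplication by `y`. -/
def Yop (h : ℕ → ℕ) : Module.End K (Pm K h) where
  toFun p := ⟨fun b c => if c < h b ∧ 1 ≤ b then p.1 (b-1) c else 0, by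
    intro b c hbc
    simp only [show ¬ (c < h b ∧ 1 ≤ b) by omega, if_false]⟩
  map_add' p q := by
    apply Subtype.ext; funext b c
    simp only [Submodule.coe_add, Pi.add_apply]
    split_ifs <;> simp
  map_smul' r p := by
    apply Subtype.ext; funext b c
    simp only [Submodule.coe_smul, Pi.smul_apply, RingHom.id_apply]
    split_ifs <;> simp

/-- Multiplication by `z`. -/
def Zop (h : ℕ → ℕ) : Module.End K (Pm K h) where
  toFun p := ⟨fun b c => if c < h b ∧ 1 ≤ c then p.1 b (c-1) else 0, by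
    intro b c hbc
    simp only [show ¬ (c < h b ∧ 1 ≤ c) by omega, if_false]⟩
  map_add' p q := by
    apply Subtype.ext; funext b c
    simp only [Submodule.coe_add, Pi.add_apply]
    split_ifs <;> simp
  map_smul' r p := by
    apply Subtype.ext; funext b c
    simp only [Submodule.coe_smul, Pi.smul_apply, RingHom.id_apply]
    split_ifs <;> simp

lemma Yop_apply {h : ℕ → ℕ} (p : Pm K h) (b c : ℕ) :
    (Yop h p).1 b c = if c < h b ∧ 1 ≤ b then p.1 (b-1) c else 0 := rfl

lemma Zop_apply {h : ℕ → ℕ} (p : Pm K h) (b c : ℕ) :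
    (Zop h p).1 b c = if c < h b ∧ 1 ≤ c then p.1 b (c-1) else 0 := rfl

lemma Yop_pow {h : ℕ → ℕ} (hh : Antitone h) (β : ℕ) (p : Pm K h) (b c : ℕ) :
    ((Yop h ^ β) p).1 b c = if c < h b ∧ β ≤ b then p.1 (b-β) c else 0 := by
  induction β generalizing b with
  | zero =>
    simp only [pow_zero, Module.End.one_apply, Nat.zero_le, and_true, Nat.sub_zero]
    split_ifs with h1
    · rfl
    · exact p.2 b c (by omega)
  | succ β ih =>
    rw [pow_succ', Module.End.mul_apply, Yop_apply]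
    by_cases h1 : c < h b ∧ 1 ≤ b
    · rw [if_pos h1, ih]
      have h2 : h b ≤ h (b-1) := hh (by omega)
      by_cases h3 : β ≤ b - 1
      · rw [if_pos (by omega), if_pos (by omega)]
        rw [show b - 1 - β = b - (β + 1) by omega]
      · rw [if_neg (by omega), if_neg (by omega)]
    · rw [if_neg h1, if_neg (by omega)]

lemma Zop_pow {h : ℕ → ℕ} (γ : ℕ) (p : Pm K h) (b c : ℕ) :
    ((Zop h ^ γ) p).1 b c = if c < h b ∧ γ ≤ c then p.1 b (c-γ) else 0 := by
  induction γ generalizing c with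
  | zero =>
    simp only [pow_zero, Module.End.one_apply, Nat.zero_le, and_true, Nat.sub_zero]
    split_ifs with h1
    · rfl
    · exact p.2 b c (by omega)
  | succ γ ih =>
    rw [pow_succ', Module.End.mul_apply, Zop_apply]
    by_cases h1 : c < h b ∧ 1 ≤ c
    · rw [if_pos h1, ih]
      by_cases h3 : γ ≤ c - 1
      · rw [if_pos (by omega), if_pos (by omega)]
        rw [show c - 1 - γ = c - (γ + 1) by omega]
      · rw [if_neg (by omega), if_neg (by omega)]
    · rw [if_neg h1, if_neg (by omega)]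

lemma YZ_comm {h : ℕ → ℕ} (hh : Antitone h) : Commute (Yop (K := K) h) (Zop h) := by
  apply LinearMap.ext
  intro p
  apply Pm_ext
  intro b c hc
  rw [Module.End.mul_apply, Module.End.mul_apply, Yop_apply, Zop_apply, Zop_apply, Yop_apply]
  by_cases h1 : 1 ≤ b
  · have h2 : h b ≤ h (b-1) := hh (by omega)
    by_cases h3 : 1 ≤ c
    · rw [if_pos ⟨hc, h1⟩, if_pos (by omega), if_pos ⟨hc, h3⟩, if_pos (by omega)]
    · rw [if_pos ⟨hc, h1⟩, if_neg (by omega), if_neg (by omega)]
  · rw [if_neg (by omega)]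
    by_cases h3 : 1 ≤ c
    · rw [if_pos ⟨hc, h3⟩, if_neg (by omega)]
    · rw [if_neg (by omega)]

/-- Extension by zero from a finite set of monomials below the staircase. -/
def iota (h : ℕ → ℕ) (D : Finset (Σ _ : ℕ, ℕ)) (hD : ∀ q ∈ D, q.2 < h q.1) :
    (D → K) →ₗ[K] Pm K h where
  toFun q := ⟨fun b c => if hbc : (⟨b, c⟩ : Σ _ : ℕ, ℕ) ∈ D then q ⟨⟨b, c⟩, hbc⟩ else 0, by
    intro b c hbc
    have : ¬ ((⟨b, c⟩ : Σ _ : ℕ, ℕ) ∈ D) := fun h1 => by have := hD _ h1; simp at this; omega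
    simp only [this, dif_neg, not_false_eq_true]⟩
  map_add' p q := by
    apply Subtype.ext; funext b c
    simp only [Submodule.coe_add, Pi.add_apply]
    split_ifs <;> simp
  map_smul' r p := by
    apply Subtype.ext; funext b c
    simp only [Submodule.coe_smul, Pi.smul_apply, RingHom.id_apply]
    split_ifs <;> simp

lemma iota_inj (h : ℕ → ℕ) (D : Finset (Σ _ : ℕ, ℕ)) (hD : ∀ q ∈ D, q.2 < h q.1) :
    Function.Injective (iota (K := K) h D hD) := by
  intro p q hpq
  funext x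
  have h1 := congrArg (fun g : Pm K h => g.1 x.1.1 x.1.2) hpq
  simp only [iota, LinearMap.coe_mk, AddHom.coe_mk] at h1
  have h2 : (⟨x.1.1, x.1.2⟩ : Σ _ : ℕ, ℕ) ∈ D := x.2
  rw [dif_pos h2, dif_pos h2] at h1
  exact h1

lemma Pm_finite {h : ℕ → ℕ} {w : ℕ} (hw : ∀ b, w ≤ b → h b = 0) :
    FiniteDimensional K (Pm K h) ∧ finrank K (Pm K h) = ∑ b ∈ range w, h b := by
  let D : Finset (Σ _ : ℕ, ℕ) := (range w).sigma (fun b => range (h b))
  have hD : ∀ q ∈ D, q.2 < h q.1 := by
    intro q hq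
    simp only [D, mem_sigma, mem_range] at hq
    exact hq.2
  have hsurj : Function.Surjective (iota (K := K) h D hD) := by
    intro p
    refine ⟨fun x => p.1 x.1.1 x.1.2, ?_⟩
    apply Pm_ext
    intro b c hc
    have hb : b < w := by
      by_contra hcon
      rw [hw b (by omega)] at hc
      omega
    have hmem : (⟨b, c⟩ : Σ _ : ℕ, ℕ) ∈ D := by
      simp only [D, mem_sigma, mem_range]; exact ⟨hb, hc⟩
    simp only [iota, LinearMap.coe_mk, AddHom.coe_mk]
    rw [dif_pos hmem]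
  let E : (D → K) ≃ₗ[K] Pm K h := LinearEquiv.ofBijective _ ⟨iota_inj h D hD, hsurj⟩
  refine ⟨Module.Finite.equiv E, ?_⟩
  rw [← E.finrank_eq, Module.finrank_fintype_fun_eq_card, Fintype.card_coe, card_sigma]
  simp

/-- Rank of multiplication by `y^β z^γ`. -/
lemma rank_ge {h : ℕ → ℕ} (hh : Antitone h) {w : ℕ} (hw : ∀ b, w ≤ b → h b = 0) (β γ : ℕ) :
    ∑ b ∈ Ico β w, (h b - γ) ≤ finrank K (LinearMap.range (Zop (K := K) h ^ γ * Yop h ^ β)) := by
  let D : Finset (Σ _ : ℕ, ℕ) := (Ico β w).sigma (fun b => Ico γ (h b))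
  have hD : ∀ q ∈ D, q.2 < h q.1 := by
    intro q hq
    simp only [D, mem_sigma, mem_Ico] at hq
    exact hq.2.2
  have := (Pm_finite (K := K) hw).1
  have h1 : finrank K (LinearMap.range (iota (K := K) h D hD)) = ∑ b ∈ Ico β w, (h b - γ) := by
    rw [LinearMap.finrank_range_of_inj (iota_inj h D hD), Module.finrank_fintype_fun_eq_card,
      Fintype.card_coe, card_sigma]
    simp
  rw [← h1]
  apply Submodule.finrank_mono
  rintro _ ⟨q, rfl⟩
  refine ⟨⟨fun b c => if hbc : (⟨b + β, c + γ⟩ : Σ _ : ℕ, ℕ) ∈ D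
    then q ⟨⟨b+β, c+γ⟩, hbc⟩ else 0, ?_⟩, ?_⟩
  · intro b c hbc
    have h2 : ¬ ((⟨b + β, c + γ⟩ : Σ _ : ℕ, ℕ) ∈ D) := by
      intro h3
      have h4 := hD _ h3
      have h5 : h (b + β) ≤ h b := hh (by omega)
      simp only at h4
      omega
    simp only [h2, dif_neg, not_false_eq_true]
  · apply Pm_ext
    intro b c hc
    rw [Module.End.mul_apply, Zop_pow]
    by_cases h2 : γ ≤ c
    · rw [if_pos ⟨hc, h2⟩, Yop_pow hh]
      by_cases h3 : β ≤ b
      · rw [if_pos (by omega)]
        simp only [iota, LinearMap.coe_mk, AddHom.coe_mk]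
        have e1 : b - β + β = b := by omega
        have e2 : c - γ + γ = c := by omega
        simp only [e1, e2]
      · rw [if_neg (by omega)]
        have h4 : ¬ ((⟨b, c⟩ : Σ _ : ℕ, ℕ) ∈ D) := by
          simp only [D, mem_sigma, mem_Ico]; omega
        simp only [iota, LinearMap.coe_mk, AddHom.coe_mk]
        rw [dif_neg h4]
    · rw [if_neg (by omega)]
      have h4 : ¬ ((⟨b, c⟩ : Σ _ : ℕ, ℕ) ∈ D) := by
        simp only [D, mem_sigma, mem_Ico]; omega
      simp only [iota, LinearMap.coe_mk, AddHom.coe_mk]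
      rw [dif_neg h4]

/-- The unit. -/
def e0 (h : ℕ → ℕ) : Pm K h :=
  ⟨fun b c => if b = 0 ∧ c = 0 ∧ 0 < h 0 then 1 else 0, by
    intro b c hbc
    have : ¬ (b = 0 ∧ c = 0 ∧ 0 < h 0) := by
      rintro ⟨rfl, rfl, h3⟩; omega
    simp only [this, if_false]⟩

/-- Restriction to the column `b = 0`. -/
def col0 (h : ℕ → ℕ) : Pm K h →ₗ[K] (Fin (h 0) → K) where
  toFun p := fun c => p.1 0 c
  map_add' p q := rfl
  map_smul' r p := rfl

lemma col0_Yop {h : ℕ → ℕ} (p : Pm K h) : col0 h (Yop h p) = 0 := by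
  funext c
  change (Yop h p).1 0 c = 0
  rw [Yop_apply, if_neg (by omega)]

lemma ker_Yop {h : ℕ → ℕ} (hh : Antitone h) {w : ℕ} (hw : ∀ b, w ≤ b → h b = 0) :
    finrank K (LinearMap.ker (Yop (K := K) h)) ≤ h 0 := by
  have := (Pm_finite (K := K) hw).1
  have h1 := LinearMap.finrank_range_add_finrank_ker (Yop (K := K) h)
  have h2 := LinearMap.finrank_range_add_finrank_ker (col0 (K := K) h)
  have h3 : finrank K (LinearMap.range (col0 (K := K) h)) ≤ h 0 := by
    refine (Submodule.finrank_le _).trans ?_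
    rw [Module.finrank_fintype_fun_eq_card, Fintype.card_fin]
  have h4 : finrank K (LinearMap.ker (col0 (K := K) h))
      ≤ finrank K (LinearMap.range (Yop (K := K) h)) := by
    apply Submodule.finrank_mono
    intro p hp
    rw [LinearMap.mem_ker] at hp
    refine ⟨⟨fun b c => p.1 (b+1) c, fun b c hbc => p.2 _ _ ((hh (by omega)).trans hbc)⟩, ?_⟩
    apply Pm_ext
    intro b c hc
    rw [Yop_apply]
    by_cases hb : 1 ≤ b
    · rw [if_pos ⟨hc, hb⟩]
      have : b - 1 + 1 = b := by omega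
      simp only [this]
    · rw [if_neg (by omega)]
      have hb0 : b = 0 := by omega
      subst hb0
      have := congrFun hp ⟨c, hc⟩
      exact this.symm
  omega

lemma ind_Zop (h : ℕ → ℕ) :
    LinearIndependent K (fun q : Fin (h 0) =>
      (LinearMap.range (Yop (K := K) h)).mkQ ((Zop h ^ (q : ℕ)) (e0 h))) := by
  let φ : (Pm K h ⧸ LinearMap.range (Yop (K := K) h)) →ₗ[K] (Fin (h 0) → K) :=
    (LinearMap.range (Yop (K := K) h)).liftQ (col0 h) (by
      rintro _ ⟨p, rfl⟩
      rw [LinearMap.mem_ker]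
      exact col0_Yop p)
  apply LinearIndependent.of_comp φ
  have : (φ ∘ fun q : Fin (h 0) =>
      (LinearMap.range (Yop (K := K) h)).mkQ ((Zop h ^ (q : ℕ)) (e0 h)))
      = fun q => Pi.single q (1 : K) := by
    funext q c
    simp only [Function.comp, φ, Submodule.mkQ_apply, Submodule.liftQ_apply]
    change ((Zop h ^ (q : ℕ)) (e0 h)).1 0 c = _
    rw [Zop_pow]
    have hc := c.2
    by_cases hqc : c = q
    · subst hqc
      rw [if_pos ⟨hc, le_rfl⟩, Pi.single_eq_same]
      simp only [e0, Nat.sub_self, true_and]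
      rw [if_pos (by omega)]
    · rw [Pi.single_eq_of_ne hqc]
      have hne : (c : ℕ) ≠ q := fun h => hqc (Fin.ext h)
      split_ifs with h1
      · simp only [e0]
        rw [if_neg (by omega)]
      · rfl
  rw [this]
  exact Pi.linearIndependent_single_one (Fin (h 0)) K

lemma e0_kill {h : ℕ → ℕ} (hh : Antitone h) {β γ : ℕ} (hg : h β ≤ γ) :
    (Yop (K := K) h ^ β) ((Zop h ^ γ) (e0 h)) = 0 := by
  apply Pm_ext
  intro b c hc
  rw [Yop_pow hh]
  split_ifs with h1
  · rw [Zop_pow]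
    split_ifs with h2
    · simp only [e0]
      rw [if_neg]
      · rfl
      · rintro ⟨h3, h4, h5⟩
        have : b = β := by omega
        subst this
        omega
    · rfl
  · rfl

/-- Bound for homomorphisms from a monomial ideal to a monomial quotient. -/
theorem VS_bound {f h : ℕ → ℕ} (hf : Antitone f) (hh : Antitone h) {w : ℕ}
    (hwf : ∀ b, w ≤ b → f b = 0) (hwh : ∀ b, w ≤ b → h b = 0) {β γ : ℕ} (hg : h β ≤ γ) :
    finrank K (VS f (Yop (K := K) h) (Zop h)) + ∑ b ∈ Ico β w, (f b - γ)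
      ≤ ∑ b ∈ range w, h b + ∑ b ∈ range w, f b := by
  have := (Pm_finite (K := K) hwh).1
  have h1 := L1 (Yop (K := K) h) (Zop h) (YZ_comm hh) (e0 h) β γ (h 0) (e0_kill hh hg)
    (ker_Yop hh hwh) (ind_Zop h) w f hf hwf
  rw [(Pm_finite (K := K) hwh).2] at h1
  exact h1

/-- Bound for homomorphisms from a quotient of monomial ideals to a monomial quotient. -/
theorem VR_bound {f f' h : ℕ → ℕ} (hf' : Antitone f') (hle : ∀ b, f' b ≤ f b)
    (hh : Antitone h) {w : ℕ} (hwf : ∀ b, w ≤ b → f' b = 0) (hwh : ∀ b, w ≤ b → h b = 0)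
    {β γ : ℕ} (hg : f β ≤ γ) :
    finrank K (VR f f' (Yop (K := K) h) (Zop h)) + ∑ b ∈ Ico β w, (h b - γ)
      ≤ ∑ b ∈ range w, h b + ∑ b ∈ range w, f' b := by
  have := (Pm_finite (K := K) hwh).1
  have h1 := L2 (Yop (K := K) h) (Zop h) (YZ_comm hh) f f' hf' hle hwf β γ hg
  have h2 := rank_ge (K := K) hh hwh β γ
  have h3 := VS_bound (K := K) hf' hh hwf hwh (β := w) (γ := 0) (by rw [hwh w le_rfl])
  omega

end Pool.Agent.Lib.MP_ff2328_ag
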