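import Mathlib

/-! Staircases of strongly stable (Borel) finite sets of monomials in three variables. -/

namespace Pool.Agent.Lib.MP_ff2328_ag

open Finset

/-- `f i b` is the number of `c` such that `x^i y^b z^c` is a standard monomial. -/
structure Stair (f : ℕ → ℕ → ℕ) : Prop where
  hy : ∀ i b, 0 < f i (b+1) → f i (b+1) + 1 ≤ f i b
  hx : ∀ i b, f (i+1) b ≤ f i (b+1)

namespace Stair

variable {f : ℕ → ℕ → ℕ} (hf : Stair f)
include hf

lemma anti (i b : ℕ) : f i (b+1) ≤ f i b := by
  rcases Nat.eq_zero_or_pos (f i (b+1)) with h | h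
  · omega
  · have := hf.hy i b h; omega

lemma anti' (i : ℕ) : Antitone (f i) := antitone_nat_of_succ_le (hf.anti i)

lemma down (i b d : ℕ) (h : 0 < f i (b+d)) : f i (b+d) + d ≤ f i b := by
  induction d with
  | zero => simp
  | succ d ih =>
    have h1 := hf.hy i (b+d) (by rw [add_assoc]; exact h)
    have h2 := ih (by omega)
    have : b + (d+1) = b + d + 1 := by ring
    rw [this]
    omega

lemma shift (i b d : ℕ) : f (i+d) b ≤ f i (b+d) := by
  induction d generalizing b with
  | zero => simp
  | succ d ih =>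
    have h1 := hf.hx (i+d) b
    have h2 := ih (b+1)
    have e1 : i + (d+1) = i + d + 1 := by ring
    have e2 : b + (d+1) = b + 1 + d := by ring
    rw [e1, e2]
    omega

lemma low {i j b b' : ℕ} (hij : i ≤ j) (h : 0 < f j b) (hb : b' ≤ b + (j - i)) :
    f j b + (b + (j-i) - b') ≤ f i b' := by
  have h1 := hf.shift i b (j-i)
  have h2 := hf.down i b' (b + (j-i) - b')
  have e1 : i + (j-i) = j := by omega
  have e2 : b' + (b + (j-i) - b') = b + (j-i) := by omega
  rw [e1] at h1
  rw [e2] at h2
  have := h2 (by omega)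
  omega

lemma low0 {i j b b' : ℕ} (hij : i ≤ j) (hb : b' ≤ b + (j - i)) :
    f j b ≤ f i b' := by
  rcases Nat.eq_zero_or_pos (f j b) with h | h
  · omega
  · have := hf.low hij h hb; omega

end Stair

lemma sum_tri (n w : ℕ) (h : n ≤ w) : ∑ b ∈ range w, (n - b) = (n+1).choose 2 := by
  induction n with
  | zero => simp
  | succ n ih =>
    have h1 : ∀ b ∈ range w, (n + 1 - b) = (n - b) + (if b ≤ n then 1 else 0) := by
      intro b _
      split_ifs <;> omega
    rw [sum_congr rfl h1, sum_add_distrib, ih (by omega)]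
    have h2 : ∑ b ∈ range w, (if b ≤ n then 1 else 0) = n + 1 := by
      rw [← card_filter]
      have : (range w).filter (fun b => b ≤ n) = range (n+1) := by
        ext b; simp; omega
      rw [this, card_range]
    rw [h2, Nat.choose_succ_succ' (n+1) 1, Nat.choose_one_right]
    ring

lemma sum_tetra (j w : ℕ) (h : j ≤ w) :
    ∑ i ∈ range j, ∑ b ∈ range w, (j - i - b) = (j+2).choose 3 := by
  have h1 : ∀ i ∈ range j, ∑ b ∈ range w, (j - i - b) = (j - i + 1).choose 2 := by
    intro i _
    exact sum_tri _ _ (by omega)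
  rw [sum_congr rfl h1]
  clear h1 h
  induction j with
  | zero => simp
  | succ j ih =>
    rw [sum_range_succ']
    have : ∀ i ∈ range j, (j + 1 - (i+1) + 1).choose 2 = (j - i + 1).choose 2 := by
      intro i _
      congr 2; omega
    rw [sum_congr rfl this, ih]
    have : j + 1 - 0 + 1 = j + 2 := by omega
    rw [this, Nat.choose_succ_succ' (j+2) 2]
    ring

end Pool.Agent.Lib.MP_ff2328_ag
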